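import Pool.Agent.PF.Mach

/-!
# Polynomial time functions between coded types

`PF f` is proved automatically by `fun_prop`.
-/

set_option autoImplicit false

namespace Pool.Agent.PF

variable {α β γ δ : Type} [VEnc α] [VEnc β] [VEnc γ] [VEnc δ]

/-- `f` is computable in polynomial time (on the codes by trees). -/
@[fun_prop] def PF (f : α → β) : Prop := ∃ F : V → V, PT F ∧ ∀ a, F (enc a) = enc (f a)

@[fun_prop] theorem PF.id' : PF (fun x : α => x) := ⟨fun v => v, PT.id, fun _ => rfl⟩

@[fun_prop] theorem PF.const' (b : β) : PF (fun _ : α => b) :=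
  ⟨fun _ => enc b, PT.const _, fun _ => rfl⟩

@[fun_prop] theorem PF.comp' {g : β → γ} {f : α → β} (hg : PF g) (hf : PF f) :
    PF (fun x => g (f x)) := by
  obtain ⟨G, hG, hG'⟩ := hg
  obtain ⟨F, hF, hF'⟩ := hf
  exact ⟨fun v => G (F v), PT.comp hG hF, fun a => by simp only [hF', hG']⟩

@[fun_prop] theorem PF.prodMk {f : α → β} {g : α → γ} (hf : PF f) (hg : PF g) :
    PF (fun x => (f x, g x)) := by
  obtain ⟨G, hG, hG'⟩ := hg
  obtain ⟨F, hF, hF'⟩ := hf
  exact ⟨fun v => .node (F v) (G v), PT.node hF hG, fun a => by simp only [hF', hG']; rfl⟩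

@[fun_prop] theorem PF.fst {f : α → β × γ} (hf : PF f) : PF (fun x => (f x).1) := by
  obtain ⟨F, hF, hF'⟩ := hf
  exact ⟨fun v => V.hd (F v), PT.comp PT.hd hF, fun a => by simp only [hF']; rfl⟩

@[fun_prop] theorem PF.snd {f : α → β × γ} (hf : PF f) : PF (fun x => (f x).2) := by
  obtain ⟨F, hF, hF'⟩ := hf
  exact ⟨fun v => V.tl (F v), PT.comp PT.tl hF, fun a => by simp only [hF']; rfl⟩

/-- Booleans. -/
theorem PF.cond {c : α → Bool} {f g : α → β} (hc : PF c) (hf : PF f) (hg : PF g) :
    PF (fun x => if c x = true then f x else g x) := by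
  obtain ⟨C, hC, hC'⟩ := hc
  obtain ⟨G, hG, hG'⟩ := hg
  obtain ⟨F, hF, hF'⟩ := hf
  refine ⟨fun v => V.ifnil (C v) (G v) (F v), PT.ifnil hC hG hF, fun a => ?_⟩
  simp only [hC', hF', hG']
  cases c a <;> rfl

@[fun_prop] theorem PF.ite {p : α → Prop} [DecidablePred p] {f g : α → β}
    (hp : PF (fun x => decide (p x))) (hf : PF f) (hg : PF g) :
    PF (fun x => if p x then f x else g x) := by
  have h := PF.cond hp hf hg
  simpa only [decide_eq_true_eq] using h

@[fun_prop] theorem PF.not {f : α → Bool} (hf : PF f) : PF (fun x => !(f x)) := by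
  have h := PF.cond hf (PF.const' (α := α) false) (PF.const' (α := α) true)
  have e : (fun x => !(f x)) = fun x => if f x = true then false else true := by
    funext x; cases f x <;> rfl
  rw [e]; exact h

@[fun_prop] theorem PF.and {f g : α → Bool} (hf : PF f) (hg : PF g) :
    PF (fun x => f x && g x) := by
  have h := PF.cond hf hg (PF.const' (α := α) false)
  have e : (fun x => f x && g x) = fun x => if f x = true then g x else false := by
    funext x; cases f x <;> rfl
  rw [e]; exact h

@[fun_prop] theorem PF.or {f g : α → Bool} (hf : PF f) (hg : PF g) :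
    PF (fun x => f x || g x) := by
  have h := PF.cond hf (PF.const' (α := α) true) hg
  have e : (fun x => f x || g x) = fun x => if f x = true then true else g x := by
    funext x; cases f x <;> rfl
  rw [e]; exact h

@[fun_prop] theorem PF.decNot {p : α → Prop} [DecidablePred p] (hp : PF (fun x => decide (p x))) :
    PF (fun x => decide (¬ p x)) := by
  have h := PF.not hp
  have e : (fun x => decide (¬ p x)) = fun x => !(decide (p x)) := by
    funext x; exact decide_not
  rw [e]; exact h

@[fun_prop] theorem PF.decAnd {p q : α → Prop} [DecidablePred p] [DecidablePred q]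
    (hp : PF (fun x => decide (p x))) (hq : PF (fun x => decide (q x))) :
    PF (fun x => decide (p x ∧ q x)) := by
  have h := PF.and hp hq
  have e : (fun x => decide (p x ∧ q x)) = fun x => (decide (p x) && decide (q x)) := by
    funext x; exact Bool.decide_and _ _
  rw [e]; exact h

@[fun_prop] theorem PF.decBool {f : α → Bool} (hf : PF f) :
    PF (fun x => decide (f x = true)) := by
  have e : (fun x => decide (f x = true)) = f := by
    funext x; exact Bool.decide_eq_true
  rw [e]; exact hf

/-! ### Options -/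

@[fun_prop] theorem PF.some' {f : α → β} (hf : PF f) : PF (fun x => some (f x)) := by
  obtain ⟨F, hF, hF'⟩ := hf
  exact ⟨fun v => .node .nil (F v), PT.node (PT.const _) hF, fun a => by simp only [hF']; rfl⟩

theorem PF.optionElim_aux {o : α → Option β} {n : α → γ} {f : α → β → γ} (ho : PF o)
    (hn : PF n) (hf : PF (fun p : α × β => f p.1 p.2)) :
    PF (fun x => (o x).elim (n x) (f x)) := by
  obtain ⟨O, hO, hO'⟩ := ho
  obtain ⟨N, hN, hN'⟩ := hn
  obtain ⟨F, hF, hF'⟩ := hf
  refine ⟨fun v => V.ifnil (O v) (N v) (F (.node v (V.tl (O v)))),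
    PT.ifnil hO hN (PT.comp hF (PT.node PT.id (PT.comp PT.tl hO))), fun a => ?_⟩
  simp only [hO', hN']
  cases h : o a with
  | none => rfl
  | some b => exact hF' (a, b)

@[fun_prop] theorem PF.optionMap {o : α → Option β} {f : α → β → γ} (ho : PF o)
    (hf : PF (fun p : α × β => f p.1 p.2)) : PF (fun x => (o x).map (f x)) := by
  have h := PF.optionElim_aux (f := fun x b => some (f x b)) ho
    (PF.const' (α := α) (none : Option γ)) (PF.some' hf)
  have e : (fun x => (o x).map (f x)) = fun x => (o x).elim none fun b => some (f x b) := by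
    funext x; cases o x <;> rfl
  rw [e]; exact h

@[fun_prop] theorem PF.optionElim {o : α → Option β} {n : α → γ} {f : α → β → γ} (ho : PF o)
    (hn : PF n) (hf : PF (fun p : α × β => f p.1 p.2)) : PF (fun x => (o x).elim (n x) (f x)) :=
  PF.optionElim_aux ho hn hf

@[fun_prop] theorem PF.optionGetD {o : α → Option β} {n : α → β} (ho : PF o) (hn : PF n) :
    PF (fun x => (o x).getD (n x)) := by
  have h := PF.optionElim_aux (f := fun _ b => b) ho hn (PF.snd PF.id')
  have e : (fun x => (o x).getD (n x)) = fun x => (o x).elim (n x) fun b => b := by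
    funext x; cases o x <;> rfl
  rw [e]; exact h

@[fun_prop] theorem PF.isSome {o : α → Option β} (ho : PF o) : PF (fun x => (o x).isSome) := by
  have h := PF.optionElim_aux (f := fun _ _ => true) ho (PF.const' (α := α) false)
    (PF.const' (α := α × β) true)
  have e : (fun x => (o x).isSome) = fun x => (o x).elim false fun _ => true := by
    funext x; cases o x <;> rfl
  rw [e]; exact h

@[fun_prop] theorem PF.join {o : α → Option (Option β)} (ho : PF o) :
    PF (fun x => (o x).join) := by
  have h := PF.optionElim_aux (f := fun _ b => b) ho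
    (PF.const' (α := α) (none : Option β)) (PF.snd PF.id')
  have e : (fun x => (o x).join) = fun x => (o x).elim none fun b => b := by
    funext x; cases o x <;> rfl
  rw [e]; exact h

/-! ### Sizes and guarded iteration -/

@[fun_prop] theorem PF.sz {f : α → β} (hf : PF f) : PF (fun x => sz (f x)) := by
  obtain ⟨F, hF, hF'⟩ := hf
  exact ⟨fun v => V.una (F v).size, PT.comp PT.usize hF, fun a => by simp only [hF']; rfl⟩

theorem PF.size_le {f : α → β} (hf : PF f) : ∃ c, ∀ x, Pool.Agent.PF.sz (f x) ≤ (Pool.Agent.PF.sz x + 2) ^ c := by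
  obtain ⟨F, hF, hF'⟩ := hf
  obtain ⟨c, hc⟩ := PT.size_le hF
  refine ⟨c, fun x => ?_⟩
  have h := hc (enc x)
  rw [hF'] at h
  exact h

theorem giter_enc {F : V → V} {f : α → β → β}
    (hF : ∀ p : α × β, F (enc p) = enc (f p.1 p.2)) (x : α) (B n : ℕ) (s : β) :
    V.giter F (.node (enc x) (.node (enc B) (.node (enc n) (enc s)))) =
      enc (Pool.Agent.PF.bIter B n (f x) s) := by
  have hB : (enc B : V).spine = B := V.spine_una B
  have hn : (enc n : V).spine = n := V.spine_una n
  simp only [V.giter, V.hd_node, V.tl_node, hB, hn, Pool.Agent.PF.bIter]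
  clear hn
  induction n with
  | zero => rfl
  | succ n ih =>
    rw [Function.iterate_succ_apply', Function.iterate_succ_apply', ih]
    set t := (fun s => let t := f x s; if Pool.Agent.PF.sz t ≤ B then t else s)^[n] s with ht
    have h := hF (x, t)
    have h2 : F (.node (enc x) (enc t)) = enc (f x t) := h
    simp only [h2]
    by_cases hs : Pool.Agent.PF.sz (f x t) ≤ B
    · rw [if_pos hs]; exact if_pos hs
    · rw [if_neg hs]; exact if_neg hs

@[fun_prop] theorem PF.bIter {B n : α → ℕ} {f : α → β → β} {s : α → β} (hB : PF B) (hn : PF n)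
    (hf : PF (fun p : α × β => f p.1 p.2)) (hs : PF s) :
    PF (fun x => bIter (B x) (n x) (f x) (s x)) := by
  obtain ⟨B', hB, hB'⟩ := hB
  obtain ⟨N, hN, hN'⟩ := hn
  obtain ⟨F, hF, hF'⟩ := hf
  obtain ⟨S, hS, hS'⟩ := hs
  refine ⟨fun v => V.giter F (.node v (.node (B' v) (.node (N v) (S v)))),
    PT.comp (PT.giter hF) (PT.node PT.id (PT.node hB (PT.node hN hS))), fun a => ?_⟩
  simp only [hB', hN', hS']
  exact giter_enc hF' a (B a) (n a) (s a)

end Pool.Agent.PF
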