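import Pool.Agent.PF.Mach3
import Pool.Agent.MDF.Tw

/-!
# Computing an iterated exponential in unary
-/

set_option autoImplicit false

namespace Pool.Agent.PF

open Pool.Agent.MDF Function

/-- bounded by a power of `N` -/
private def PB (N f : V → ℕ) : Prop := ∃ C, ∀ v, f v ≤ N v ^ C

private theorem PB.mono {N f g : V → ℕ} (hg : PB N g) (h : ∀ v, f v ≤ g v) : PB N f := by
  obtain ⟨C, hC⟩ := hg
  exact ⟨C, fun v => (h v).trans (hC v)⟩

private theorem PB.self {N : V → ℕ} : PB N N := ⟨1, fun v => by rw [pow_one]⟩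

private theorem PB.const {N : V → ℕ} (hN : ∀ v, 2 ≤ N v) (k : ℕ) : PB N fun _ => k :=
  ⟨k, fun v => Nat.lt_two_pow_self.le.trans (Nat.pow_le_pow_left (hN v) k)⟩

private theorem PB.add {N f g : V → ℕ} (hN : ∀ v, 2 ≤ N v) (hf : PB N f) (hg : PB N g) :
    PB N fun v => f v + g v := by
  obtain ⟨a, ha⟩ := hf
  obtain ⟨b, hb⟩ := hg
  refine ⟨max a b + 1, fun v => ?_⟩
  have h1 : N v ^ a ≤ N v ^ max a b :=
    Nat.pow_le_pow_right (by have := hN v; omega) (le_max_left a b)
  have h2 : N v ^ b ≤ N v ^ max a b :=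
    Nat.pow_le_pow_right (by have := hN v; omega) (le_max_right a b)
  have h3 : N v ^ max a b * 2 ≤ N v ^ max a b * N v := Nat.mul_le_mul_left _ (hN v)
  have h4 := ha v
  have h5 := hb v
  change f v + g v ≤ _
  rw [pow_succ]
  omega

private theorem PB.mul {N f g : V → ℕ} (hf : PB N f) (hg : PB N g) :
    PB N fun v => f v * g v := by
  obtain ⟨a, ha⟩ := hf
  obtain ⟨b, hb⟩ := hg
  exact ⟨a + b, fun v => by rw [pow_add]; exact Nat.mul_le_mul (ha v) (hb v)⟩

private theorem PB.pow {N f : V → ℕ} (hf : PB N f) (c : ℕ) : PB N fun v => f v ^ c := by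
  obtain ⟨a, ha⟩ := hf
  exact ⟨a * c, fun v => by rw [pow_mul]; exact Nat.pow_le_pow_left (ha v) c⟩

/-- doubling of the first part -/
private def dbl (s : V) : V := .node (V.una (s.hd.spine + s.hd.spine)) s.tl

private theorem dbl_PT : PT dbl :=
  PT.node (PT.comp PT.uadd (PT.node PT.hd PT.hd)) PT.tl

private theorem dbl_iter (i k : ℕ) (w : V) :
    dbl^[i] (.node (V.una k) w) = .node (V.una (2 ^ i * k)) w := by
  induction i with
  | zero => simp
  | succ i ih =>
    rw [iterate_succ_apply', ih, dbl, V.hd_node, V.tl_node, V.spine_una]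
    congr 2
    ring

private theorem dbl_size (s : V) (i : ℕ) : (dbl^[i] s).size ≤ 2 ^ (i + 2) * (s.size + 2) := by
  have h1 : (dbl^[i] s).hd.spine ≤ 2 ^ i * s.size ∧ (dbl^[i] s).tl.size ≤ s.size := by
    induction i with
    | zero =>
      rw [iterate_zero_apply, pow_zero, one_mul]
      exact ⟨(V.spine_le_size _).trans (V.size_hd_le s), V.size_tl_le s⟩
    | succ i ih =>
      rw [iterate_succ_apply', dbl, V.hd_node, V.tl_node, V.spine_una]
      refine ⟨?_, ih.2⟩
      have := ih.1
      rw [pow_succ]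
      nlinarith
  have h5 : 1 ≤ 2 ^ i := Nat.one_le_two_pow
  have h6 : 2 ^ (i + 2) * (s.size + 2) = 4 * (2 ^ i * s.size) + 8 * 2 ^ i := by
    rw [pow_succ, pow_succ]
    ring
  have h7 : s.size ≤ 2 ^ i * s.size := Nat.le_mul_of_pos_left _ (by positivity)
  rw [h6]
  cases i with
  | zero =>
    rw [iterate_zero_apply]
    omega
  | succ i =>
    have h2 : (dbl^[i + 1] s) = .node (V.una ((dbl^[i] s).hd.spine + (dbl^[i] s).hd.spine))
        (dbl^[i] s).tl := by
      rw [iterate_succ_apply', dbl]
    rw [h2] at h1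
    rw [h2]
    simp only [V.hd_node, V.tl_node, V.spine_una] at h1
    simp only [V.size, V.size_una]
    obtain ⟨h3, h4⟩ := h1
    omega

/-- insertion of the numeral `1` -/
private def ins (u : V) : V := .node u.hd (.node (V.una 1) u.tl)

private theorem ins_PT : PT ins := PT.node PT.hd (PT.node (PT.const _) PT.tl)

private def genE (c : ℕ) (v : V) : V := .node (V.una (tw c v.hd.spine)) v.tl

private theorem genE_succ (c : ℕ) (v : V) :
    V.uiter dbl (ins (genE c v)) = genE (c + 1) v := by
  rw [V.uiter, ins, genE, V.hd_node, V.tl_node, V.tl_node, V.hd_node, V.spine_una, dbl_iter,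
    genE, tw_succ, mul_one]

private theorem gen_aux (c : ℕ) : ∃ C, RunsBy (genE c)
    fun v => (tw c v.hd.spine + v.size + 2) ^ C := by
  induction c with
  | zero =>
    obtain ⟨C, hC⟩ : PT (genE 0) := by
      have h1 : genE 0 = fun v => .node (V.una ((V.node v.hd (V.una 2)).hd.spine +
          (V.node v.hd (V.una 2)).tl.spine)) v.tl := by
        funext v
        rw [genE, V.hd_node, V.tl_node, V.spine_una, tw_zero]
      rw [h1]
      exact PT.node (PT.comp (F := fun v => V.una (v.hd.spine + v.tl.spine))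
        (G := fun v => V.node v.hd (V.una 2)) PT.uadd (PT.node PT.hd (PT.const _))) PT.tl
    refine ⟨C, hC.mono fun v => Nat.pow_le_pow_left ?_ C⟩
    omega
  | succ c ih =>
    obtain ⟨C, hC⟩ := ih
    obtain ⟨c₁, hD⟩ := dbl_PT
    obtain ⟨c₂, hQ⟩ := ins_PT
    obtain ⟨C₃, hU⟩ := RunsBy.uiter hD
    have hU' := hU (fun v => (2 ^ (v.hd.spine + 2) * (v.size + 2) + 2) ^ c₁)
      (fun v => 2 ^ (v.hd.spine + 2) * (v.size + 2)) (by
        intro v i hi
        refine (dbl_size v.tl i).trans (Nat.mul_le_mul ?_ ?_)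
        · exact Nat.pow_le_pow_right (by norm_num) (by omega)
        · have := V.size_tl_le v
          omega) (by
        intro v i hi
        refine Nat.pow_le_pow_left (Nat.add_le_add_right ?_ 2) c₁
        refine (dbl_size v.tl i).trans (Nat.mul_le_mul ?_ ?_)
        · exact Nat.pow_le_pow_right (by norm_num) (by omega)
        · have := V.size_tl_le v
          omega)
    have h1 := (hU'.comp hQ).comp hC
    have h2 : (fun v => V.uiter dbl (ins (genE c v))) = genE (c + 1) :=
      funext fun v => genE_succ c v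
    rw [h2] at h1
    set N : V → ℕ := fun v => tw (c + 1) v.hd.spine + v.size + 2 with hN
    have hN2 : ∀ v, 2 ≤ N v := fun v => by simp only [hN]; omega
    have hk : ∀ k, PB N fun _ => k := PB.const hN2
    have htw : PB N fun v => tw c v.hd.spine := PB.self.mono fun v => by
      have := tw_le_succ c v.hd.spine
      simp only [hN]
      omega
    have htw2 : PB N fun v => 2 ^ tw c v.hd.spine := PB.self.mono fun v => by
      simp only [hN, tw_succ]
      omega
    have hsz : PB N fun v => v.size := PB.self.mono fun v => by simp only [hN]; omega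
    have hE : PB N fun v => (genE c v).size := by
      refine (PB.add hN2 (PB.add hN2 (PB.mul (hk 2) htw) hsz) (hk 2)).mono fun v => ?_
      have := V.size_tl_le v
      simp only [genE, V.size, V.size_una]
      omega
    have hI : PB N fun v => (ins (genE c v)).size := by
      refine (PB.add hN2 (PB.add hN2 (PB.mul (hk 2) htw) hsz) (hk 6)).mono fun v => ?_
      have := V.size_tl_le v
      simp only [ins, genE, V.hd_node, V.tl_node, V.size, V.size_una]
      omega
    have hS : ∀ v, (ins (genE c v)).hd.spine = tw c v.hd.spine := by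
      intro v
      rw [ins, genE, V.hd_node, V.hd_node, V.spine_una]
    have hB : PB N fun v => 2 ^ ((ins (genE c v)).hd.spine + 2) * ((ins (genE c v)).size + 2) := by
      refine (PB.mul (PB.mul htw2 (hk 4)) (PB.add hN2 hI (hk 2))).mono fun v => ?_
      rw [hS, pow_add]
      norm_num
    have hC' : PB N fun v => (tw c v.hd.spine + v.size + 2) ^ C :=
      PB.pow (PB.add hN2 (PB.add hN2 htw hsz) (hk 2)) C
    have hT : PB N fun v => (tw c v.hd.spine + v.size + 2) ^ C +
        (((genE c v).size + 2) ^ c₂ + C₃ * ((ins (genE c v)).hd.spine + 1) *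
          ((2 ^ ((ins (genE c v)).hd.spine + 2) * ((ins (genE c v)).size + 2) + 2) ^ c₁ +
            2 ^ ((ins (genE c v)).hd.spine + 2) * ((ins (genE c v)).size + 2) +
              (ins (genE c v)).size + 1) + 1) + 1 := by
      refine PB.add hN2 (PB.add hN2 hC' (PB.add hN2 (PB.add hN2
        (PB.pow (PB.add hN2 hE (hk 2)) c₂) (PB.mul (PB.mul (hk C₃) ?_) ?_)) (hk 1))) (hk 1)
      · exact (PB.add hN2 htw (hk 1)).mono fun v => by rw [hS]
      · exact PB.add hN2 (PB.add hN2 (PB.add hN2 (PB.pow (PB.add hN2 hB (hk 2)) c₁) hB) hI) (hk 1)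
    obtain ⟨K, hK⟩ := hT
    exact ⟨K, h1.mono hK⟩

/-- `v = node n w`: the first part is replaced by the unary numeral `tw c n`. -/
theorem gen_tw (c : ℕ) : ∃ C, RunsBy (fun v => .node (V.una (tw c v.hd.spine)) v.tl)
    fun v => (tw c v.hd.spine + v.size + 2) ^ C := gen_aux c

end Pool.Agent.PF
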