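import Pool.Agent.PF.Bin2

/-!
# Polynomial time functions: integers (coded in binary)
-/

set_option autoImplicit false
set_option linter.dupNamespace false

namespace Pool.Agent.PF

variable {α β γ : Type} [VEnc α] [VEnc β] [VEnc γ]

/-! ### Sign and absolute value -/

private theorem PF.pairZ {f : α → ℤ} (hf : PF f) :
    PF (fun x => (decide (f x < 0), (f x).natAbs.bits)) := by
  obtain ⟨F, hF, h⟩ := hf
  exact ⟨F, hF, fun a => h a⟩

theorem PF.signZ {f : α → ℤ} (hf : PF f) : PF (fun x => decide (f x < 0)) := hf.pairZ.fst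

theorem PF.absZ {f : α → ℤ} (hf : PF f) : PF (fun x => Bin.mk (f x).natAbs) := by
  obtain ⟨F, hF, h⟩ := hf.pairZ.snd
  exact ⟨F, hF, fun a => h a⟩

/-- The integer with given sign and absolute value. -/
theorem PF.mkZ {s : α → Bool} {b : α → Bin} (hs : PF s) (hb : PF b) :
    PF (fun x => if s x = true then -((b x).val : ℤ) else ((b x).val : ℤ)) := by
  have h0 : PF (fun _ : α => Bin.mk 0) := PF.const' _
  have h1 : PF (fun x => decide ((b x).val = (Bin.mk 0).val)) := PF.eqB hb h0
  obtain ⟨F, hF, h⟩ := (hs.and h1.not).prodMk (PF.bitsB hb)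
  have key : ∀ (t : Bool) (n : ℕ), (t && !(decide (n = (Bin.mk 0).val)), n.bits) =
      (decide ((if t = true then -(n : ℤ) else (n : ℤ)) < 0),
        (if t = true then -(n : ℤ) else (n : ℤ)).natAbs.bits) := by
    intro t n
    cases t
    · simp only [Bool.false_and, Bool.false_eq_true, if_false, Int.natAbs_natCast]
      refine Prod.ext ?_ rfl
      exact (decide_eq_false_iff_not.2 (not_lt.2 (Int.natCast_nonneg n))).symm
    · simp only [Bool.true_and, if_true, Int.natAbs_neg, Int.natAbs_natCast]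
      refine Prod.ext ?_ rfl
      rw [Bool.eq_iff_iff]
      simp only [Bool.not_eq_true', decide_eq_false_iff_not, decide_eq_true_eq]
      omega
  exact ⟨F, hF, fun a => (h a).trans (congrArg enc (key (s a) (b a).val))⟩

private theorem PF.congr {f g : α → β} (hf : PF f) (h : ∀ x, f x = g x) : PF g := by
  have : f = g := funext h
  rwa [this] at hf

@[fun_prop] theorem PF.castZ {f : α → ℕ} (hf : PF f) : PF (fun x => (f x : ℤ)) :=
  (PF.mkZ (PF.const' false) hf.ofNatB).congr fun x => by simp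

@[fun_prop] theorem PF.negZ {f : α → ℤ} (hf : PF f) : PF (fun x => - f x) :=
  (PF.mkZ hf.signZ.not hf.absZ).congr fun x => by
    by_cases h : f x < 0
    · simp only [h, decide_true, Bool.not_true, Bool.false_eq_true, if_false]
      omega
    · simp only [h, decide_false, Bool.not_false, if_true]
      omega

@[fun_prop] theorem PF.addZ {f g : α → ℤ} (hf : PF f) (hg : PF g) :
    PF (fun x => f x + g x) := by
  have h1 : PF (fun x => if decide (f x < 0) = true then decide (g x < 0) else
      !(decide (g x < 0))) := PF.cond hf.signZ hg.signZ hg.signZ.not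
  have h2 := PF.mkZ hf.signZ (hf.absZ.addB hg.absZ)
  have h3 := PF.mkZ hf.signZ (hf.absZ.subB hg.absZ)
  have h4 := PF.mkZ hg.signZ (hg.absZ.subB hf.absZ)
  refine (PF.cond h1 h2 (PF.cond (hg.absZ.leB hf.absZ) h3 h4)).congr fun x => ?_
  by_cases h : f x < 0 <;> by_cases h' : g x < 0 <;>
    by_cases h'' : (g x).natAbs ≤ (f x).natAbs <;>
    simp only [h, h', h'', decide_true, decide_false, if_true, if_false, Bool.not_true,
      Bool.not_false, Bool.false_eq_true] <;> omega

@[fun_prop] theorem PF.subZ {f g : α → ℤ} (hf : PF f) (hg : PF g) :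
    PF (fun x => f x - g x) :=
  (hf.addZ hg.negZ).congr fun x => by ring

private theorem mul_signs (a b : ℤ) : (if (if decide (a < 0) = true then !(decide (b < 0)) else
    decide (b < 0)) = true then -((a.natAbs * b.natAbs : ℕ) : ℤ) else
      ((a.natAbs * b.natAbs : ℕ) : ℤ)) = a * b := by
  have ha : (a.natAbs : ℤ) = |a| := Int.natCast_natAbs a
  have hb : (b.natAbs : ℤ) = |b| := Int.natCast_natAbs b
  by_cases h : a < 0 <;> by_cases h' : b < 0 <;>
    simp only [h, h', decide_true, decide_false, if_true, if_false, Bool.not_true,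
      Bool.not_false, Bool.false_eq_true, Nat.cast_mul, ha, hb]
  · rw [abs_of_neg h, abs_of_neg h']; ring
  · rw [abs_of_neg h, abs_of_nonneg (not_lt.1 h')]; ring
  · rw [abs_of_nonneg (not_lt.1 h), abs_of_neg h']; ring
  · rw [abs_of_nonneg (not_lt.1 h), abs_of_nonneg (not_lt.1 h')]

@[fun_prop] theorem PF.mulZ {f g : α → ℤ} (hf : PF f) (hg : PF g) :
    PF (fun x => f x * g x) :=
  (PF.mkZ (PF.cond hf.signZ hg.signZ.not hg.signZ) (hf.absZ.mulB hg.absZ)).congr fun x =>
    mul_signs (f x) (g x)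

private theorem neg_div (m n : ℕ) (hn : 0 < n) :
    (-((m : ℤ) + 1)) / (n : ℤ) = -(((m / n : ℕ) : ℤ) + 1) := by
  have h := Int.negSucc_ediv m (b := (n : ℤ)) (by exact_mod_cast hn)
  rw [Int.negSucc_eq] at h
  rw [h]
  rfl

private theorem div_signs (a b : ℤ) :
    (if decide (b.natAbs = 0) = true then 0 else
      if decide (a < 0) = true then
        (if (!(decide (b < 0))) = true then -(((a.natAbs - 1) / b.natAbs + 1 : ℕ) : ℤ) else
          (((a.natAbs - 1) / b.natAbs + 1 : ℕ) : ℤ))
      else (if decide (b < 0) = true then -((a.natAbs / b.natAbs : ℕ) : ℤ) else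
        ((a.natAbs / b.natAbs : ℕ) : ℤ))) = a / b := by
  by_cases h0 : b.natAbs = 0
  · simp only [h0, decide_true, if_true]
    rw [Int.natAbs_eq_zero.1 h0, Int.ediv_zero]
  · by_cases h : a < 0 <;> by_cases h' : b < 0 <;>
      simp only [h0, h, h', decide_true, decide_false, if_true, if_false, Bool.not_true,
        Bool.not_false, Bool.false_eq_true]
    · obtain ⟨m, rfl⟩ : ∃ m : ℕ, a = -((m : ℤ) + 1) := ⟨a.natAbs - 1, by omega⟩
      obtain ⟨n, rfl⟩ : ∃ n : ℕ, b = -(n : ℤ) := ⟨b.natAbs, by omega⟩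
      have h1 : (-((m : ℤ) + 1)).natAbs = m + 1 := by omega
      have h2 : (-(n : ℤ)).natAbs = n := by omega
      rw [h1, h2, Nat.add_sub_cancel, Int.ediv_neg, neg_div m n (by omega)]
      push_cast
      ring
    · obtain ⟨m, rfl⟩ : ∃ m : ℕ, a = -((m : ℤ) + 1) := ⟨a.natAbs - 1, by omega⟩
      obtain ⟨n, rfl⟩ : ∃ n : ℕ, b = (n : ℤ) := ⟨b.natAbs, by omega⟩
      have h1 : (-((m : ℤ) + 1)).natAbs = m + 1 := by omega
      rw [h1, Int.natAbs_natCast, Nat.add_sub_cancel, neg_div m n (by omega)]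
      push_cast
      ring
    · obtain ⟨m, rfl⟩ : ∃ m : ℕ, a = (m : ℤ) := ⟨a.natAbs, by omega⟩
      obtain ⟨n, rfl⟩ : ∃ n : ℕ, b = -(n : ℤ) := ⟨b.natAbs, by omega⟩
      have h2 : (-(n : ℤ)).natAbs = n := by omega
      rw [h2, Int.natAbs_natCast, Int.ediv_neg]
      push_cast
      ring
    · obtain ⟨m, rfl⟩ : ∃ m : ℕ, a = (m : ℤ) := ⟨a.natAbs, by omega⟩
      obtain ⟨n, rfl⟩ : ∃ n : ℕ, b = (n : ℤ) := ⟨b.natAbs, by omega⟩
      rw [Int.natAbs_natCast, Int.natAbs_natCast]
      push_cast
      ring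

@[fun_prop] theorem PF.divZ {f g : α → ℤ} (hf : PF f) (hg : PF g) :
    PF (fun x => f x / g x) := by
  have one : PF (fun _ : α => Bin.mk 1) := PF.const' _
  have zero : PF (fun _ : α => Bin.mk 0) := PF.const' _
  have h1 := PF.mkZ hg.signZ (hf.absZ.divB hg.absZ)
  have h2 := PF.mkZ hg.signZ.not (((hf.absZ.subB one).divB hg.absZ).addB one)
  refine (PF.cond (hg.absZ.eqB zero) (PF.const' (0 : ℤ)) (PF.cond hf.signZ h2 h1)).congr
    fun x => ?_
  exact div_signs (f x) (g x)

@[fun_prop] theorem PF.leZ {f g : α → ℤ} (hf : PF f) (hg : PF g) :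
    PF (fun x => decide (f x ≤ g x)) :=
  (hg.subZ hf).signZ.not.congr fun x => by
    rw [Bool.eq_iff_iff]
    simp only [Bool.not_eq_true', decide_eq_false_iff_not, decide_eq_true_eq]
    omega

@[fun_prop] theorem PF.ltZ {f g : α → ℤ} (hf : PF f) (hg : PF g) :
    PF (fun x => decide (f x < g x)) :=
  (hf.subZ hg).signZ.congr fun x => by
    rw [Bool.eq_iff_iff]
    simp only [decide_eq_true_eq]
    omega

@[fun_prop] theorem PF.eqZ {f g : α → ℤ} (hf : PF f) (hg : PF g) :
    PF (fun x => decide (f x = g x)) :=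
  ((hf.leZ hg).and (hg.leZ hf)).congr fun x => by
    rw [Bool.eq_iff_iff]
    simp only [Bool.and_eq_true, decide_eq_true_eq]
    omega

@[fun_prop] theorem PF.neZ {f g : α → ℤ} (hf : PF f) (hg : PF g) :
    PF (fun x => decide (f x ≠ g x)) :=
  (hf.eqZ hg).not.congr fun x => by
    rw [Bool.eq_iff_iff]
    simp only [Bool.not_eq_true', decide_eq_false_iff_not, decide_eq_true_eq]

/-- Bit length. -/
@[fun_prop] theorem PF.bitsZ {f : α → ℤ} (hf : PF f) :
    PF (fun x => (f x).natAbs.bits.length) := hf.absZ.lenB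

/-! ### Sums and products -/

private theorem sz_bits_le (n : ℕ) : sz n.bits ≤ 4 * n.bits.length + 1 := by
  induction n.bits with
  | nil => simp
  | cons b l ih =>
    have := sz_bool_le b
    rw [sz_cons, List.length_cons]
    omega

private theorem le_sz_bits (n : ℕ) : n.bits.length ≤ sz n.bits := by
  induction n.bits with
  | nil => simp
  | cons b l ih =>
    rw [sz_cons, List.length_cons]
    omega

private theorem sz_int (z : ℤ) : sz z = sz (decide (z < 0)) + sz z.natAbs.bits + 1 := rfl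

private theorem sz_int_le (z : ℤ) : sz z ≤ 4 * z.natAbs.bits.length + 5 := by
  have h1 := sz_bool_le (decide (z < 0))
  have h2 := sz_bits_le z.natAbs
  rw [sz_int]
  omega

private theorem len_le_sz (z : ℤ) : z.natAbs.bits.length ≤ sz z := by
  have h2 := le_sz_bits z.natAbs
  rw [sz_int]
  omega

private theorem bits_length_le {n k : ℕ} (h : n < 2 ^ k) : n.bits.length ≤ k := by
  rw [Nat.size_eq_bits_len]
  exact Nat.size_le.2 h

private theorem lt_two_pow_len (n : ℕ) : n < 2 ^ n.bits.length := by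
  rw [Nat.size_eq_bits_len]
  exact Nat.lt_size_self n

private theorem sum_lt (l : List ℤ) : 1 + l.sum.natAbs ≤ 2 ^ sz l := by
  induction l with
  | nil => simp
  | cons a l ih =>
    rw [List.sum_cons, sz_cons]
    have h1 : (a + l.sum).natAbs ≤ a.natAbs + l.sum.natAbs := Int.natAbs_add_le _ _
    have h2 := lt_two_pow_len a.natAbs
    have h3 : 2 ^ a.natAbs.bits.length ≤ 2 ^ sz a := Nat.pow_le_pow_right (by norm_num) (len_le_sz a)
    have h4 : 1 + (a + l.sum).natAbs ≤ (1 + a.natAbs) * (1 + l.sum.natAbs) := by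
      have h6 : (1 + a.natAbs) * (1 + l.sum.natAbs) =
          1 + (a.natAbs + l.sum.natAbs) + a.natAbs * l.sum.natAbs := by ring
      rw [h6]
      omega
    have h5 : (1 + a.natAbs) * (1 + l.sum.natAbs) ≤ 2 ^ sz a * 2 ^ sz l :=
      Nat.mul_le_mul (by omega) ih
    rw [← pow_add] at h5
    exact (h4.trans h5).trans (Nat.pow_le_pow_right (by norm_num) (by omega))

private theorem prod_lt (l : List ℤ) : l.prod.natAbs < 2 ^ sz l := by
  induction l with
  | nil => simp
  | cons a l ih =>
    rw [List.prod_cons, sz_cons, Int.natAbs_mul]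
    have h2 := lt_two_pow_len a.natAbs
    have h3 : 2 ^ a.natAbs.bits.length ≤ 2 ^ sz a := Nat.pow_le_pow_right (by norm_num) (len_le_sz a)
    have h5 : a.natAbs * l.prod.natAbs < 2 ^ sz a * 2 ^ sz l :=
      Nat.mul_lt_mul_of_lt_of_lt (by omega) ih
    rw [← pow_add] at h5
    exact h5.trans_le (Nat.pow_le_pow_right (by norm_num) (by omega))

private theorem sz_sum_le (l : List ℤ) : sz l.sum ≤ 4 * sz l + 5 := by
  have h1 := sz_int_le l.sum
  have h2 : l.sum.natAbs.bits.length ≤ sz l := bits_length_le (by have := sum_lt l; omega)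
  omega

private theorem sz_prod_le (l : List ℤ) : sz l.prod ≤ 4 * sz l + 5 := by
  have h1 := sz_int_le l.prod
  have h2 : l.prod.natAbs.bits.length ≤ sz l := bits_length_le (prod_lt l)
  omega

private theorem sz_take_le {δ : Type} [VEnc δ] (l : List δ) (i : ℕ) : sz (l.take i) ≤ sz l := by
  induction l generalizing i with
  | nil => simp
  | cons a l ih =>
    cases i with
    | zero => simp
    | succ i =>
      rw [List.take_succ_cons, sz_cons, sz_cons]
      have := ih i
      omega

private theorem sz_drop_le {δ : Type} [VEnc δ] (l : List δ) (i : ℕ) : sz (l.drop i) ≤ sz l := by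
  induction l generalizing i with
  | nil => simp
  | cons a l ih =>
    cases i with
    | zero => simp
    | succ i =>
      rw [List.drop_succ_cons, sz_cons]
      have := ih i
      omega

private theorem iter_fold (op : ℤ → ℤ → ℤ) (e : ℤ) (F : List ℤ → ℤ)
    (hF : ∀ (l : List ℤ) (a : ℤ), F (l ++ [a]) = op (F l) a) (hF0 : F [] = e) (l : List ℤ) :
    ∀ i ≤ l.length, (fun p : List ℤ × ℤ => (p.1.tail, op p.2 (p.1.headD 0)))^[i] (l, e) =
      (l.drop i, F (l.take i)) := by
  intro i
  induction i with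
  | zero => intro _; simp [hF0]
  | succ i ih =>
    intro hi
    rw [Function.iterate_succ_apply', ih (by omega)]
    have h1 : l.drop i = l[i] :: l.drop (i + 1) := List.drop_eq_getElem_cons (by omega)
    have h2 : l.take (i + 1) = l.take i ++ [l[i]] := by
      rw [List.take_succ_eq_append_getElem (by omega)]
    rw [h2, hF]
    simp only [h1, List.tail_cons, List.headD_cons]

private theorem PF.foldZ {f : α → List ℤ} (hf : PF f) (op : ℤ → ℤ → ℤ) (e : ℤ)
    (F : List ℤ → ℤ) (hF : ∀ (l : List ℤ) (a : ℤ), F (l ++ [a]) = op (F l) a) (hF0 : F [] = e)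
    (hop : PF (fun p : ℤ × ℤ => op p.1 p.2)) (hsz : ∀ l, Pool.Agent.PF.sz (F l) ≤ 4 * Pool.Agent.PF.sz l + 5) :
    PF (fun x => F (f x)) := by
  have hB : PF (fun x => 5 * Pool.Agent.PF.sz (f x) + 6) :=
    ((PF.const' 5).mulN hf.sz).addN (PF.const' 6)
  have hs : PF (fun x => (f x, e)) := hf.prodMk (PF.const' e)
  have hp : PF (fun p : α × (List ℤ × ℤ) => p.2) := PF.snd PF.id'
  have hst : PF (fun p : α × (List ℤ × ℤ) => (p.2.1.tail, op p.2.2 (p.2.1.headD 0))) :=
    hp.fst.tail.prodMk (PF.comp' (g := fun p : ℤ × ℤ => op p.1 p.2) hop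
      (hp.snd.prodMk (hp.fst.headD (PF.const' 0))))
  refine (PF.snd (PF.bIter (f := fun _ p => (p.1.tail, op p.2 (p.1.headD 0))) hB hf.length hst
    hs)).congr fun x => ?_
  rw [bIter_eq, iter_fold op e F hF hF0 (f x) _ le_rfl, List.take_length]
  intro i hi
  rw [iter_fold op e F hF hF0 (f x) _ (by omega), sz_prod]
  have h1 := sz_drop_le (f x) (i + 1)
  have h2 := sz_take_le (f x) (i + 1)
  have h3 := hsz ((f x).take (i + 1))
  omega

@[fun_prop] theorem PF.sumZ {f : α → List ℤ} (hf : PF f) : PF (fun x => (f x).sum) :=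
  hf.foldZ (fun a b => a + b) 0 List.sum (fun l a => by simp) rfl
    (PF.addZ (PF.fst PF.id') (PF.snd PF.id')) sz_sum_le

@[fun_prop] theorem PF.prodZ {f : α → List ℤ} (hf : PF f) : PF (fun x => (f x).prod) :=
  hf.foldZ (fun a b => a * b) 1 List.prod (fun l a => by simp) rfl
    (PF.mulZ (PF.fst PF.id') (PF.snd PF.id')) sz_prod_le

@[fun_prop] theorem PF.pow2Z {f : α → ℕ} (hf : PF f) : PF (fun x => (2 : ℤ) ^ f x) :=
  (PF.mkZ (PF.const' false) hf.pow2B).congr fun x => by simp

end Pool.Agent.PF
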