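import Mathlib

/-!
# Data as binary trees

Every datum is coded by a binary tree; natural numbers are coded in unary, integers in binary.
`sz a` is the size of the code.
-/

set_option autoImplicit false

namespace Pool.Agent.PF

/-- Binary trees. -/
inductive V : Type
  | nil : V
  | node (a b : V) : V
  deriving DecidableEq, Inhabited

namespace V

/-- The number of symbols of the code. -/
def size : V → ℕ
  | nil => 1
  | node a b => a.size + b.size + 1

/-- Prefix code. -/
def code : V → List Bool
  | nil => [false]
  | node a b => true :: (a.code ++ b.code)

theorem code_length : ∀ v : V, v.code.length = v.size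
  | nil => rfl
  | node a b => by simp [code, size, code_length a, code_length b]

theorem size_pos (v : V) : 1 ≤ v.size := by cases v <;> simp [size]

/-- The length of the right spine. -/
def spine : V → ℕ
  | nil => 0
  | node _ b => b.spine + 1

/-- The unary numeral. -/
def una : ℕ → V
  | 0 => nil
  | n + 1 => node nil (una n)

@[simp] theorem spine_una : ∀ n, (una n).spine = n
  | 0 => rfl
  | n + 1 => by simp [una, spine, spine_una n]

@[simp] theorem size_una : ∀ n, (una n).size = 2 * n + 1
  | 0 => rfl
  | n + 1 => by simp [una, size, size_una n]; ring

/-- The tree of a list of trees. -/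
def list : List V → V
  | [] => nil
  | a :: l => node a (list l)

/-- The tree of a Boolean. -/
def bool : Bool → V
  | false => nil
  | true => node nil nil

end V

/-- Types with a coding by trees. -/
class VEnc (α : Type) where
  /-- the code -/
  enc : α → V
  /-- codes are unique -/
  inj : Function.Injective enc

export VEnc (enc)

theorem enc_inj {α : Type} [VEnc α] {a b : α} (h : enc a = enc b) : a = b := VEnc.inj h

/-- The size of the code. -/
def sz {α : Type} [VEnc α] (a : α) : ℕ := (enc a).size

theorem V.bool_inj : Function.Injective V.bool := by
  intro a b h; cases a <;> cases b <;> simp_all [V.bool]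

theorem V.una_inj : Function.Injective V.una := fun a b h => by
  have := congrArg V.spine h; simpa using this

theorem V.list_inj : Function.Injective V.list := by
  intro a
  induction a with
  | nil => intro b h; cases b with
    | nil => rfl
    | cons c l => simp [V.list] at h
  | cons c l ih => intro b h; cases b with
    | nil => simp [V.list] at h
    | cons d m =>
      simp only [V.list, V.node.injEq] at h
      rw [h.1, ih h.2]

variable {α β : Type} [VEnc α] [VEnc β]

instance : VEnc V := ⟨id, fun _ _ h => h⟩
instance : VEnc Unit := ⟨fun _ => .nil, fun _ _ _ => rfl⟩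
instance : VEnc Bool := ⟨V.bool, V.bool_inj⟩
instance : VEnc ℕ := ⟨V.una, V.una_inj⟩
instance : VEnc (α × β) := ⟨fun p => .node (enc p.1) (enc p.2), fun p q h => by
  simp only [V.node.injEq] at h
  exact Prod.ext (enc_inj h.1) (enc_inj h.2)⟩
instance : VEnc (List α) := ⟨fun l => V.list (l.map enc), fun a b h => by
  have := V.list_inj h
  exact (List.map_injective_iff.2 VEnc.inj) this⟩
instance : VEnc (Option α) := ⟨fun o => match o with
  | none => .nil
  | some a => .node .nil (enc a), fun a b h => by
  cases a <;> cases b <;> simp_all [VEnc.inj.eq_iff]⟩
instance : VEnc ℤ := ⟨fun z => enc (decide (z < 0), z.natAbs.bits), fun a b h => by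
  have h := enc_inj h
  simp only [Prod.mk.injEq, decide_eq_decide] at h
  have h2 : a.natAbs = b.natAbs := by
    have h3 := congrArg (fun l : List Bool => l.foldr (fun b n => Nat.bit b n) 0) h.2
    have key : ∀ n : ℕ, (n.bits).foldr (fun b n => Nat.bit b n) 0 = n := by
      intro n
      induction n using Nat.binaryRec' with
      | zero => simp
      | bit b n hn ih => rw [Nat.bits_append_bit _ _ hn, List.foldr_cons, ih]
    simpa [key] using h3
  omega⟩

@[simp] theorem sz_unit (u : Unit) : sz u = 1 := rfl
@[simp] theorem sz_nat (n : ℕ) : sz n = 2 * n + 1 := V.size_una n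
@[simp] theorem sz_prod (a : α) (b : β) : sz (a, b) = sz a + sz b + 1 := rfl
@[simp] theorem sz_nil : sz ([] : List α) = 1 := rfl
@[simp] theorem sz_cons (a : α) (l : List α) : sz (a :: l) = sz a + sz l + 1 := rfl
@[simp] theorem sz_none : sz (none : Option α) = 1 := rfl
@[simp] theorem sz_some (a : α) : sz (some a) = sz a + 2 := by
  simp only [sz, enc, V.size]; ring
theorem sz_bool_le (b : Bool) : sz b ≤ 3 := by cases b <;> simp [sz, enc, V.bool, V.size]
theorem sz_pos (a : α) : 1 ≤ sz a := V.size_pos _

/-- Tabulation. -/
def tab {γ : Type} (n : ℕ) (f : ℕ → γ) : List γ := (List.range n).map f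

/-- Iteration, guarded by a bound for the size of the state. -/
def bIter (B n : ℕ) (f : α → α) (s : α) : α :=
  (fun s => let t := f s; if sz t ≤ B then t else s)^[n] s

/-- The guard is never active if all the states are small. -/
theorem bIter_eq {B n : ℕ} {f : α → α} {s : α} (h : ∀ i < n, sz (f^[i + 1] s) ≤ B) :
    bIter B n f s = f^[n] s := by
  unfold bIter
  induction n with
  | zero => rfl
  | succ n ih =>
    rw [Function.iterate_succ_apply', Function.iterate_succ_apply', ih fun i hi => h i (by omega)]
    have := h n (by omega)
    rw [Function.iterate_succ_apply'] at this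
    exact if_pos this

end Pool.Agent.PF
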