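import Pool.Agent.PF.Nat

/-!
# Polynomial time functions: lists
-/

set_option autoImplicit false
set_option linter.unusedSectionVars false
set_option linter.dupNamespace false

namespace Pool.Agent.PF

variable {α β γ : Type} [VEnc α] [VEnc β] [VEnc γ]

/-! ### Polynomial bounds -/

/-- `h` is bounded by a polynomial in the size. -/
private def Bd (h : α → ℕ) : Prop := ∃ c, ∀ x, h x ≤ (sz x + 2) ^ c

private theorem bd_const (k : ℕ) : Bd (fun _ : α => k) := by
  refine ⟨k, fun x => ?_⟩
  calc k ≤ 2 ^ k := Nat.lt_two_pow_self.le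
    _ ≤ (sz x + 2) ^ k := Nat.pow_le_pow_left (by omega) k

private theorem bd_self : Bd (fun x : α => sz x) := by
  refine ⟨1, fun x => ?_⟩
  rw [pow_one]
  exact Nat.le_add_right _ _

private theorem bd_mono {h h' : α → ℕ} (hh : Bd h') (hle : ∀ x, h x ≤ h' x) : Bd h := by
  obtain ⟨c, hc⟩ := hh
  exact ⟨c, fun x => (hle x).trans (hc x)⟩

private theorem bd_mul {h h' : α → ℕ} (hh : Bd h) (hh' : Bd h') : Bd (fun x => h x * h' x) := by
  obtain ⟨c, hc⟩ := hh
  obtain ⟨d, hd⟩ := hh'
  exact ⟨c + d, fun x => by rw [pow_add]; exact Nat.mul_le_mul (hc x) (hd x)⟩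

private theorem bd_add {h h' : α → ℕ} (hh : Bd h) (hh' : Bd h') : Bd (fun x => h x + h' x) := by
  obtain ⟨c, hc⟩ := hh
  obtain ⟨d, hd⟩ := hh'
  refine ⟨max c d + 1, fun x => ?_⟩
  have h1 : h x ≤ (sz x + 2) ^ max c d :=
    (hc x).trans (Nat.pow_le_pow_right (by omega) (le_max_left c d))
  have h2 : h' x ≤ (sz x + 2) ^ max c d :=
    (hd x).trans (Nat.pow_le_pow_right (by omega) (le_max_right c d))
  calc h x + h' x ≤ (sz x + 2) ^ max c d * 2 := by omega
    _ ≤ (sz x + 2) ^ max c d * (sz x + 2) := Nat.mul_le_mul_left _ (by omega)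
    _ = (sz x + 2) ^ (max c d + 1) := (pow_succ _ _).symm

private theorem bd_pow {h : α → ℕ} (hh : Bd h) (k : ℕ) : Bd (fun x => h x ^ k) := by
  obtain ⟨c, hc⟩ := hh
  refine ⟨c * k, fun x => ?_⟩
  rw [pow_mul]
  exact Nat.pow_le_pow_left (hc x) k

private theorem bd_sz {f : α → β} (hf : PF f) : Bd (fun x => sz (f x)) := PF.size_le hf

private theorem pf_upow (c : ℕ) : PF (fun x : α => (sz x + 2) ^ c) :=
  ⟨_, PT.upow c, fun _ => rfl⟩

/-! ### Iteration and folds -/

/-- Iteration with states of polynomially bounded size. -/
theorem PF.iter {n : α → ℕ} {f : α → β → β} {s : α → β} (hn : PF n)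
    (hf : PF (fun p : α × β => f p.1 p.2)) (hs : PF s)
    (hb : ∃ c, ∀ x, ∀ i < n x, Pool.Agent.PF.sz ((f x)^[i + 1] (s x)) ≤
      (Pool.Agent.PF.sz x + 2) ^ c) : PF (fun x => (f x)^[n x] (s x)) := by
  obtain ⟨c, hc⟩ := hb
  have h := PF.bIter (pf_upow c) hn hf hs
  have h1 : (fun x => Pool.Agent.PF.bIter ((Pool.Agent.PF.sz x + 2) ^ c) (n x) (f x) (s x)) =
      fun x => (f x)^[n x] (s x) := by
    funext x
    exact bIter_eq fun i hi => hc x i hi
  rwa [h1] at h

/-- The first element and the rest of a list. -/
private def uncons : List β → Option (β × List β)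
  | [] => none
  | b :: l => some (b, l)

private theorem pf_comp {f : α → β} {g : β → γ} (G : V → V) (hG : PT G) (hf : PF f)
    (h : ∀ b, G (enc b) = enc (g b)) : PF (fun x => g (f x)) := by
  obtain ⟨F, hF, hF2⟩ := hf
  exact ⟨fun v => G (F v), hG.comp hF, fun a => (congrArg G (hF2 a)).trans (h _)⟩

private theorem pf_uncons {f : α → List β} (hf : PF f) : PF (fun x => uncons (f x)) := by
  refine pf_comp (fun v => V.ifnil v .nil (.node .nil v))
    (PT.ifnil PT.id (PT.const _) (PT.node (PT.const _) PT.id)) hf fun l => ?_
  cases l <;> rfl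

/-- One step of a fold. -/
private def foldStep (g : γ → β → γ) (p : List β × γ) : List β × γ :=
  (uncons p.1).elim p fun q => (q.2, g p.2 q.1)

private theorem foldStep_iter (g : γ → β → γ) (i : ℕ) (l : List β) (a : γ) :
    (foldStep g)^[i] (l, a) = (l.drop i, (l.take i).foldl g a) := by
  induction i generalizing l a with
  | zero => simp
  | succ i ih =>
    rw [Function.iterate_succ_apply]
    cases l with
    | nil =>
      have h : foldStep g (([] : List β), a) = ([], a) := rfl
      rw [h, ih]
      simp
    | cons b l =>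
      have h : foldStep g (b :: l, a) = (l, g a b) := rfl
      rw [h, ih]
      simp

private theorem sz_drop_le (l : List β) (i : ℕ) : sz (l.drop i) ≤ sz l := by
  induction l generalizing i with
  | nil => simp
  | cons b l ih =>
    cases i with
    | zero => simp
    | succ i =>
      rw [List.drop_succ_cons, sz_cons]
      have := ih i
      omega

private theorem sz_take_le (l : List β) (i : ℕ) : sz (l.take i) ≤ sz l := by
  induction l generalizing i with
  | nil => simp
  | cons b l ih =>
    cases i with
    | zero =>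
      rw [List.take_zero, sz_nil]
      exact sz_pos _
    | succ i =>
      rw [List.take_succ_cons, sz_cons, sz_cons]
      have := ih i
      omega

private theorem sz_append (l l' : List β) : sz (l ++ l') + 1 = sz l + sz l' := by
  induction l with
  | nil => rw [List.nil_append, sz_nil]; omega
  | cons b l ih => rw [List.cons_append, sz_cons, sz_cons]; omega

private theorem sz_reverse (l : List β) : sz l.reverse = sz l := by
  induction l with
  | nil => rfl
  | cons b l ih =>
    have h := sz_append l.reverse [b]
    rw [List.reverse_cons, sz_cons]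
    rw [sz_cons, sz_nil] at h
    omega

private theorem length_le_sz (l : List β) : l.length ≤ sz l := by
  induction l with
  | nil => simp
  | cons b l ih => rw [List.length_cons, sz_cons]; omega

@[fun_prop] theorem PF.length {f : α → List β} (hf : PF f) : PF (fun x => (f x).length) := by
  refine pf_comp (g := fun l : List β => l.length) (fun v => V.una v.spine) PT.uspine hf
    fun l => ?_
  have h : (enc l).spine = l.length := by
    induction l with
    | nil => rfl
    | cons b l ih => exact congrArg (· + 1) ih
  rw [h]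
  rfl

/-- Folds with states of polynomially bounded size. -/
theorem PF.foldl {f : α → List β} {g : α → γ → β → γ} {s : α → γ} (hf : PF f)
    (hg : PF (fun p : (α × γ) × β => g p.1.1 p.1.2 p.2)) (hs : PF s)
    (hb : ∃ c, ∀ x, ∀ i, Pool.Agent.PF.sz (((f x).take i).foldl (g x) (s x)) ≤
      (Pool.Agent.PF.sz x + 2) ^ c) : PF (fun x => (f x).foldl (g x) (s x)) := by
  have hstep : PF (fun p : α × (List β × γ) => foldStep (g p.1) p.2) := by
    have h1 : PF (fun r : (α × (List β × γ)) × (β × List β) =>
        (r.2.2, g r.1.1 r.1.2.2 r.2.1)) :=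
      PF.prodMk (by fun_prop) (PF.comp' (f := fun r : (α × (List β × γ)) × (β × List β) =>
        ((r.1.1, r.1.2.2), r.2.1)) hg (by fun_prop))
    exact PF.optionElim (pf_uncons (by fun_prop)) (by fun_prop) h1
  have hbd : Bd (fun x : α => Pool.Agent.PF.sz (f x)) := bd_sz hf
  obtain ⟨c0, hc0⟩ := hb
  have hit := PF.iter (n := fun x => (f x).length) (f := fun x => foldStep (g x))
    (s := fun x => (f x, s x)) (by fun_prop) hstep
    (by fun_prop) (by
      have h2 : Bd (fun x => Pool.Agent.PF.sz (f x) + (Pool.Agent.PF.sz x + 2) ^ c0 + 1) :=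
        bd_add (bd_add hbd ⟨_, fun _ => le_rfl⟩) (bd_const 1)
      obtain ⟨c, hc⟩ := h2
      refine ⟨c, fun x i _ => le_trans ?_ (hc x)⟩
      rw [foldStep_iter, sz_prod]
      have h3 := sz_drop_le (f x) (i + 1)
      have h4 := hc0 x (i + 1)
      dsimp only
      omega)
  have h5 : (fun x => (f x).foldl (g x) (s x)) =
      fun x => ((foldStep (g x))^[(f x).length] (f x, s x)).2 := by
    funext x
    rw [foldStep_iter, List.take_length]
  rw [h5]
  exact PF.snd hit

/-! ### Lists -/

@[fun_prop] theorem PF.cons {f : α → β} {g : α → List β} (hf : PF f) (hg : PF g) :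
    PF (fun x => f x :: g x) := by
  obtain ⟨F, hF, hF2⟩ := hf
  obtain ⟨G, hG, hG2⟩ := hg
  refine ⟨fun v => .node (F v) (G v), PT.node hF hG, fun a => ?_⟩
  change V.node (F (enc a)) (G (enc a)) = _
  rw [hF2, hG2]
  rfl

@[fun_prop] theorem PF.tail {f : α → List β} (hf : PF f) : PF (fun x => (f x).tail) := by
  refine pf_comp (g := fun l : List β => l.tail) V.tl PT.tl hf fun l => ?_
  cases l <;> rfl

@[fun_prop] theorem PF.headD {f : α → List β} {g : α → β} (hf : PF f) (hg : PF g) :
    PF (fun x => (f x).headD (g x)) := by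
  obtain ⟨F, hF, hF2⟩ := hf
  obtain ⟨G, hG, hG2⟩ := hg
  refine ⟨fun v => V.ifnil (F v) (G v) (V.hd (F v)), PT.ifnil hF hG (PT.comp PT.hd hF),
    fun a => ?_⟩
  change V.ifnil (F (enc a)) (G (enc a)) (V.hd (F (enc a))) = enc ((f a).headD (g a))
  rw [hF2, hG2]
  cases f a <;> rfl

@[fun_prop] theorem PF.isEmpty {f : α → List β} (hf : PF f) : PF (fun x => (f x).isEmpty) := by
  refine pf_comp (g := fun l : List β => l.isEmpty)
    (fun v => V.ifnil v (V.bool true) (V.bool false))
    (PT.ifnil PT.id (PT.const _) (PT.const _)) hf fun l => ?_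
  cases l <;> rfl

private theorem head?_pf {f : α → List β} (hf : PF f) : PF (fun x => (f x).head?) := by
  refine pf_comp (g := fun l : List β => l.head?)
    (fun v => V.ifnil v .nil (.node .nil (V.hd v)))
    (PT.ifnil PT.id (PT.const _) (PT.node (PT.const _) PT.hd)) hf fun l => ?_
  cases l <;> rfl

private theorem foldl_cons (l a : List β) : l.foldl (fun acc b => b :: acc) a = l.reverse ++ a := by
  induction l generalizing a with
  | nil => rfl
  | cons b l ih => rw [List.foldl_cons, ih]; simp

@[fun_prop] theorem PF.reverse {f : α → List β} (hf : PF f) : PF (fun x => (f x).reverse) := by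
  have h := PF.foldl (g := fun _ acc b => b :: acc) (s := fun _ : α => ([] : List β)) hf
    (by fun_prop) (by fun_prop) (by
      obtain ⟨c, hc⟩ := bd_sz hf
      refine ⟨c, fun x i => le_trans ?_ (hc x)⟩
      rw [foldl_cons, List.append_nil, sz_reverse]
      exact sz_take_le _ _)
  simpa only [foldl_cons, List.append_nil] using h

@[fun_prop] theorem PF.append {f g : α → List β} (hf : PF f) (hg : PF g) :
    PF (fun x => f x ++ g x) := by
  have h := PF.foldl (f := fun x => (f x).reverse) (g := fun _ acc b => b :: acc) (s := g)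
    (by fun_prop) (by fun_prop) hg (by
      obtain ⟨c, hc⟩ := bd_add (bd_sz hf) (bd_sz hg)
      refine ⟨c, fun x i => le_trans ?_ (hc x)⟩
      rw [foldl_cons]
      have h1 := sz_append (((f x).reverse.take i).reverse) (g x)
      have h2 := sz_take_le (f x).reverse i
      rw [sz_reverse] at h1 h2
      dsimp only
      omega)
  simpa only [foldl_cons, List.reverse_reverse] using h

/-- One step of `take` and `drop`. -/
private theorem step_iter (i : ℕ) (l a : List β) :
    (foldStep (fun acc b => b :: acc))^[i] (l, a) = (l.drop i, (l.take i).reverse ++ a) := by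
  rw [foldStep_iter, foldl_cons]

private theorem pf_step {n : α → ℕ} {f : α → List β} (hn : PF n) (hf : PF f) :
    PF (fun x => (foldStep (fun acc b => b :: acc))^[n x] (f x, ([] : List β))) := by
  have hstep : PF (fun p : α × (List β × List β) =>
      foldStep (fun (acc : List β) b => b :: acc) p.2) := by
    have h1 : PF (fun r : (α × (List β × List β)) × (β × List β) =>
        (r.2.2, r.2.1 :: r.1.2.2)) := by fun_prop
    exact PF.optionElim (pf_uncons (by fun_prop)) (by fun_prop) h1
  refine PF.iter (f := fun _ => foldStep fun acc b => b :: acc) hn hstep (by fun_prop) ?_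
  obtain ⟨c, hc⟩ := bd_add (bd_add (bd_sz hf) (bd_sz hf)) (bd_const 1)
  refine ⟨c, fun x i _ => le_trans ?_ (hc x)⟩
  rw [step_iter, List.append_nil, sz_prod, sz_reverse]
  have h3 := sz_drop_le (f x) (i + 1)
  have h4 := sz_take_le (f x) (i + 1)
  dsimp only
  omega

@[fun_prop] theorem PF.take {n : α → ℕ} {f : α → List β} (hn : PF n) (hf : PF f) :
    PF (fun x => (f x).take (n x)) := by
  have h := PF.reverse (PF.snd (pf_step hn hf))
  simpa only [step_iter, List.append_nil, List.reverse_reverse] using h

@[fun_prop] theorem PF.drop {n : α → ℕ} {f : α → List β} (hn : PF n) (hf : PF f) :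
    PF (fun x => (f x).drop (n x)) := by
  have h := PF.fst (pf_step hn hf)
  simpa only [step_iter] using h

@[fun_prop] theorem PF.getD {f : α → List β} {n : α → ℕ} {g : α → β} (hf : PF f) (hn : PF n)
    (hg : PF g) : PF (fun x => (f x).getD (n x) (g x)) := by
  have h : PF (fun x => ((f x).drop (n x)).headD (g x)) := by fun_prop
  have h1 : (fun x => (f x).getD (n x) (g x)) = fun x => ((f x).drop (n x)).headD (g x) := by
    funext x
    rw [List.headD_eq_head?_getD, List.head?_drop, List.getD_eq_getElem?_getD]
  rw [h1]
  exact h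

private theorem iter_range (i : ℕ) :
    (fun l : List ℕ => l ++ [l.length])^[i] [] = List.range i := by
  induction i with
  | zero => rfl
  | succ i ih => rw [Function.iterate_succ_apply', ih, List.length_range, List.range_succ]

private theorem sz_range (n : ℕ) : sz (List.range n) ≤ (n + 1) * (2 * n + 2) := by
  induction n with
  | zero =>
    have h : sz (List.range 0) = 1 := rfl
    rw [h]
    omega
  | succ n ih =>
    rw [List.range_succ]
    have h := sz_append (List.range n) [n]
    rw [sz_cons, sz_nil, sz_nat] at h
    nlinarith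

@[fun_prop] theorem PF.range {n : α → ℕ} (hn : PF n) : PF (fun x => List.range (n x)) := by
  have h := PF.iter (f := fun (_ : α) (l : List ℕ) => l ++ [l.length]) (s := fun _ => []) hn
    (by fun_prop) (by fun_prop) (by
      have h1 : Bd (fun x => Pool.Agent.PF.sz (n x)) := bd_sz hn
      obtain ⟨c, hc⟩ := bd_mul (bd_add h1 (bd_const 1)) (bd_add h1 (bd_const 2))
      refine ⟨c, fun x i hi => le_trans ?_ (hc x)⟩
      rw [iter_range]
      refine (sz_range _).trans (Nat.mul_le_mul ?_ ?_)
      · rw [sz_nat]
        omega
      · rw [sz_nat]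
        omega)
  simpa only [iter_range] using h

private theorem foldl_map_cons (g : β → γ) (l : List β) (a : List γ) :
    l.foldl (fun acc b => g b :: acc) a = (l.map g).reverse ++ a := by
  induction l generalizing a with
  | nil => rfl
  | cons b l ih => rw [List.foldl_cons, ih]; simp

private theorem sz_map_le {g : β → γ} {M : ℕ} (l : List β) (h : ∀ b ∈ l, sz (g b) ≤ M) :
    sz (l.map g) ≤ l.length * (M + 1) + 1 := by
  induction l with
  | nil => simp
  | cons b l ih =>
    rw [List.map_cons, sz_cons, List.length_cons]
    have h1 := ih fun c hc => h c (List.mem_cons_of_mem _ hc)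
    have h2 := h b List.mem_cons_self
    nlinarith

private theorem sz_mem_le {l : List β} {b : β} (h : b ∈ l) : sz b ≤ sz l := by
  induction l with
  | nil => exact absurd h List.not_mem_nil
  | cons c l ih =>
    rw [sz_cons]
    rcases List.mem_cons.1 h with rfl | h
    · omega
    · have := ih h
      omega

/-- The sizes of the values on the elements of the list are polynomially bounded. -/
private theorem bd_elem {f : α → List β} {g : α → β → γ} (hf : PF f)
    (hg : PF (fun p : α × β => g p.1 p.2)) :
    ∃ M : α → ℕ, Bd M ∧ ∀ x, ∀ b ∈ f x, sz (g x b) ≤ M x := by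
  obtain ⟨c, hc⟩ := PF.size_le hg
  refine ⟨fun x => (sz x + sz (f x) + 3) ^ c,
    bd_pow (bd_add (bd_add bd_self (bd_sz hf)) (bd_const 3)) c, fun x b hb => ?_⟩
  refine (hc (x, b)).trans (Nat.pow_le_pow_left ?_ c)
  rw [sz_prod]
  have := sz_mem_le hb
  omega

@[fun_prop] theorem PF.map {f : α → List β} {g : α → β → γ} (hf : PF f)
    (hg : PF (fun p : α × β => g p.1 p.2)) : PF (fun x => (f x).map (g x)) := by
  have h := PF.foldl (g := fun x acc b => g x b :: acc) (s := fun _ : α => ([] : List γ)) hf
    (PF.cons (PF.comp' (f := fun p : (α × List γ) × β => (p.1.1, p.2)) hg (by fun_prop))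
      (by fun_prop)) (by fun_prop) (by
      obtain ⟨M, hM, hM2⟩ := bd_elem hf hg
      obtain ⟨c, hc⟩ := bd_add (bd_mul (bd_sz hf) (bd_add hM (bd_const 1))) (bd_const 1)
      refine ⟨c, fun x i => le_trans ?_ (hc x)⟩
      rw [foldl_map_cons, List.append_nil, sz_reverse]
      refine (sz_map_le _ fun b hb => hM2 x b (List.mem_of_mem_take hb)).trans ?_
      have h1 : ((f x).take i).length ≤ Pool.Agent.PF.sz (f x) :=
        (length_le_sz _).trans (sz_take_le _ _)
      have h2 := Nat.mul_le_mul_right (M x + 1) h1
      dsimp only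
      omega)
  have h1 := PF.reverse h
  simpa only [foldl_map_cons, List.append_nil, List.reverse_reverse] using h1

@[fun_prop] theorem PF.tab {n : α → ℕ} {g : α → ℕ → β} (hn : PF n)
    (hg : PF (fun p : α × ℕ => g p.1 p.2)) : PF (fun x => tab (n x) (g x)) :=
  PF.map (PF.range hn) hg

private theorem foldl_filter_cons (g : β → Bool) (l a : List β) :
    l.foldl (fun acc b => if g b = true then b :: acc else acc) a =
      (l.filter g).reverse ++ a := by
  induction l generalizing a with
  | nil => rfl
  | cons b l ih =>
    rw [List.foldl_cons, ih, List.filter_cons]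
    split_ifs with h
    · simp
    · rfl

private theorem sz_filter_le (g : β → Bool) (l : List β) : sz (l.filter g) ≤ sz l := by
  induction l with
  | nil => simp
  | cons b l ih =>
    rw [List.filter_cons]
    split_ifs with h
    · rw [sz_cons, sz_cons]
      omega
    · rw [sz_cons]
      omega

@[fun_prop] theorem PF.filter {f : α → List β} {g : α → β → Bool} (hf : PF f)
    (hg : PF (fun p : α × β => g p.1 p.2)) : PF (fun x => (f x).filter (g x)) := by
  have h := PF.foldl (g := fun x acc b => if g x b = true then b :: acc else acc)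
    (s := fun _ : α => ([] : List β)) hf
    (PF.cond (PF.comp' (f := fun p : (α × List β) × β => (p.1.1, p.2)) hg (by fun_prop))
      (by fun_prop) (by fun_prop)) (by fun_prop) (by
      obtain ⟨c, hc⟩ := bd_sz hf
      refine ⟨c, fun x i => le_trans ?_ (hc x)⟩
      rw [foldl_filter_cons, List.append_nil, sz_reverse]
      exact (sz_filter_le _ _).trans (sz_take_le _ _))
  have h1 := PF.reverse h
  simpa only [foldl_filter_cons, List.append_nil, List.reverse_reverse] using h1

@[fun_prop] theorem PF.find {f : α → List β} {g : α → β → Bool} (hf : PF f)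
    (hg : PF (fun p : α × β => g p.1 p.2)) : PF (fun x => (f x).find? (g x)) := by
  have h := head?_pf (PF.filter hf hg)
  simpa only [List.head?_filter] using h

@[fun_prop] theorem PF.any {f : α → List β} {g : α → β → Bool} (hf : PF f)
    (hg : PF (fun p : α × β => g p.1 p.2)) : PF (fun x => (f x).any (g x)) := by
  have h := PF.isSome (PF.find hf hg)
  have h1 : (fun x => (f x).any (g x)) = fun x => ((f x).find? (g x)).isSome := by
    funext x
    rw [Bool.eq_iff_iff, List.any_eq_true, List.find?_isSome]
  rw [h1]
  exact h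

@[fun_prop] theorem PF.all {f : α → List β} {g : α → β → Bool} (hf : PF f)
    (hg : PF (fun p : α × β => g p.1 p.2)) : PF (fun x => (f x).all (g x)) := by
  have h := PF.not (PF.any (g := fun x b => !(g x b)) hf (PF.not hg))
  have h1 : (fun x => (f x).all (g x)) = fun x => !((f x).any fun b => !(g x b)) := by
    funext x
    rw [List.not_any_eq_all_not]
    simp
  rw [h1]
  exact h

private theorem foldl_append (l : List (List β)) (a : List β) :
    l.foldl (fun acc b => acc ++ b) a = a ++ l.flatten := by
  induction l generalizing a with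
  | nil => simp
  | cons b l ih => rw [List.foldl_cons, ih]; simp

private theorem sz_flatten_le (l : List (List β)) : sz l.flatten ≤ sz l := by
  induction l with
  | nil => rfl
  | cons b l ih =>
    rw [List.flatten_cons, sz_cons]
    have := sz_append b l.flatten
    omega

@[fun_prop] theorem PF.flatten {f : α → List (List β)} (hf : PF f) :
    PF (fun x => (f x).flatten) := by
  have h := PF.foldl (g := fun _ acc b => acc ++ b) (s := fun _ : α => ([] : List β)) hf
    (by fun_prop) (by fun_prop) (by
      obtain ⟨c, hc⟩ := bd_sz hf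
      refine ⟨c, fun x i => le_trans ?_ (hc x)⟩
      rw [foldl_append, List.nil_append]
      exact (sz_flatten_le _).trans (sz_take_le _ _))
  simpa only [foldl_append, List.nil_append] using h

private theorem sz_sum_le (l : List ℕ) : sz l.sum ≤ sz l := by
  induction l with
  | nil => rfl
  | cons b l ih =>
    rw [List.sum_cons, sz_nat, sz_cons, sz_nat]
    rw [sz_nat] at ih
    omega

@[fun_prop] theorem PF.sumN {f : α → List ℕ} (hf : PF f) : PF (fun x => (f x).sum) := by
  have h := PF.foldl (g := fun _ acc b => acc + b) (s := fun _ : α => 0) hf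
    (by fun_prop) (by fun_prop) (by
      obtain ⟨c, hc⟩ := bd_sz hf
      refine ⟨c, fun x i => le_trans ?_ (hc x)⟩
      rw [← List.sum_eq_foldl]
      exact (sz_sum_le _).trans (sz_take_le _ _))
  simpa only [← List.sum_eq_foldl] using h

end Pool.Agent.PF
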