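import Pool.Agent.PF.MachDefs
import Pool.Agent.PT.ToTM2

/-!
# From structured programs to Turing machines, with a general time bound
-/

set_option autoImplicit false

namespace Pool.Agent.PF

open Pool.Agent.PT Function Turing Computability

set_option backward.isDefEq.respectTransparency false in
/-- The analogue of `polyTime_of_prog` for a general time bound. -/
theorem outputs_of_prog {A : Type} [Fintype A] {α β Γ₀ Γ₁ : Type} [Fintype Γ₀] (ea : α → List Γ₀)
    (eb : β → List Γ₁) (f : α → β) (p : Prog A) (g : Γ₀ → A) (d : A → Γ₁) (a₀ : A)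
    (out : α → List A) (hout : ∀ x, (out x).map d = eb (f x)) (T : α → ℕ)
    (h : ∀ x, Runs p (single 0 ((ea x).map g)) (single 1 (out x)) (T x)) :
    ∃ (tm : FinTM2) (e₀ : tm.Γ tm.k₀ ≃ Γ₀) (e₁ : tm.Γ tm.k₁ ≃ Γ₁) (C : ℕ), ∀ x,
      Nonempty (TM2OutputsInTime tm ((ea x).map e₀.symm) (some ((eb (f x)).map e₁.symm))
        (C * ((ea x).length + (out x).length + T x + 1))) := by
  obtain ⟨n, hn⟩ := p.exists_bdd
  set N := n + 3 with hN
  set p' : Prog A := Prog.seq (mv 1 0) (Prog.seq p (mv 1 2)) with hp'
  have hb : p'.Bdd (N + 2) := by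
    refine ⟨⟨by omega, fun a => ?_⟩, hn.mono (by omega), ⟨by omega, fun a => ?_⟩⟩
    · change 0 < N + 2; omega
    · change 2 < N + 2; omega
  have hrun : ∀ x, Runs p' (single 1 ((ea x).map g).reverse) (single 2 (out x).reverse)
      ((2 * (ea x).length + 1) + (T x + (2 * (out x).length + 1))) := by
    intro x
    have h1 := runs_mv 1 0 (by decide) ((ea x).map g).reverse
      (single 1 ((ea x).map g).reverse) (by simp [single])
    have h2 := h x
    have h3 := runs_mv 1 2 (by decide) (out x) (single 1 (out x)) (by simp [single])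
    have e1 : single 0 ((ea x).map g) = update (update (single 1 ((ea x).map g).reverse) 1 []) 0
        (((ea x).map g).reverse.reverse ++ (single 1 ((ea x).map g).reverse) 0) := by
      funext i
      by_cases hi : i = 0
      · subst hi; simp [single]
      · by_cases hi1 : i = 1
        · subst hi1; simp [single]
        · simp [single, hi]
    have e2 : single 2 (out x).reverse = update (update (single 1 (out x)) 1 []) 2
        ((out x).reverse ++ (single 1 (out x)) 2) := by
      funext i
      by_cases hi : i = 2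
      · subst hi; simp [single]
      · by_cases hi1 : i = 1
        · subst hi1; simp [single]
        · simp [single, hi]
    exact (h1.conv (s'' := single 0 ((ea x).map g)) (T' := 2 * (ea x).length + 1) e1
      (by simp)).seq (h2.seq (h3.conv e2 le_rfl))
  have hsteps : ∀ x, ∃ m ≤ 4 * ((ea x).length + (out x).length + T x + 1),
      (flip bind (mach N p' g d a₀).step)^[m] (some (initList (mach N p' g d a₀) (ea x))) =
      some (haltList (mach N p' g d a₀) (eb (f x))) := by
    intro x
    rw [initList_mach, haltList_mach]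
    obtain ⟨t, ht, hex⟩ := hrun x
    obtain ⟨v1, h1⟩ := phase1 (N := N) p' g d a₀ (by omega) (ea x) none (fun _ => [])
    have e1 : update (fun _ => []) 1 (((ea x).map g).reverse ++ (fun _ => [] : Store A) 1) =
      single 1 ((ea x).map g).reverse := by simp [single]
    rw [e1] at h1
    obtain ⟨v2, h2⟩ := sim (N := N) (Γ₀ := Γ₀) (Γ₁ := Γ₁) hex hb (mcode p' g d a₀)
      (fun l => some (some l)) (some none) (fun l => rfl) v1 [] []
    have h3 := phase3 (N := N) p' g d a₀ (by omega) (out x).reverse [] v2
      (single 2 (out x).reverse) (by simp [single])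
    have e3 : (stk (update (single 2 (out x).reverse) 2 []) [] (((out x).reverse.map d).reverse ++ [])
      : ∀ k : SK N, List (SΓ A Γ₀ Γ₁ N k)) = stk (fun _ => []) [] (eb (f x)) := by
      rw [← hout x]
      congr 1
      · simp [single]
      · simp
    rw [e3] at h3
    refine ⟨_, ?_, RN.trans h1 (RN.trans h2 h3)⟩
    simp only [List.length_reverse]
    omega
  choose m hm hsteps using hsteps
  refine ⟨mach N p' g d a₀, Equiv.refl _, Equiv.refl _, 4, fun x => ⟨?_⟩⟩
  refine ⟨⟨m x, ?_⟩, ?_⟩
  · have h := hsteps x
    have e1 : List.map (Equiv.refl ((mach N p' g d a₀).Γ (mach N p' g d a₀).k₀)).symm (ea x)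
        = ea x := by
      simp
    have e2 : List.map (Equiv.refl ((mach N p' g d a₀).Γ (mach N p' g d a₀).k₁)).symm
        (eb (f x)) = eb (f x) := by
      simp
    erw [e2, e1]
    exact h
  · exact hm x

/-- A decision procedure given by a function on trees. -/
theorem decider_of_runsBy {α : Type} (inp : α → V) (ans : α → Bool) {F : V → V} {τ : V → ℕ}
    (hF : RunsBy F τ) (hans : ∀ x, F (inp x) = V.bool (ans x)) :
    ∃ (tm : FinTM2) (e₀ : tm.Γ tm.k₀ ≃ Bool) (e₁ : tm.Γ tm.k₁ ≃ Bool) (C : ℕ), ∀ x,
      Nonempty (TM2OutputsInTime tm ((inp x).code.map e₀.symm) (some ([ans x].map e₁.symm))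
        (C * ((inp x).size + τ (inp x) + 1))) := by
  obtain ⟨p, hp⟩ := hF
  set P : Prog Bool := Prog.seq (p 0) (Prog.pop 0 Prog.skip (fun a => Prog.seq (Prog.push 1 a)
    (clear 0))) with hP
  have hrun : ∀ x, Runs P (single 0 ((inp x).code.map id)) (single 1 [ans x])
      (τ (inp x) + 7) := by
    intro x
    have h1 := hp 0 (single 0 ((inp x).code.map id)) (inp x) [] (by simp [single])
      (fun i hi => by
        have : i ≠ 0 := by omega
        simp [single, this])
    rw [hans x] at h1
    set s1 : Store Bool := update (single 0 ((inp x).code.map id)) 0 ((V.bool (ans x)).code ++ [])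
      with hs1
    have hs1' : s1 = single 0 (V.bool (ans x)).code := by
      rw [hs1]
      simp [single]
    have h2 : ∃ l : List Bool, l.length ≤ 2 ∧ s1 0 = ans x :: l := by
      rw [hs1']
      cases ans x
      · exact ⟨[], by simp, by simp [single, V.bool, V.code]⟩
      · exact ⟨[false, false], by simp, by simp [single, V.bool, V.code]⟩
    obtain ⟨l, hl, hs1l⟩ := h2
    have h3 := Runs.push 1 (ans x) (update s1 0 l)
    have h4 := runs_clear 0 l (update (update s1 0 l) 1 (ans x :: (update s1 0 l) 1)) (by simp)
    have h5 := Runs.popCons (p₀ := Prog.skip) (p₁ := fun a => Prog.seq (Prog.push 1 a)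
      (clear 0)) hs1l (h3.seq h4)
    refine (h1.seq h5).conv ?_ (by omega)
    funext i
    by_cases hi : i = 0
    · subst hi; simp [single]
    · by_cases hi1 : i = 1
      · subst hi1; simp [single, hs1']
      · simp [single, hs1', hi, hi1]
  obtain ⟨tm, e₀, e₁, C, hC⟩ := outputs_of_prog (fun x => (inp x).code) (fun b : Bool => [b]) ans P
    id id false (fun x => [ans x]) (fun x => by simp) (fun x => τ (inp x) + 7) hrun
  refine ⟨tm, e₀, e₁, 9 * C, fun x => ?_⟩
  obtain ⟨h⟩ := hC x
  refine ⟨⟨h.1, h.2.trans ?_⟩⟩
  rw [V.code_length, mul_comm 9 C, mul_assoc]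
  apply Nat.mul_le_mul_left
  simp only [List.length_cons, List.length_nil]
  omega

end Pool.Agent.PF
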