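import Pool.Agent.PF.List

/-!
# Polynomial time functions: natural numbers coded in binary (addition, comparison)
-/

set_option autoImplicit false

namespace Pool.Agent.PF

/-- Natural numbers coded in binary. -/
@[ext] structure Bin where
  /-- the value -/
  val : ℕ

theorem foldr_bits (n : ℕ) : (n.bits).foldr (fun b n => Nat.bit b n) 0 = n := by
  induction n using Nat.binaryRec' with
  | zero => simp
  | bit b n hn ih => rw [Nat.bits_append_bit _ _ hn, List.foldr_cons, ih]

theorem bits_inj : Function.Injective Nat.bits := fun a b h => by
  rw [← foldr_bits a, ← foldr_bits b, h]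

instance : VEnc Bin := ⟨fun n => enc n.val.bits, fun a b h => Bin.ext (bits_inj (enc_inj h))⟩

variable {α β γ : Type} [VEnc α] [VEnc β] [VEnc γ]

/-! ### The value of a list of bits -/

private def bv (l : List Bool) : ℕ := l.foldr (fun b n => Nat.bit b n) 0

private theorem bv_nil : bv [] = 0 := rfl

private theorem bv_cons (b : Bool) (l : List Bool) : bv (b :: l) = b.toNat + 2 * bv l := by
  show Nat.bit b (bv l) = _
  rw [Nat.bit_val, add_comm]

private theorem bv_bits (n : ℕ) : bv n.bits = n := foldr_bits n

private theorem bv_append (l m : List Bool) : bv (l ++ m) = bv l + 2 ^ l.length * bv m := by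
  induction l with
  | nil => simp [bv_nil]
  | cons b l ih =>
    rw [List.cons_append, bv_cons, bv_cons, ih, List.length_cons, pow_succ]
    ring

private theorem bv_lt (l : List Bool) : bv l < 2 ^ l.length := by
  induction l with
  | nil => simp [bv_nil]
  | cons b l ih =>
    rw [bv_cons, List.length_cons, pow_succ]
    have : b.toNat ≤ 1 := Bool.toNat_le b
    omega

private theorem bv_split (l : List Bool) : bv l = (l.headD false).toNat + 2 * bv l.tail := by
  cases l with
  | nil => rfl
  | cons b l => exact bv_cons b l

private theorem bv_replicate (n : ℕ) : bv (tab n (fun _ => false)) = 0 := by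
  unfold tab
  have : ∀ l : List ℕ, bv (l.map fun _ => false) = 0 := by
    intro l
    induction l with
    | nil => rfl
    | cons a l ih => rw [List.map_cons, bv_cons, ih]; rfl
  exact this _

private theorem pf_of_eq {f g : α → β} (h : PF f) (e : ∀ x, f x = g x) : PF g := by
  have : f = g := funext e
  rw [← this]
  exact h

/-! ### Iteration with bounded states -/

private theorem pf_iter {n B : α → ℕ} {f : α → β → β} {s : α → β} (hB : PF B) (hn : PF n)
    (hf : PF (fun p : α × β => f p.1 p.2)) (hs : PF s)
    (hbd : ∀ x, ∀ i < n x, sz ((f x)^[i + 1] (s x)) ≤ B x) :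
    PF (fun x => (f x)^[n x] (s x)) :=
  pf_of_eq (PF.bIter hB hn hf hs) fun x => bIter_eq (hbd x)

private theorem sz_drop_le (l : List Bool) (n : ℕ) : sz (l.drop n) ≤ sz l := by
  induction n generalizing l with
  | zero => simp
  | succ n ih =>
    cases l with
    | nil => simp
    | cons b l =>
      rw [List.drop_succ_cons, sz_cons]
      have := ih l
      omega

private theorem sz_list_le (l : List Bool) : sz l ≤ 4 * l.length + 1 := by
  induction l with
  | nil => simp
  | cons b l ih =>
    rw [sz_cons, List.length_cons]
    have := sz_bool_le b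
    omega

/-! ### Normalisation -/

private def nstep (acc : List Bool) (b : Bool) : List Bool :=
  if (acc.isEmpty && !b) = true then [] else b :: acc

private def nst (p : List Bool × List Bool) : List Bool × List Bool :=
  (p.1.tail, nstep p.2 (p.1.headD false))

private theorem nst_iter (r : List Bool) (acc : List Bool) :
    nst^[r.length] (r, acc) = ([], r.foldl nstep acc) := by
  induction r generalizing acc with
  | nil => rfl
  | cons b r ih => rw [List.length_cons, Function.iterate_succ_apply]; exact ih _

private theorem nst_fst (n : ℕ) (p : List Bool × List Bool) : (nst^[n] p).1 = p.1.drop n := by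
  induction n generalizing p with
  | zero => rfl
  | succ n ih =>
    rw [Function.iterate_succ_apply, ih]
    simp [nst]

private theorem nst_snd (n : ℕ) (p : List Bool × List Bool) :
    (nst^[n] p).2.length ≤ p.2.length + n := by
  induction n generalizing p with
  | zero => simp
  | succ n ih =>
    rw [Function.iterate_succ_apply]
    refine (ih _).trans ?_
    simp only [nst, nstep]
    split_ifs <;> simp only [List.length_nil, List.length_cons] <;> omega

private theorem norm_eq (l : List Bool) : l.reverse.foldl nstep [] = (bv l).bits := by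
  rw [List.foldl_reverse]
  induction l with
  | nil => simp [bv_nil]
  | cons b l ih =>
    rw [List.foldr_cons, ih]
    show nstep (bv l).bits b = (Nat.bit b (bv l)).bits
    unfold nstep
    by_cases h : bv l = 0 ∧ b = false
    · rw [h.1, h.2]
      simp
    · rw [Nat.bits_append_bit _ _ (fun h1 => by
        by_contra h2
        exact h ⟨h1, by simpa using h2⟩), if_neg]
      intro h1
      rw [Bool.and_eq_true] at h1
      apply h
      refine ⟨?_, by simpa using h1.2⟩
      have h2 : (bv l).bits = [] := by simpa using h1.1
      rw [← bv_bits (bv l), h2]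
      rfl

theorem PF.bitsB {f : α → Bin} (hf : PF f) : PF (fun x => (f x).val.bits) := by
  obtain ⟨F, hF, h⟩ := hf
  exact ⟨F, hF, fun a => h a⟩

private theorem pf_norm {f : α → List Bool} (hf : PF f) : PF (fun x => (bv (f x)).bits) := by
  have h1 : PF (fun x => nst^[(f x).length] ((f x).reverse, ([] : List Bool))) := by
    refine pf_iter (B := fun x => sz (f x).reverse + 4 * (f x).length + 2) (f := fun _ => nst)
      (by fun_prop) (by fun_prop) ?_ (by fun_prop) ?_
    · have h2 : PF (fun p : α × (List Bool × List Bool) => (p.2.1.tail,
          if (p.2.2.isEmpty && !(p.2.1.headD false)) = true then []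
            else (p.2.1.headD false) :: p.2.2)) := by
        refine PF.prodMk (by fun_prop) (PF.cond (by fun_prop) (by fun_prop) (by fun_prop))
      exact h2
    · intro x i hi
      have h3 := nst_fst (i + 1) ((f x).reverse, ([] : List Bool))
      have h4 := nst_snd (i + 1) ((f x).reverse, ([] : List Bool))
      have h5 := sz_list_le (nst^[i + 1] ((f x).reverse, ([] : List Bool))).2
      have h6 := sz_drop_le (f x).reverse (i + 1)
      have h7 : sz (nst^[i + 1] ((f x).reverse, ([] : List Bool))) =
          sz (nst^[i + 1] ((f x).reverse, ([] : List Bool))).1 +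
            sz (nst^[i + 1] ((f x).reverse, ([] : List Bool))).2 + 1 := rfl
      rw [h3] at h7
      simp only [List.length_nil, zero_add] at h4
      simp only at h7 h6
      rw [h7]
      omega
  refine pf_of_eq (PF.snd h1) fun x => ?_
  have h2 := nst_iter (f x).reverse []
  rw [List.length_reverse] at h2
  rw [h2]
  exact norm_eq _

private theorem pf_mk {f : α → List Bool} (hf : PF f) : PF (fun x => Bin.mk (bv (f x))) := by
  obtain ⟨F, hF, h⟩ := pf_norm hf
  exact ⟨F, hF, fun a => h a⟩

/-- From a list of bits (least significant bit first, superfluous zeros at the end allowed). -/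
theorem PF.ofBitsB {f : α → List Bool} (hf : PF f) :
    PF (fun x => Bin.mk ((f x).foldr (fun b n => Nat.bit b n) 0)) := pf_mk hf

@[fun_prop] theorem PF.lenB {f : α → Bin} (hf : PF f) : PF (fun x => (f x).val.bits.length) :=
  PF.length (PF.bitsB hf)

/-! ### Serial machines for two lists of bits -/

private abbrev St : Type := (List Bool × List Bool) × (Bool × List Bool)

private def step (k o : Bool → Bool → Bool → Bool) (p : St) : St :=
  ((p.1.1.tail, p.1.2.tail),
    (k (p.1.1.headD false) (p.1.2.headD false) p.2.1,
      o (p.1.1.headD false) (p.1.2.headD false) p.2.1 :: p.2.2))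

private theorem step_fst (k o : Bool → Bool → Bool → Bool) (n : ℕ) (p : St) :
    ((step k o)^[n] p).1 = (p.1.1.drop n, p.1.2.drop n) := by
  induction n generalizing p with
  | zero => rfl
  | succ n ih =>
    rw [Function.iterate_succ_apply, ih]
    simp [step]

private theorem step_len (k o : Bool → Bool → Bool → Bool) (n : ℕ) (p : St) :
    ((step k o)^[n] p).2.2.length = p.2.2.length + n := by
  induction n generalizing p with
  | zero => rfl
  | succ n ih =>
    rw [Function.iterate_succ_apply, ih]
    simp only [step, List.length_cons]
    omega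

private def run (k o : Bool → Bool → Bool → Bool) (a b : List Bool) : Bool × List Bool :=
  ((step k o)^[a.length + b.length] ((a, b), (false, []))).2

private theorem pf_run {k o : Bool → Bool → Bool → Bool}
    (hk : PF (fun q : Bool × (Bool × Bool) => k q.1 q.2.1 q.2.2))
    (ho : PF (fun q : Bool × (Bool × Bool) => o q.1 q.2.1 q.2.2))
    {a b : α → List Bool} (ha : PF a) (hb : PF b) : PF (fun x => run k o (a x) (b x)) := by
  have h1 : PF (fun x => (step k o)^[(a x).length + (b x).length]
      (((a x, b x), ((false, []) : Bool × List Bool)) : St)) := by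
    refine pf_iter (B := fun x => sz (a x) + sz (b x) + 4 * ((a x).length + (b x).length) + 10)
      (f := fun _ => step k o) (by fun_prop) (by fun_prop) ?_ ?_ ?_
    · have hq : PF (fun p : α × St => (p.2.1.1.headD false, (p.2.1.2.headD false, p.2.2.1))) := by
        fun_prop
      have h2 := hk.comp' hq
      have h3 := ho.comp' hq
      exact PF.prodMk (PF.prodMk (by fun_prop) (by fun_prop)) (PF.prodMk h2 (PF.cons h3
        (by fun_prop)))
    · exact PF.prodMk (PF.prodMk ha hb) (PF.const' _)
    · intro x i hi
      set q := (step k o)^[i + 1] (((a x, b x), ((false, []) : Bool × List Bool)) : St) with hq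
      have h2 := step_fst k o (i + 1) (((a x, b x), ((false, []) : Bool × List Bool)) : St)
      have h3 := step_len k o (i + 1) (((a x, b x), ((false, []) : Bool × List Bool)) : St)
      rw [← hq] at h2 h3
      have h4 : sz q = (sz q.1.1 + sz q.1.2 + 1) + (sz q.2.1 + sz q.2.2 + 1) + 1 := rfl
      have h5 := sz_list_le q.2.2
      have h6 := sz_bool_le q.2.1
      have h7 := sz_drop_le (a x) (i + 1)
      have h8 := sz_drop_le (b x) (i + 1)
      have e1 : q.1.1 = (a x).drop (i + 1) := congrArg Prod.fst h2
      have e2 : q.1.2 = (b x).drop (i + 1) := congrArg Prod.snd h2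
      rw [e1, e2] at h4
      simp only [List.length_nil, zero_add] at h3
      rw [h4]
      omega
  exact PF.snd h1

private theorem run_end (k o : Bool → Bool → Bool → Bool) (a b : List Bool) :
    (step k o)^[a.length + b.length] (((a, b), ((false, []) : Bool × List Bool)) : St) =
      (([], []), run k o a b) := by
  refine Prod.ext ?_ rfl
  rw [step_fst]
  simp

/-! ### Addition -/

private def addK (a b c : Bool) : Bool := (a && b) || ((a && c) || (b && c))

private def addO (a b c : Bool) : Bool :=
  (a && ((b && c) || (!b && !c))) || (!a && ((b && !c) || (!b && c)))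

private theorem add_bits (a b c : Bool) :
    (addO a b c).toNat + 2 * (addK a b c).toNat = a.toNat + b.toNat + c.toNat := by
  cases a <;> cases b <;> cases c <;> rfl

private def addV (p : St) : ℕ :=
  bv p.2.2.reverse + 2 ^ p.2.2.length * (bv p.1.1 + bv p.1.2 + p.2.1.toNat)

private theorem addV_step (p : St) : addV (step addK addO p) = addV p := by
  unfold addV
  rw [bv_split p.1.1, bv_split p.1.2]
  simp only [step, List.reverse_cons, List.length_cons, bv_append, List.length_reverse, bv_cons,
    bv_nil]
  have h := add_bits (p.1.1.headD false) (p.1.2.headD false) p.2.1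
  have h2 : (p.1.1.headD false).toNat + 2 * bv p.1.1.tail +
      ((p.1.2.headD false).toNat + 2 * bv p.1.2.tail) + p.2.1.toNat =
      (addO (p.1.1.headD false) (p.1.2.headD false) p.2.1).toNat +
        2 * (bv p.1.1.tail + bv p.1.2.tail +
          (addK (p.1.1.headD false) (p.1.2.headD false) p.2.1).toNat) := by omega
  rw [h2, pow_succ]
  ring

private theorem addV_iter (n : ℕ) (p : St) : addV ((step addK addO)^[n] p) = addV p := by
  induction n generalizing p with
  | zero => rfl
  | succ n ih => rw [Function.iterate_succ_apply, ih, addV_step]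

private theorem run_add (a b : List Bool) :
    bv ((run addK addO a b).2.reverse ++ [(run addK addO a b).1]) = bv a + bv b := by
  have h := addV_iter (a.length + b.length) (((a, b), ((false, []) : Bool × List Bool)) : St)
  rw [run_end] at h
  unfold addV at h
  simp only [bv_nil, List.reverse_nil, List.length_nil, pow_zero, Bool.toNat_false, zero_add,
    add_zero, one_mul] at h
  rw [bv_append, bv_cons, bv_nil, List.length_reverse]
  linarith

private theorem pf_add {a b : α → List Bool} (ha : PF a) (hb : PF b) :
    PF (fun x => Bin.mk (bv (a x) + bv (b x))) := by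
  have h1 : PF (fun x => run addK addO (a x) (b x)) := by
    refine pf_run ?_ ?_ ha hb
    · unfold addK
      fun_prop
    · unfold addO
      fun_prop
  have h2 : PF (fun x => (run addK addO (a x) (b x)).2.reverse ++ [(run addK addO (a x) (b x)).1]) :=
    PF.append (PF.reverse (PF.snd h1)) (PF.cons (PF.fst h1) (PF.const' _))
  exact pf_of_eq (pf_mk h2) fun x => by rw [run_add]

@[fun_prop] theorem PF.addB {f g : α → Bin} (hf : PF f) (hg : PF g) :
    PF (fun x => Bin.mk ((f x).val + (g x).val)) :=
  pf_of_eq (pf_add (PF.bitsB hf) (PF.bitsB hg)) fun x => by rw [bv_bits, bv_bits]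

/-! ### Subtraction -/

private def subK (a b c : Bool) : Bool := (!a && (b || c)) || (b && c)

private theorem sub_bits (a b c : Bool) :
    (a.toNat : ℤ) - b.toNat - c.toNat = (addO a b c).toNat - 2 * (subK a b c).toNat := by
  cases a <;> cases b <;> cases c <;> rfl

private def subV (p : St) : ℤ :=
  bv p.2.2.reverse + 2 ^ p.2.2.length * ((bv p.1.1 : ℤ) - bv p.1.2 - p.2.1.toNat)

private theorem subV_step (p : St) : subV (step subK addO p) = subV p := by
  unfold subV
  rw [bv_split p.1.1, bv_split p.1.2]
  simp only [step, List.reverse_cons, List.length_cons, bv_append, List.length_reverse, bv_cons,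
    bv_nil]
  have h := sub_bits (p.1.1.headD false) (p.1.2.headD false) p.2.1
  push_cast
  rw [pow_succ]
  linear_combination (-(2 : ℤ) ^ p.2.2.length) * h

private theorem subV_iter (n : ℕ) (p : St) : subV ((step subK addO)^[n] p) = subV p := by
  induction n generalizing p with
  | zero => rfl
  | succ n ih => rw [Function.iterate_succ_apply, ih, subV_step]

private theorem run_sub (a b : List Bool) :
    (bv (run subK addO a b).2.reverse : ℤ) - 2 ^ (run subK addO a b).2.length *
      (run subK addO a b).1.toNat = bv a - bv b := by
  have h := subV_iter (a.length + b.length) (((a, b), ((false, []) : Bool × List Bool)) : St)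
  rw [run_end] at h
  unfold subV at h
  simp only [bv_nil, List.reverse_nil, List.length_nil, pow_zero, Bool.toNat_false,
    one_mul] at h
  push_cast at h
  linarith

private theorem run_sub_lt (a b : List Bool) : (run subK addO a b).1 = decide (bv a < bv b) := by
  have h := run_sub a b
  have h1 := bv_lt (run subK addO a b).2.reverse
  rw [List.length_reverse] at h1
  have h2 : ((bv (run subK addO a b).2.reverse : ℕ) : ℤ) < 2 ^ (run subK addO a b).2.length := by
    exact_mod_cast h1
  cases hc : (run subK addO a b).1 with
  | false =>
    rw [hc] at h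
    symm
    simp only [Bool.toNat_false, Nat.cast_zero, mul_zero, sub_zero] at h
    rw [decide_eq_false_iff_not]
    omega
  | true =>
    rw [hc] at h
    symm
    simp only [Bool.toNat_true, Nat.cast_one, mul_one] at h
    rw [decide_eq_true_iff]
    omega

private theorem run_sub_val (a b : List Bool) :
    (if (run subK addO a b).1 = true then 0 else bv (run subK addO a b).2.reverse) =
      bv a - bv b := by
  have h := run_sub a b
  rw [run_sub_lt] at h ⊢
  by_cases h1 : bv a < bv b
  · rw [if_pos (by simpa using h1)]
    omega
  · have h2 : decide (bv a < bv b) = false := by simpa using h1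
    rw [h2] at h ⊢
    simp only [Bool.toNat_false, Nat.cast_zero, mul_zero, sub_zero] at h
    rw [if_neg (by simp)]
    omega

private theorem pf_subRun {a b : α → List Bool} (ha : PF a) (hb : PF b) :
    PF (fun x => run subK addO (a x) (b x)) := by
  refine pf_run ?_ ?_ ha hb
  · unfold subK
    fun_prop
  · unfold addO
    fun_prop

private theorem pf_lt {a b : α → List Bool} (ha : PF a) (hb : PF b) :
    PF (fun x => decide (bv (a x) < bv (b x))) :=
  pf_of_eq (PF.fst (pf_subRun ha hb)) fun _ => run_sub_lt _ _

@[fun_prop] theorem PF.ltB {f g : α → Bin} (hf : PF f) (hg : PF g) :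
    PF (fun x => decide ((f x).val < (g x).val)) :=
  pf_of_eq (pf_lt (PF.bitsB hf) (PF.bitsB hg)) fun x => by rw [bv_bits, bv_bits]

@[fun_prop] theorem PF.leB {f g : α → Bin} (hf : PF f) (hg : PF g) :
    PF (fun x => decide ((f x).val ≤ (g x).val)) :=
  pf_of_eq (PF.not (PF.ltB hg hf)) fun x => by
    rw [← decide_not]
    exact decide_eq_decide.2 not_lt

@[fun_prop] theorem PF.eqB {f g : α → Bin} (hf : PF f) (hg : PF g) :
    PF (fun x => decide ((f x).val = (g x).val)) :=
  pf_of_eq (PF.and (PF.leB hf hg) (PF.leB hg hf)) fun x => by
    rw [← Bool.decide_and]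
    exact decide_eq_decide.2 (le_antisymm_iff).symm

@[fun_prop] theorem PF.subB {f g : α → Bin} (hf : PF f) (hg : PF g) :
    PF (fun x => Bin.mk ((f x).val - (g x).val)) := by
  have h1 := pf_subRun (PF.bitsB hf) (PF.bitsB hg)
  have h2 := PF.cond (PF.fst h1) (PF.const' (α := α) (Bin.mk 0)) (pf_mk (PF.reverse (PF.snd h1)))
  refine pf_of_eq h2 fun x => ?_
  have h3 := run_sub_val (f x).val.bits (g x).val.bits
  rw [bv_bits, bv_bits] at h3
  rw [← h3]
  split_ifs <;> rfl

/-! ### Conversion -/

private def cst (p : ℕ × List Bool) : ℕ × List Bool := (p.1 / 2, decide (p.1 % 2 = 1) :: p.2)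

private theorem cst_len (n : ℕ) (p : ℕ × List Bool) :
    (cst^[n] p).2.length = p.2.length + n := by
  induction n generalizing p with
  | zero => rfl
  | succ n ih =>
    rw [Function.iterate_succ_apply, ih]
    simp only [cst, List.length_cons]
    omega

private theorem cst_fst (n : ℕ) (p : ℕ × List Bool) : (cst^[n] p).1 = p.1 / 2 ^ n := by
  induction n generalizing p with
  | zero => simp
  | succ n ih =>
    rw [Function.iterate_succ_apply, ih]
    simp only [cst]
    rw [Nat.div_div_eq_div_mul, pow_succ, mul_comm]

private def cstV (p : ℕ × List Bool) : ℕ := bv p.2.reverse + 2 ^ p.2.length * p.1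

private theorem cstV_step (p : ℕ × List Bool) : cstV (cst p) = cstV p := by
  unfold cstV
  simp only [cst, List.reverse_cons, List.length_cons, bv_append, List.length_reverse, bv_cons,
    bv_nil]
  have h : (decide (p.1 % 2 = 1)).toNat + 2 * (p.1 / 2) = p.1 := by
    rcases Nat.mod_two_eq_zero_or_one p.1 with h | h
    · rw [h]
      simp only [zero_ne_one, decide_false, Bool.toNat_false]
      omega
    · rw [h]
      simp only [decide_true, Bool.toNat_true]
      omega
  conv_rhs => rw [← h]
  rw [pow_succ]
  ring

private theorem cstV_iter (n : ℕ) (p : ℕ × List Bool) : cstV (cst^[n] p) = cstV p := by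
  induction n generalizing p with
  | zero => rfl
  | succ n ih => rw [Function.iterate_succ_apply, ih, cstV_step]

/-- From unary to binary. -/
@[fun_prop] theorem PF.ofNatB {f : α → ℕ} (hf : PF f) : PF (fun x => Bin.mk (f x)) := by
  have h1 : PF (fun x => cst^[f x] (f x, ([] : List Bool))) := by
    refine pf_iter (B := fun x => 6 * f x + 4) (f := fun _ => cst)
      (by fun_prop) hf ?_ (PF.prodMk hf (PF.const' _)) ?_
    · have h2 : PF (fun p : α × (ℕ × List Bool) =>
          (p.2.1 / 2, decide (p.2.1 % 2 = 1) :: p.2.2)) := by
        fun_prop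
      exact h2
    · intro x i hi
      set q := cst^[i + 1] (f x, ([] : List Bool)) with hq
      have h3 := cst_fst (i + 1) (f x, ([] : List Bool))
      have h4 := cst_len (i + 1) (f x, ([] : List Bool))
      rw [← hq] at h3 h4
      have h5 := sz_list_le q.2
      have h7 : Pool.Agent.PF.sz q = Pool.Agent.PF.sz q.1 + Pool.Agent.PF.sz q.2 + 1 := rfl
      rw [sz_nat, h3] at h7
      simp only [List.length_nil, zero_add] at h4 h7
      have h8 := Nat.div_le_self (f x) (2 ^ (i + 1))
      rw [h7]
      omega
  refine pf_of_eq (pf_mk (PF.reverse (PF.snd h1))) fun x => ?_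
  have h2 := cstV_iter (f x) (f x, ([] : List Bool))
  unfold cstV at h2
  rw [cst_fst] at h2
  simp only [Nat.div_eq_of_lt Nat.lt_two_pow_self, mul_zero, add_zero, List.reverse_nil, bv_nil,
    List.length_nil, pow_zero, one_mul, zero_add] at h2
  rw [h2]

@[fun_prop] theorem PF.pow2B {f : α → ℕ} (hf : PF f) : PF (fun x => Bin.mk (2 ^ f x)) := by
  have h1 : PF (fun x => Pool.Agent.PF.tab (f x) (fun _ => false) ++ [true]) :=
    PF.append (PF.tab hf (PF.const' _)) (PF.const' _)
  refine pf_of_eq (pf_mk h1) fun x => ?_
  rw [bv_append, bv_replicate]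
  simp [Pool.Agent.PF.tab, bv_cons, bv_nil]

end Pool.Agent.PF
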