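import Pool.Agent.PF.Bin

/-!
# Polynomial time functions: natural numbers coded in binary (multiplication, division)
-/

set_option autoImplicit false

namespace Pool.Agent.PF

variable {α β γ : Type} [VEnc α] [VEnc β] [VEnc γ]

/-- The value of a list of bits, most significant bit first. -/
private def msb (l : List Bool) : ℕ := l.foldl (fun a b => Nat.bit b a) 0

private theorem msb_reverse_bits (n : ℕ) : msb n.bits.reverse = n := by
  unfold msb
  rw [List.foldl_reverse]
  exact foldr_bits n

private theorem msb_take_succ (l : List Bool) {i : ℕ} (hi : i < l.length) :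
    msb (l.take (i + 1)) = Nat.bit ((l.drop i).headD false) (msb (l.take i)) := by
  unfold msb
  rw [List.take_add_one, List.getElem?_eq_getElem hi, Option.toList_some, List.foldl_append,
    List.drop_eq_getElem_cons hi]
  rfl

private theorem msb_lt (l : List Bool) : msb l < 2 ^ l.length := by
  induction l using List.reverseRecOn with
  | nil => simp [msb]
  | append_singleton l b ih =>
    have h : msb (l ++ [b]) = Nat.bit b (msb l) := by
      unfold msb
      rw [List.foldl_append]
      rfl
    rw [h, List.length_append, List.length_singleton, pow_succ, Nat.bit_val]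
    cases b <;> simp <;> omega

private theorem sz_bits_le (l : List Bool) : sz l ≤ 4 * l.length + 1 := by
  induction l with
  | nil => simp
  | cons b l ih =>
    rw [sz_cons, List.length_cons]
    have := sz_bool_le b
    omega

private theorem sz_bin_le (n : Bin) : sz n ≤ 4 * n.val.size + 1 := by
  have h : sz n = sz n.val.bits := rfl
  rw [h]
  refine (sz_bits_le _).trans ?_
  rw [Nat.size_eq_bits_len]

private theorem size_le_of_lt {m k : ℕ} (h : m < 2 ^ k) : m.size ≤ k := Nat.size_le.2 h

/-- One step of the multiplication. -/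
private def mStep (g : Bin) (p : List Bool × Bin) : List Bool × Bin :=
  (p.1.tail, Bin.mk (p.2.val + p.2.val + (if p.1.headD false = true then g else Bin.mk 0).val))

private theorem mStep_iterate (g : Bin) (l : List Bool) (i : ℕ) (hi : i ≤ l.length) :
    (mStep g)^[i] (l, Bin.mk 0) = (l.drop i, Bin.mk (msb (l.take i) * g.val)) := by
  induction i with
  | zero => simp [msb]
  | succ i ih =>
    rw [Function.iterate_succ_apply', ih (by omega), msb_take_succ l (by omega)]
    unfold mStep
    simp only [List.tail_drop, Nat.bit_val, Prod.mk.injEq, Bin.mk.injEq, true_and]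
    cases (l.drop i).headD false <;> simp <;> ring

@[fun_prop] theorem PF.mulB {f g : α → Bin} (hf : PF f) (hg : PF g) :
    PF (fun x => Bin.mk ((f x).val * (g x).val)) := by
  have hbits : PF (fun x => (f x).val.bits) := PF.bitsB hf
  have hstep : PF (fun p : α × (List Bool × Bin) => mStep (g p.1) p.2) := by
    have hg' : PF (fun p : α × (List Bool × Bin) => g p.1) := PF.comp' hg (PF.fst PF.id')
    have h2 : PF (fun p : α × (List Bool × Bin) => p.2.2) := PF.snd (PF.snd PF.id')
    have h1 : PF (fun p : α × (List Bool × Bin) => p.2.1) := PF.fst (PF.snd PF.id')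
    exact PF.prodMk (PF.tail h1) (PF.addB (PF.addB h2 h2)
      (PF.cond (PF.headD h1 (PF.const' false)) hg' (PF.const' (Bin.mk 0))))
  have hB : PF (fun x => 8 * (f x).val.bits.length + 4 * (g x).val.bits.length + 3) :=
    PF.addN (PF.addN (PF.mulN (PF.const' 8) (PF.lenB hf)) (PF.mulN (PF.const' 4) (PF.lenB hg)))
      (PF.const' 3)
  have hmain := PF.snd (PF.bIter (f := fun x s => mStep (g x) s) hB (PF.lenB hf) hstep
    (PF.prodMk (PF.reverse hbits) (PF.const' (Bin.mk 0))))
  refine (?_ : (fun x => (_root_.Pool.Agent.PF.bIter (8 * (f x).val.bits.length + 4 * (g x).val.bits.length + 3)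
    (f x).val.bits.length (mStep (g x)) ((f x).val.bits.reverse, Bin.mk 0)).2) =
      fun x => Bin.mk ((f x).val * (g x).val)) ▸ hmain
  funext x
  rw [bIter_eq]
  · rw [mStep_iterate _ _ _ (by rw [List.length_reverse])]
    change Bin.mk _ = _
    rw [List.take_of_length_le (by rw [List.length_reverse]), msb_reverse_bits]
  · intro i hi
    rw [mStep_iterate _ _ _ (by rw [List.length_reverse]; omega), sz_prod]
    have h1 := sz_bits_le ((f x).val.bits.reverse.drop (i + 1))
    have h2 := sz_bin_le (Bin.mk (msb ((f x).val.bits.reverse.take (i + 1)) * (g x).val))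
    have h3 : (Bin.mk (msb ((f x).val.bits.reverse.take (i + 1)) * (g x).val)).val.size ≤
        (f x).val.bits.length + (g x).val.bits.length := by
      apply size_le_of_lt
      change msb ((f x).val.bits.reverse.take (i + 1)) * (g x).val < _
      have h4 := msb_lt ((f x).val.bits.reverse.take (i + 1))
      have h5 : ((f x).val.bits.reverse.take (i + 1)).length ≤ (f x).val.bits.length := by
        rw [List.length_take, List.length_reverse]
        exact min_le_right _ _
      have h6 : (g x).val < 2 ^ (g x).val.bits.length := by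
        rw [Nat.size_eq_bits_len]
        exact Nat.lt_size_self _
      rw [pow_add]
      have h7 : (2 : ℕ) ^ ((f x).val.bits.reverse.take (i + 1)).length ≤
          2 ^ (f x).val.bits.length := Nat.pow_le_pow_right (by norm_num) h5
      exact Nat.mul_lt_mul_of_lt_of_le (h4.trans_le h7) h6.le (by positivity)
    rw [List.length_drop, List.length_reverse] at h1
    omega

/-- One step of the division. -/
private def dStep (g : Bin) (p : List Bool × (Bin × Bin)) : List Bool × (Bin × Bin) :=
  (p.1.tail,
    if decide (g.val ≤ (p.2.2.val + p.2.2.val + (if p.1.headD false = true then Bin.mk 1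
      else Bin.mk 0).val)) = true then
      (Bin.mk (p.2.1.val + p.2.1.val + (Bin.mk 1).val),
        Bin.mk ((p.2.2.val + p.2.2.val + (if p.1.headD false = true then Bin.mk 1
          else Bin.mk 0).val) - g.val))
    else (Bin.mk (p.2.1.val + p.2.1.val), Bin.mk (p.2.2.val + p.2.2.val +
      (if p.1.headD false = true then Bin.mk 1 else Bin.mk 0).val)))

private theorem dStep_iterate (g : Bin) (hg : 0 < g.val) (l : List Bool) (i : ℕ)
    (hi : i ≤ l.length) :
    (dStep g)^[i] (l, (Bin.mk 0, Bin.mk 0)) =
      (l.drop i, (Bin.mk (msb (l.take i) / g.val), Bin.mk (msb (l.take i) % g.val))) := by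
  induction i with
  | zero => simp [msb]
  | succ i ih =>
    rw [Function.iterate_succ_apply', ih (by omega), msb_take_succ l (by omega)]
    unfold dStep
    simp only [List.tail_drop]
    generalize msb (l.take i) = m
    have hm : m = g.val * (m / g.val) + m % g.val := (Nat.div_add_mod _ _).symm
    have hr : m % g.val < g.val := Nat.mod_lt _ hg
    obtain ⟨c, hc, hc1⟩ : ∃ c : ℕ, (if (l.drop i).headD false = true then Bin.mk 1
        else Bin.mk 0).val = c ∧ Nat.bit ((l.drop i).headD false) m = 2 * m + c ∧ c ≤ 1 := by
      cases (l.drop i).headD false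
      · exact ⟨0, rfl, by simp [Nat.bit_val], by norm_num⟩
      · exact ⟨1, rfl, by simp [Nat.bit_val], le_rfl⟩
    rw [hc, hc1.1]
    have hc2 := hc1.2
    generalize m / g.val = q at *
    generalize m % g.val = r at *
    have key : 2 * m + c = g.val * (q + q) + (r + r + c) := by rw [hm]; ring
    by_cases h : g.val ≤ r + r + c
    · have h1 : 2 * m + c = g.val * (q + q + 1) + (r + r + c - g.val) := by
        rw [key, mul_add g.val (q + q) 1]
        omega
      have h2 : r + r + c - g.val < g.val := by omega
      rw [if_pos (decide_eq_true h), h1, Nat.mul_add_div hg, Nat.div_eq_of_lt h2, Nat.mul_add_mod,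
        Nat.mod_eq_of_lt h2]
    · have h2 : r + r + c < g.val := by omega
      rw [if_neg (by simpa using h), key, Nat.mul_add_div hg, Nat.div_eq_of_lt h2,
        Nat.mul_add_mod, Nat.mod_eq_of_lt h2]
      rfl

@[fun_prop] theorem PF.divB {f g : α → Bin} (hf : PF f) (hg : PF g) :
    PF (fun x => Bin.mk ((f x).val / (g x).val)) := by
  have hbits : PF (fun x => (f x).val.bits) := PF.bitsB hf
  have hstep : PF (fun p : α × (List Bool × (Bin × Bin)) => dStep (g p.1) p.2) := by
    have hg' : PF (fun p : α × (List Bool × (Bin × Bin)) => g p.1) := PF.comp' hg (PF.fst PF.id')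
    have h1 : PF (fun p : α × (List Bool × (Bin × Bin)) => p.2.1) := PF.fst (PF.snd PF.id')
    have hq : PF (fun p : α × (List Bool × (Bin × Bin)) => p.2.2.1) :=
      PF.fst (PF.snd (PF.snd PF.id'))
    have hr : PF (fun p : α × (List Bool × (Bin × Bin)) => p.2.2.2) :=
      PF.snd (PF.snd (PF.snd PF.id'))
    have hc : PF (fun p : α × (List Bool × (Bin × Bin)) =>
        if p.2.1.headD false = true then Bin.mk 1 else Bin.mk 0) :=
      PF.cond (PF.headD h1 (PF.const' false)) (PF.const' (Bin.mk 1)) (PF.const' (Bin.mk 0))
    have hs := PF.addB (PF.addB hr hr) hc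
    exact PF.prodMk (PF.tail h1) (PF.cond (PF.leB hg' hs)
      (PF.prodMk (PF.addB (PF.addB hq hq) (PF.const' (Bin.mk 1))) (PF.subB hs hg'))
      (PF.prodMk (PF.addB hq hq) hs))
  have hB : PF (fun x => 12 * (f x).val.bits.length + 5) :=
    PF.addN (PF.mulN (PF.const' 12) (PF.lenB hf)) (PF.const' 5)
  have hmain := PF.fst (PF.snd (PF.bIter (f := fun x s => dStep (g x) s) hB (PF.lenB hf) hstep
    (PF.prodMk (PF.reverse hbits) (PF.const' (Bin.mk 0, Bin.mk 0)))))
  have hfin := PF.cond (PF.eqB hg (PF.const' (Bin.mk 0))) (PF.const' (Bin.mk 0)) hmain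
  refine (?_ : (fun x => if decide ((g x).val = (Bin.mk 0).val) = true then Bin.mk 0 else
    (_root_.Pool.Agent.PF.bIter (12 * (f x).val.bits.length + 5) (f x).val.bits.length (dStep (g x))
      ((f x).val.bits.reverse, (Bin.mk 0, Bin.mk 0))).2.1) =
      fun x => Bin.mk ((f x).val / (g x).val)) ▸ hfin
  funext x
  by_cases h0 : (g x).val = 0
  · rw [if_pos (decide_eq_true h0), h0, Nat.div_zero]
  have hpos : 0 < (g x).val := Nat.pos_of_ne_zero h0
  rw [if_neg (by simpa using h0), bIter_eq]
  · rw [dStep_iterate _ hpos _ _ (by rw [List.length_reverse])]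
    change Bin.mk _ = _
    rw [List.take_of_length_le (by rw [List.length_reverse]), msb_reverse_bits]
  · intro i hi
    rw [dStep_iterate _ hpos _ _ (by rw [List.length_reverse]; omega), sz_prod, sz_prod]
    have h1 := sz_bits_le ((f x).val.bits.reverse.drop (i + 1))
    have h2 := sz_bin_le (Bin.mk (msb ((f x).val.bits.reverse.take (i + 1)) / (g x).val))
    have h2' := sz_bin_le (Bin.mk (msb ((f x).val.bits.reverse.take (i + 1)) % (g x).val))
    have h4 := msb_lt ((f x).val.bits.reverse.take (i + 1))
    have h5 : ((f x).val.bits.reverse.take (i + 1)).length ≤ (f x).val.bits.length := by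
      rw [List.length_take, List.length_reverse]
      exact min_le_right _ _
    have h7 : (2 : ℕ) ^ ((f x).val.bits.reverse.take (i + 1)).length ≤
        2 ^ (f x).val.bits.length := Nat.pow_le_pow_right (by norm_num) h5
    have h3 : (Bin.mk (msb ((f x).val.bits.reverse.take (i + 1)) / (g x).val)).val.size ≤
        (f x).val.bits.length :=
      size_le_of_lt ((Nat.div_le_self _ _).trans_lt (h4.trans_le h7))
    have h3' : (Bin.mk (msb ((f x).val.bits.reverse.take (i + 1)) % (g x).val)).val.size ≤
        (f x).val.bits.length :=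
      size_le_of_lt ((Nat.mod_le _ _).trans_lt (h4.trans_le h7))
    rw [List.length_drop, List.length_reverse] at h1
    omega

end Pool.Agent.PF
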