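import Pool.Agent.PF.MachDefs

/-!
# Functions on trees computed by structured stack programs: basic closure properties
-/

set_option autoImplicit false

namespace Pool.Agent.PF

open Pool.Agent.PT Function

/-! ### Lengths -/

private theorem exec_length {p : Prog Bool} {s s' : Store Bool} {t : ℕ} (h : Exec p s s' t)
    (r : ℕ) : (s' r).length ≤ (s r).length + t := by
  induction h with
  | skip s => omega
  | push r' a s =>
    by_cases e : r = r'
    · subst e; simp
    · rw [Function.update_of_ne e]; omega
  | popNil h he ih => omega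
  | @popCons r' p₀ p₁ s s' t a l h he ih =>
    by_cases e : r = r'
    · subst e
      simp only [Function.update_self] at ih
      rw [h]
      simp only [List.length_cons]
      omega
    · rw [Function.update_of_ne e] at ih
      omega
  | seq h h' ih ih' => omega
  | loopNil h => omega
  | @loopCons r' p s s' s'' t t' a l h h1 h2 ih ih' =>
    by_cases e : r = r'
    · subst e
      simp only [Function.update_self] at ih
      rw [h]
      simp only [List.length_cons]
      omega
    · rw [Function.update_of_ne e] at ih
      omega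

/-- The size of the value is bounded by the number of steps. -/
theorem RunsBy.size_le {F : V → V} {τ : V → ℕ} (h : RunsBy F τ) (v : V) :
    (F v).size ≤ v.size + τ v := by
  obtain ⟨p, hp⟩ := h
  obtain ⟨t, ht, he⟩ := hp 0 (update (fun _ => []) 0 v.code) v [] (by simp) (fun i hi => by
    rw [Function.update_of_ne (by omega)])
  have h1 := exec_length he 0
  simp only [Function.update_self, List.append_nil, V.code_length] at h1
  omega

theorem RunsBy.comp {F G : V → V} {τ τ' : V → ℕ} (hF : RunsBy F τ) (hG : RunsBy G τ') :
    RunsBy (fun v => F (G v)) fun v => τ' v + τ (G v) + 1 := by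
  obtain ⟨p, hp⟩ := hF
  obtain ⟨q, hq⟩ := hG
  refine ⟨fun b => Prog.seq (q b) (p b), fun b s v rest h1 h2 => ?_⟩
  have g1 := hq b s v rest h1 h2
  have g2 := hp b (update s b ((G v).code ++ rest)) (G v) rest (by simp) (fun i hi => by
    rw [Function.update_of_ne (by omega)]; exact h2 i hi)
  refine (g1.seq g2).conv (by simp) ?_
  beta_reduce
  omega

/-! ### Moving trees -/

/-- The codes of a list of trees. -/
private def codes (l : List V) : List Bool := (l.map V.code).flatten

@[simp] private theorem codes_nil : codes [] = [] := rfl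

private theorem codes_cons (v : V) (l : List V) : codes (v :: l) = v.code ++ codes l := by
  simp [codes]

private theorem codes_node (a b : V) (l : List V) :
    codes (V.node a b :: l) = true :: codes (a :: b :: l) := by
  simp [codes, V.code]

private theorem codes_leaf (l : List V) : codes (V.nil :: l) = false :: codes l := by
  simp [codes, V.code]

/-- The body of the loop of `tk`. -/
private def tkBody (r r' e : ℕ) : Bool → Prog Bool := fun _ =>
  Prog.pop r Prog.skip fun a => Prog.seq (Prog.push r' a)
    (match a with
      | true => Prog.seq (Prog.push e true) (Prog.push e true)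
      | false => Prog.skip)

/-- Move the tree on top of `r` onto `r'` (reversed); `e` is an empty scratch register. -/
private def tk (r r' e : ℕ) : Prog Bool :=
  Prog.seq (Prog.push e true) (Prog.loop e (tkBody r r' e))

private theorem runs_tk_aux (r r' e : ℕ) (h1 : r ≠ r') (h2 : r ≠ e) (h3 : r' ≠ e) :
    ∀ (n : ℕ) (l : List V) (rest : List Bool) (s : Store Bool), (codes l).length = n →
      s r = codes l ++ rest → s e = un true l.length →
      Runs (Prog.loop e (tkBody r r' e)) s
        (update (update (update s e []) r rest) r' ((codes l).reverse ++ s r')) (6 * n + 1)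
  | n, [], rest, s, hn, hr, he => by
    refine (Runs.loopNil he).conv ?_ (by omega)
    funext i
    by_cases e1 : i = r'
    · subst e1; simp
    · by_cases e2 : i = r
      · subst e2; simp [e1, hr]
      · by_cases e3 : i = e
        · subst e3; simp [e1, e2, he]
        · simp [e1, e2, e3]
  | 0, V.nil :: l, rest, s, hn, hr, he => by
    rw [codes_leaf] at hn
    simp at hn
  | 0, V.node a b :: l, rest, s, hn, hr, he => by
    rw [codes_node] at hn
    simp at hn
  | n + 1, V.nil :: l, rest, s, hn, hr, he => by
    rw [codes_leaf] at hn hr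
    set s1 : Store Bool := update s e (un true l.length) with hs1
    set s2 : Store Bool := update s1 r (codes l ++ rest) with hs2
    set s3 : Store Bool := update s2 r' (false :: s2 r') with hs3
    have g0 : Runs (Prog.seq (Prog.push r' false) Prog.skip) s2 s3 (1 + 1) :=
      (Runs.push r' false s2).seq (Runs.skip s3)
    have hs1r : s1 r = false :: (codes l ++ rest) := by
      rw [hs1, Function.update_of_ne h2, hr]; rfl
    have g1 : Runs (tkBody r r' e true) s1 s3 (1 + 1 + 1) :=
      Runs.popCons (p₀ := Prog.skip) hs1r g0
    have g2 := runs_tk_aux r r' e h1 h2 h3 n l rest s3 (by simpa using hn)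
      (by simp [hs3, hs2, h1]) (by simp [hs3, hs2, hs1, h2.symm, h3.symm])
    have g3 := Runs.loopCons (p := tkBody r r' e) (s := s) (r := e) (a := true)
      (l := un true l.length) (by rw [he]; rfl) g1 g2
    refine g3.conv ?_ (by omega)
    funext i
    by_cases e1 : i = r'
    · subst e1; simp [hs3, hs2, hs1, h1.symm, h3, codes_leaf]
    · by_cases e2 : i = r
      · subst e2; simp [e1]
      · by_cases e3 : i = e
        · subst e3; simp [e1, e2]
        · simp [hs3, hs2, hs1, e1, e2, e3]
  | n + 1, V.node a b :: l, rest, s, hn, hr, he => by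
    rw [codes_node] at hn hr
    set s1 : Store Bool := update s e (un true l.length) with hs1
    set s2 : Store Bool := update s1 r (codes (a :: b :: l) ++ rest) with hs2
    set s3 : Store Bool := update s2 r' (true :: s2 r') with hs3
    set s4 : Store Bool := update s3 e (true :: s3 e) with hs4
    set s5 : Store Bool := update s4 e (true :: s4 e) with hs5
    have g0 : Runs (Prog.seq (Prog.push r' true)
        (Prog.seq (Prog.push e true) (Prog.push e true))) s2 s5 (1 + (1 + 1)) :=
      (Runs.push r' true s2).seq ((Runs.push e true s3).seq (Runs.push e true s4))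
    have hs1r : s1 r = true :: (codes (a :: b :: l) ++ rest) := by
      rw [hs1, Function.update_of_ne h2, hr]; rfl
    have g1 : Runs (tkBody r r' e true) s1 s5 (1 + (1 + 1) + 1) :=
      Runs.popCons (p₀ := Prog.skip) hs1r g0
    have g2 := runs_tk_aux r r' e h1 h2 h3 n (a :: b :: l) rest s5 (by simpa using hn)
      (by simp [hs5, hs4, hs3, hs2, h1, h2])
      (by simp [hs5, hs4, hs3, hs2, hs1, h2.symm, h3.symm, un_succ])
    have g3 := Runs.loopCons (p := tkBody r r' e) (s := s) (r := e) (a := true)
      (l := un true l.length) (by rw [he]; rfl) g1 g2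
    refine g3.conv ?_ (by omega)
    funext i
    by_cases e1 : i = r'
    · subst e1
      simp [hs5, hs4, hs3, hs2, hs1, h1.symm, h3, codes_node]
    · by_cases e2 : i = r
      · subst e2; simp [e1]
      · by_cases e3 : i = e
        · subst e3; simp [e1, e2]
        · simp [hs5, hs4, hs3, hs2, hs1, e1, e2, e3]

private theorem runs_tk (r r' e : ℕ) (h1 : r ≠ r') (h2 : r ≠ e) (h3 : r' ≠ e) (v : V)
    (rest : List Bool) (s : Store Bool) (hr : s r = v.code ++ rest) (he : s e = []) :
    Runs (tk r r' e) s (update (update s r rest) r' (v.code.reverse ++ s r'))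
      (6 * v.size + 2) := by
  set s1 : Store Bool := update s e (true :: s e) with hs1
  have g1 : Runs (Prog.push e true) s s1 1 := Runs.push e true s
  have g2 := runs_tk_aux r r' e h1 h2 h3 v.size [v] rest s1
    (by simp [codes, V.code_length]) (by simp [hs1, codes, h2, hr]) (by simp [hs1, he, un_succ])
  refine (g1.seq g2).conv ?_ (by omega)
  funext i
  by_cases e1 : i = r'
  · subst e1; simp [hs1, codes, h3]
  · by_cases e2 : i = r
    · subst e2; simp [e1]
    · by_cases e3 : i = e
      · subst e3; simp [e1, e2, he]
      · simp [hs1, e1, e2, e3]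

/-- Remove the tree on top of `b`. -/
private def drop (b : ℕ) : Prog Bool := Prog.seq (tk b (b + 1) (b + 2)) (clear (b + 1))

private theorem runs_drop (b : ℕ) (v : V) (rest : List Bool) (s : Store Bool)
    (hb : s b = v.code ++ rest) (h : ∀ i, b < i → s i = []) :
    Runs (drop b) s (update s b rest) (8 * v.size + 3) := by
  have g1 := runs_tk b (b + 1) (b + 2) (by omega) (by omega) (by omega) v rest s hb
    (h _ (by omega))
  set s1 : Store Bool := update (update s b rest) (b + 1) (v.code.reverse ++ s (b + 1)) with hs1
  have g2 := runs_clear (b + 1) v.code.reverse s1 (by simp [hs1, h (b + 1) (by omega)])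
  refine (g1.seq g2).conv ?_ (by simp only [List.length_reverse, V.code_length]; omega)
  funext i
  by_cases e1 : i = b + 1
  · subst e1; simp [h (b + 1) (by omega)]
  · simp [hs1, e1]

/-- Duplicate the tree on top of `b`. -/
private def dup (b : ℕ) : Prog Bool :=
  Prog.seq (tk b (b + 1) (b + 2)) (Prog.seq (mv2 (b + 1) b (b + 2))
    (Prog.seq (mv (b + 2) (b + 1)) (mv (b + 1) b)))

private theorem runs_dup (b : ℕ) (v : V) (rest : List Bool) (s : Store Bool)
    (hb : s b = v.code ++ rest) (h : ∀ i, b < i → s i = []) :
    Runs (dup b) s (update s b (v.code ++ (v.code ++ rest))) (13 * v.size + 5) := by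
  have hb1 : s (b + 1) = [] := h _ (by omega)
  have hb2 : s (b + 2) = [] := h _ (by omega)
  have g1 := runs_tk b (b + 1) (b + 2) (by omega) (by omega) (by omega) v rest s hb hb2
  set s1 : Store Bool := update (update s b rest) (b + 1) (v.code.reverse ++ s (b + 1)) with hs1
  have g2 := runs_mv2 (b + 1) b (b + 2) (by omega) (by omega) (by omega) v.code.reverse s1
    (by simp [hs1, hb1])
  set s2 : Store Bool := update (update (update s1 (b + 1) []) b
    (v.code.reverse.reverse ++ s1 b)) (b + 2) (v.code.reverse.reverse ++ s1 (b + 2)) with hs2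
  have g3 := runs_mv (b + 2) (b + 1) (by omega) v.code s2 (by simp [hs2, hs1, hb2])
  set s3 : Store Bool := update (update s2 (b + 2) []) (b + 1)
    (v.code.reverse ++ s2 (b + 1)) with hs3
  have g4 := runs_mv (b + 1) b (by omega) v.code.reverse s3 (by simp [hs3, hs2])
  refine (g1.seq (g2.seq (g3.seq g4))).conv ?_
    (by simp only [List.length_reverse, V.code_length]; omega)
  funext i
  by_cases e1 : i = b
  · subst e1; simp [hs3, hs2, hs1]
  · by_cases e2 : i = b + 1
    · subst e2; simp [hb1]
    · by_cases e3 : i = b + 2
      · subst e3; simp [hs3, hb2]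
      · simp [hs3, hs2, hs1, e1, e2, e3]

/-- Exchange the two trees on top of `b`. -/
private def swp (b : ℕ) : Prog Bool :=
  Prog.seq (tk b (b + 1) (b + 3)) (Prog.seq (tk b (b + 2) (b + 3))
    (Prog.seq (mv (b + 1) b) (mv (b + 2) b)))

private theorem runs_swp (b : ℕ) (u v : V) (rest : List Bool) (s : Store Bool)
    (hb : s b = u.code ++ (v.code ++ rest)) (h : ∀ i, b < i → s i = []) :
    Runs (swp b) s (update s b (v.code ++ (u.code ++ rest))) (8 * u.size + 8 * v.size + 6) := by
  have hb1 : s (b + 1) = [] := h _ (by omega)
  have hb2 : s (b + 2) = [] := h _ (by omega)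
  have hb3 : s (b + 3) = [] := h _ (by omega)
  have g1 := runs_tk b (b + 1) (b + 3) (by omega) (by omega) (by omega) u _ s hb hb3
  set s1 : Store Bool := update (update s b (v.code ++ rest)) (b + 1)
    (u.code.reverse ++ s (b + 1)) with hs1
  have g2 := runs_tk b (b + 2) (b + 3) (by omega) (by omega) (by omega) v rest s1
    (by simp [hs1]) (by simp [hs1, hb3])
  set s2 : Store Bool := update (update s1 b rest) (b + 2)
    (v.code.reverse ++ s1 (b + 2)) with hs2
  have g3 := runs_mv (b + 1) b (by omega) u.code.reverse s2 (by simp [hs2, hs1, hb1])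
  set s3 : Store Bool := update (update s2 (b + 1) []) b
    (u.code.reverse.reverse ++ s2 b) with hs3
  have g4 := runs_mv (b + 2) b (by omega) v.code.reverse s3 (by simp [hs3, hs2, hs1, hb2])
  refine (g1.seq (g2.seq (g3.seq g4))).conv ?_
    (by simp only [List.length_reverse, V.code_length]; omega)
  funext i
  by_cases e1 : i = b
  · subst e1; simp [hs3, hs2]
  · by_cases e2 : i = b + 2
    · subst e2; simp [hb2]
    · by_cases e3 : i = b + 1
      · subst e3; simp [hs3, hb1]
      · simp [hs3, hs2, hs1, e1, e2, e3]

/-- Moving a tree to another register, or copying it, or removing it, is possible in linear time;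
hence a pair of values. -/
theorem RunsBy.node {F G : V → V} {τ τ' : V → ℕ} (hF : RunsBy F τ) (hG : RunsBy G τ') :
    ∃ C, RunsBy (fun v => .node (F v) (G v)) fun v => C * (τ v + τ' v + v.size + 1) := by
  have hsz := hG.size_le
  obtain ⟨p, hp⟩ := hF
  obtain ⟨q, hq⟩ := hG
  refine ⟨30, fun b => Prog.seq (dup b) (Prog.seq (q b) (Prog.seq (swp b)
    (Prog.seq (p b) (Prog.push b true)))), fun b s v rest h1 h2 => ?_⟩
  have key : ∀ (w : List Bool) (i : ℕ), b < i → update s b w i = [] := fun w i hi => by
    rw [Function.update_of_ne (by omega)]; exact h2 i hi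
  have g1 := runs_dup b v rest s h1 h2
  have g2 := hq b (update s b (v.code ++ (v.code ++ rest))) v (v.code ++ rest) (by simp) (key _)
  rw [Function.update_idem] at g2
  have g3 := runs_swp b (G v) v rest (update s b ((G v).code ++ (v.code ++ rest))) (by simp)
    (key _)
  rw [Function.update_idem] at g3
  have g4 := hp b (update s b (v.code ++ ((G v).code ++ rest))) v ((G v).code ++ rest) (by simp)
    (key _)
  rw [Function.update_idem] at g4
  have g5 := Runs.push b true (update s b ((F v).code ++ ((G v).code ++ rest)))
  rw [Function.update_idem] at g5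
  refine (g1.seq (g2.seq (g3.seq (g4.seq g5)))).conv ?_ ?_
  · simp [V.code]
  · have := hsz v
    beta_reduce
    omega

/-! ### Polynomial time -/

private theorem three_le (v : V) : 3 ≤ v.size + 2 := by
  have := v.size_pos
  omega

private theorem PT.of_le {F : V → V} {τ : V → ℕ} (h : RunsBy F τ) (C c : ℕ)
    (hτ : ∀ v, τ v ≤ C * (v.size + 2) ^ c) : PT F := by
  refine ⟨C + c, h.mono fun v => (hτ v).trans ?_⟩
  rw [pow_add]
  refine Nat.mul_le_mul_right _ ?_
  exact (Nat.lt_pow_self (by have := three_le v; omega)).le

private theorem pow_le_add {N a b : ℕ} (hN : 1 ≤ N) : N ^ a ≤ N ^ (a + b) :=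
  Nat.pow_le_pow_right hN (Nat.le_add_right _ _)

/-- The size of the value is bounded by a polynomial. -/
theorem PT.size_le {F : V → V} (hF : PT F) : ∃ c, ∀ v : V, (F v).size ≤ (v.size + 2) ^ c := by
  obtain ⟨c, hc⟩ := hF
  refine ⟨c + 1, fun v => ?_⟩
  have h1 := hc.size_le v
  have h2 : 1 ≤ (v.size + 2) ^ c := Nat.one_le_pow _ _ (by omega)
  rw [pow_succ]
  nlinarith [v.size_pos]

theorem PT.id : PT fun v => v := by
  refine ⟨0, fun _ => Prog.skip, fun b s v rest h1 _ => ?_⟩
  refine (Runs.skip s).conv ?_ (by simp)
  rw [← h1, Function.update_eq_self]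

theorem PT.comp {F G : V → V} (hF : PT F) (hG : PT G) : PT fun v => F (G v) := by
  obtain ⟨m, hm⟩ := hG.size_le
  obtain ⟨c, hc⟩ := hF
  obtain ⟨c', hc'⟩ := hG
  refine PT.of_le (hc.comp hc') 3 (c' + (m + 1) * c) fun v => ?_
  have hN := three_le v
  set N := v.size + 2 with hNdef
  have h1 : (G v).size + 2 ≤ N ^ (m + 1) := by
    have h2 : (G v).size ≤ N ^ m := hm v
    have h3 : 1 ≤ N ^ m := Nat.one_le_pow _ _ (by omega)
    have h4 : N ^ m * 3 ≤ N ^ m * N := Nat.mul_le_mul_left _ hN
    rw [pow_succ]
    omega
  have h2 : ((G v).size + 2) ^ c ≤ N ^ ((m + 1) * c) := by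
    rw [pow_mul]
    exact Nat.pow_le_pow_left h1 c
  have h3 : N ^ c' ≤ N ^ (c' + (m + 1) * c) := pow_le_add (by omega)
  have h4 : N ^ ((m + 1) * c) ≤ N ^ (c' + (m + 1) * c) := by
    rw [add_comm c']; exact pow_le_add (by omega)
  have h5 : 1 ≤ N ^ (c' + (m + 1) * c) := Nat.one_le_pow _ _ (by omega)
  omega

/-- Pushing a word. -/
private def pushW (b : ℕ) : List Bool → Prog Bool
  | [] => Prog.skip
  | a :: l => Prog.seq (pushW b l) (Prog.push b a)

private theorem runs_pushW (b : ℕ) : ∀ (l : List Bool) (s : Store Bool),
    Runs (pushW b l) s (update s b (l ++ s b)) (l.length + 1)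
  | [], s => by
    refine (Runs.skip s).conv ?_ (by simp)
    simp
  | a :: l, s => by
    have g1 := runs_pushW b l s
    refine (g1.seq (Runs.push b a _)).conv ?_ (by simp)
    simp

theorem PT.const (w : V) : PT fun _ => w := by
  have h : RunsBy (fun _ => w) fun v => (8 * v.size + 3) + (w.size + 1) := by
    refine ⟨fun b => Prog.seq (drop b) (pushW b w.code), fun b s v rest h1 h2 => ?_⟩
    have g1 := runs_drop b v rest s h1 h2
    have g2 := runs_pushW b w.code (update s b rest)
    refine (g1.seq g2).conv ?_ (by simp only [V.code_length]; omega)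
    simp
  refine PT.of_le h (8 + w.size + 1) 1 fun v => ?_
  have := three_le v
  rw [pow_one]
  nlinarith

theorem PT.node {F G : V → V} (hF : PT F) (hG : PT G) : PT fun v => .node (F v) (G v) := by
  obtain ⟨c, hc⟩ := hF
  obtain ⟨c', hc'⟩ := hG
  obtain ⟨C, hC⟩ := hc.node hc'
  refine PT.of_le hC (C * 3) (c + c' + 1) fun v => ?_
  have hN := three_le v
  set N := v.size + 2 with hNdef
  have h1 : N ^ c ≤ N ^ (c + c' + 1) := by rw [add_assoc]; exact pow_le_add (by omega)
  have h2 : N ^ c' ≤ N ^ (c + c' + 1) := by
    rw [show c + c' + 1 = c' + (c + 1) by ring]; exact pow_le_add (by omega)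
  have h3 : N ^ 1 ≤ N ^ (c + c' + 1) := by
    rw [show c + c' + 1 = 1 + (c + c') by ring]; exact pow_le_add (by omega)
  rw [pow_one] at h3
  rw [mul_assoc]
  refine Nat.mul_le_mul_left _ ?_
  omega

/-- The branches of the program for the left part. -/
private def hdP (b : ℕ) : Bool → Prog Bool
  | true => Prog.seq (tk b (b + 1) (b + 3)) (Prog.seq (tk b (b + 2) (b + 3))
      (Prog.seq (clear (b + 2)) (mv (b + 1) b)))
  | false => Prog.push b false

/-- The branches of the program for the right part. -/
private def tlP (b : ℕ) : Bool → Prog Bool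
  | true => drop b
  | false => Prog.push b false

theorem PT.hd : PT V.hd := by
  have h : RunsBy V.hd fun v => 20 * v.size + 20 := by
    refine ⟨fun b => Prog.pop b Prog.skip (hdP b), fun b s v rest h1 h2 => ?_⟩
    have hb1 : s (b + 1) = [] := h2 _ (by omega)
    have hb2 : s (b + 2) = [] := h2 _ (by omega)
    have hb3 : s (b + 3) = [] := h2 _ (by omega)
    cases v with
    | nil =>
      have g1 := Runs.push b false (update s b rest)
      refine (Runs.popCons (p₀ := Prog.skip) (p₁ := hdP b) (a := false) (l := rest)
        (by rw [h1]; rfl) g1).conv ?_ ?_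
      · simp [V.code]
      · beta_reduce
        omega
    | node u v =>
      set s0 : Store Bool := update s b (u.code ++ (v.code ++ rest)) with hs0
      have g1 := runs_tk b (b + 1) (b + 3) (by omega) (by omega) (by omega) u (v.code ++ rest) s0
        (by simp [hs0]) (by simp [hs0, hb3])
      set s1 : Store Bool := update (update s0 b (v.code ++ rest)) (b + 1)
        (u.code.reverse ++ s0 (b + 1)) with hs1
      have g2 := runs_tk b (b + 2) (b + 3) (by omega) (by omega) (by omega) v rest s1
        (by simp [hs1]) (by simp [hs1, hs0, hb3])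
      set s2 : Store Bool := update (update s1 b rest) (b + 2)
        (v.code.reverse ++ s1 (b + 2)) with hs2
      have g3 := runs_clear (b + 2) v.code.reverse s2 (by simp [hs2, hs1, hs0, hb2])
      set s3 : Store Bool := update s2 (b + 2) [] with hs3
      have g4 := runs_mv (b + 1) b (by omega) u.code.reverse s3
        (by simp [hs3, hs2, hs1, hs0, hb1])
      refine (Runs.popCons (p₀ := Prog.skip) (p₁ := hdP b) (a := true) (l := u.code ++ (v.code ++ rest))
        (by rw [h1]; simp [V.code]) (g1.seq (g2.seq (g3.seq g4)))).conv ?_ ?_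
      · funext i
        by_cases e1 : i = b
        · subst e1; simp [hs3, hs2]
        · by_cases e2 : i = b + 1
          · subst e2; simp [hb1]
          · by_cases e3 : i = b + 2
            · subst e3; simp [hs3, hb2]
            · simp [hs3, hs2, hs1, hs0, e1, e2, e3]
      · simp only [List.length_reverse, V.code_length, V.size]
        omega
  refine PT.of_le h 20 1 fun v => ?_
  rw [pow_one]
  omega

theorem PT.tl : PT V.tl := by
  have h : RunsBy V.tl fun v => 20 * v.size + 20 := by
    refine ⟨fun b => Prog.pop b Prog.skip (tlP b), fun b s v rest h1 h2 => ?_⟩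
    cases v with
    | nil =>
      have g1 := Runs.push b false (update s b rest)
      refine (Runs.popCons (p₀ := Prog.skip) (p₁ := tlP b) (a := false) (l := rest)
        (by rw [h1]; rfl) g1).conv ?_ ?_
      · simp [V.code]
      · beta_reduce
        omega
    | node u v =>
      have g1 := runs_drop b u (v.code ++ rest) (update s b (u.code ++ (v.code ++ rest)))
        (by simp) (fun i hi => by rw [Function.update_of_ne (by omega)]; exact h2 i hi)
      refine (Runs.popCons (p₀ := Prog.skip) (p₁ := tlP b) (a := true) (l := u.code ++ (v.code ++ rest))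
        (by rw [h1]; simp [V.code]) g1).conv ?_ ?_
      · simp
      · simp only [V.size]
        omega
  refine PT.of_le h 20 1 fun v => ?_
  rw [pow_one]
  omega

theorem PT.ifnil {C F G : V → V} (hC : PT C) (hF : PT F) (hG : PT G) :
    PT fun v => V.ifnil (C v) (F v) (G v) := by
  obtain ⟨c, hc⟩ := hC
  have hsz := hc.size_le
  obtain ⟨c₁, h₁⟩ := hF
  obtain ⟨c₂, h₂⟩ := hG
  obtain ⟨pC, hpC⟩ := hc
  obtain ⟨pF, hpF⟩ := h₁
  obtain ⟨pG, hpG⟩ := h₂
  have h : RunsBy (fun v => V.ifnil (C v) (F v) (G v)) fun v =>
      21 * v.size + 20 + 9 * (v.size + 2) ^ c + (v.size + 2) ^ c₁ + (v.size + 2) ^ c₂ := by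
    refine ⟨fun b => Prog.seq (dup b) (Prog.seq (pC b) (Prog.pop b Prog.skip fun x => match x with
      | true => Prog.seq (drop b) (Prog.seq (drop b) (pG b))
      | false => pF b)), fun b s v rest h1 h2 => ?_⟩
    have key : ∀ (w : List Bool) (i : ℕ), b < i → update s b w i = [] := fun w i hi => by
      rw [Function.update_of_ne (by omega)]; exact h2 i hi
    have g1 := runs_dup b v rest s h1 h2
    have g2 := hpC b (update s b (v.code ++ (v.code ++ rest))) v (v.code ++ rest) (by simp)
      (key _)
    rw [Function.update_idem] at g2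
    have hs := hsz v
    cases hCv : C v with
    | nil =>
      rw [hCv] at g2
      have g3 := hpF b (update s b (v.code ++ rest)) v rest (by simp) (key _)
      rw [Function.update_idem] at g3
      have g4 := Runs.popCons (p₀ := Prog.skip) (p₁ := fun x => match x with
        | true => Prog.seq (drop b) (Prog.seq (drop b) (pG b))
        | false => pF b) (s := update s b (V.nil.code ++ (v.code ++ rest))) (r := b) (a := false)
        (l := v.code ++ rest) (by simp [V.code]) (by rw [Function.update_idem]; exact g3)
      refine (g1.seq (g2.seq g4)).conv (by simp [hCv]) (by beta_reduce; omega)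
    | node x y =>
      rw [hCv] at g2 hs
      simp only [V.size] at hs
      have g3 := runs_drop b x (y.code ++ (v.code ++ rest))
        (update s b (x.code ++ (y.code ++ (v.code ++ rest)))) (by simp) (key _)
      rw [Function.update_idem] at g3
      have g4 := runs_drop b y (v.code ++ rest)
        (update s b (y.code ++ (v.code ++ rest))) (by simp) (key _)
      rw [Function.update_idem] at g4
      have g5 := hpG b (update s b (v.code ++ rest)) v rest (by simp) (key _)
      rw [Function.update_idem] at g5
      have g6 := Runs.popCons (p₀ := Prog.skip) (p₁ := fun x => match x with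
        | true => Prog.seq (drop b) (Prog.seq (drop b) (pG b))
        | false => pF b) (s := update s b ((V.node x y).code ++ (v.code ++ rest))) (r := b)
        (a := true) (l := x.code ++ (y.code ++ (v.code ++ rest))) (by simp [V.code])
        (by rw [Function.update_idem]; exact g3.seq (g4.seq g5))
      refine (g1.seq (g2.seq g6)).conv (by simp [hCv]) (by beta_reduce; omega)
  refine PT.of_le h 52 (c + c₁ + c₂ + 1) fun v => ?_
  have hN := three_le v
  set N := v.size + 2 with hNdef
  have e1 : N ^ c ≤ N ^ (c + c₁ + c₂ + 1) := by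
    rw [show c + c₁ + c₂ + 1 = c + (c₁ + c₂ + 1) by ring]; exact pow_le_add (by omega)
  have e2 : N ^ c₁ ≤ N ^ (c + c₁ + c₂ + 1) := by
    rw [show c + c₁ + c₂ + 1 = c₁ + (c + c₂ + 1) by ring]; exact pow_le_add (by omega)
  have e3 : N ^ c₂ ≤ N ^ (c + c₁ + c₂ + 1) := by
    rw [show c + c₁ + c₂ + 1 = c₂ + (c + c₁ + 1) by ring]; exact pow_le_add (by omega)
  have e4 : N ^ 1 ≤ N ^ (c + c₁ + c₂ + 1) := by
    rw [show c + c₁ + c₂ + 1 = 1 + (c + c₁ + c₂) by ring]; exact pow_le_add (by omega)
  rw [pow_one] at e4
  omega

/-- Pushing `false` and `true` for every symbol. -/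
private def cnt (r r' : ℕ) : Prog Bool :=
  Prog.loop r fun _ => Prog.seq (Prog.push r' false) (Prog.push r' true)

private theorem runs_cnt (r r' : ℕ) (hr : r ≠ r') : ∀ (l : List Bool) (n : ℕ) (rest : List Bool)
    (s : Store Bool), s r = l → s r' = (V.una n).code ++ rest →
    Runs (cnt r r') s (update (update s r []) r' ((V.una (n + l.length)).code ++ rest))
      (3 * l.length + 1)
  | [], n, rest, s, hs, hs' => by
    refine (Runs.loopNil hs).conv ?_ (by simp)
    funext i
    by_cases h1 : i = r'
    · subst h1; simp [hs']
    · by_cases h2 : i = r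
      · subst h2; simp [h1, hs]
      · simp [h1, h2]
  | a :: l, n, rest, s, hs, hs' => by
    set s1 : Store Bool := update s r l with hs1
    set s2 : Store Bool := update s1 r' (false :: s1 r') with hs2
    set s3 : Store Bool := update s2 r' (true :: s2 r') with hs3
    have g1 : Runs (Prog.seq (Prog.push r' false) (Prog.push r' true)) s1 s3 (1 + 1) :=
      (Runs.push r' false s1).seq (Runs.push r' true s2)
    have g2 := runs_cnt r r' hr l (n + 1) rest s3 (by simp [hs3, hs2, hs1, hr])
      (by simp [hs3, hs2, hs1, hr.symm, hs', V.una, V.code])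
    have g3 := Runs.loopCons (p := fun _ => Prog.seq (Prog.push r' false) (Prog.push r' true))
      hs g1 g2
    refine g3.conv ?_ (by simp only [List.length_cons]; omega)
    funext i
    by_cases h4 : i = r'
    · subst h4
      have : n + (l.length + 1) = n + 1 + l.length := by omega
      simp [this]
    · by_cases h5 : i = r
      · subst h5; simp [hs3, hs2, hs1, h4]
      · simp [hs3, hs2, hs1, h4, h5]

/-- The unary size. -/
theorem PT.usize : PT fun v => V.una v.size := by
  have h : RunsBy (fun v => V.una v.size) fun v => 20 * v.size + 20 := by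
    refine ⟨fun b => Prog.seq (tk b (b + 1) (b + 2)) (Prog.seq (Prog.push b false)
      (cnt (b + 1) b)), fun b s v rest h1 h2 => ?_⟩
    have hb1 : s (b + 1) = [] := h2 _ (by omega)
    have g1 := runs_tk b (b + 1) (b + 2) (by omega) (by omega) (by omega) v rest s h1
      (h2 _ (by omega))
    set s1 : Store Bool := update (update s b rest) (b + 1) (v.code.reverse ++ s (b + 1)) with hs1
    set s2 : Store Bool := update s1 b (false :: s1 b) with hs2
    have g2 : Runs (Prog.push b false) s1 s2 1 := Runs.push b false s1
    have g3 := runs_cnt (b + 1) b (by omega) v.code.reverse 0 rest s2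
      (by simp [hs2, hs1, hb1]) (by simp [hs2, hs1, V.una, V.code])
    refine (g1.seq (g2.seq g3)).conv ?_
      (by simp only [List.length_reverse, V.code_length]; omega)
    funext i
    by_cases e1 : i = b
    · subst e1; simp [V.code_length]
    · by_cases e2 : i = b + 1
      · subst e2; simp [hb1]
      · simp [hs2, hs1, e1, e2]
  refine PT.of_le h 20 1 fun v => ?_
  rw [pow_one]
  omega

end Pool.Agent.PF
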