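import Pool.Agent.PF.MachDefs

/-!
# Functions on trees computed by structured stack programs: iteration
-/

set_option autoImplicit false

namespace Pool.Agent.PF

open Pool.Agent.PT Function

/-- The store with the given contents of the registers `b, .., b + 4`. -/
private def S5 (s : Store Bool) (b : ℕ) (x0 x1 x2 x3 x4 : List Bool) : Store Bool := fun i =>
  if i = b then x0 else if i = b + 1 then x1 else if i = b + 2 then x2 else
    if i = b + 3 then x3 else if i = b + 4 then x4 else s i

section

variable (s : Store Bool) (b : ℕ) (x0 x1 x2 x3 x4 y : List Bool)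

@[simp] private theorem S5_0 : S5 s b x0 x1 x2 x3 x4 b = x0 := by simp [S5]
@[simp] private theorem S5_1 : S5 s b x0 x1 x2 x3 x4 (b + 1) = x1 := by simp [S5]
@[simp] private theorem S5_2 : S5 s b x0 x1 x2 x3 x4 (b + 2) = x2 := by simp [S5]
@[simp] private theorem S5_3 : S5 s b x0 x1 x2 x3 x4 (b + 3) = x3 := by simp [S5]
@[simp] private theorem S5_4 : S5 s b x0 x1 x2 x3 x4 (b + 4) = x4 := by simp [S5]

@[simp] private theorem up_0 :
    update (S5 s b x0 x1 x2 x3 x4) b y = S5 s b y x1 x2 x3 x4 := by
  funext i
  by_cases h : i = b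
  · subst h; simp
  · rw [update_of_ne h]; simp [S5, h]

@[simp] private theorem up_1 :
    update (S5 s b x0 x1 x2 x3 x4) (b + 1) y = S5 s b x0 y x2 x3 x4 := by
  funext i
  by_cases h : i = b + 1
  · subst h; simp
  · rw [update_of_ne h]; simp [S5, h]

@[simp] private theorem up_2 :
    update (S5 s b x0 x1 x2 x3 x4) (b + 2) y = S5 s b x0 x1 y x3 x4 := by
  funext i
  by_cases h : i = b + 2
  · subst h; simp
  · rw [update_of_ne h]; simp [S5, h]

@[simp] private theorem up_3 :
    update (S5 s b x0 x1 x2 x3 x4) (b + 3) y = S5 s b x0 x1 x2 y x4 := by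
  funext i
  by_cases h : i = b + 3
  · subst h; simp
  · rw [update_of_ne h]; simp [S5, h]

@[simp] private theorem up_4 :
    update (S5 s b x0 x1 x2 x3 x4) (b + 4) y = S5 s b x0 x1 x2 x3 y := by
  funext i
  by_cases h : i = b + 4
  · subst h; simp
  · rw [update_of_ne h]; simp [S5, h]

end

private theorem eq_S5 (s : Store Bool) (b : ℕ) (l : List Bool) (h : ∀ i, b < i → s i = []) :
    update s b l = S5 s b l [] [] [] [] := by
  funext i
  by_cases h0 : i = b
  · subst h0; simp
  · rw [update_of_ne h0]
    simp only [S5, h0, if_false]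
    split_ifs with h1 h2 h3 h4
    · exact h i (by omega)
    · exact h i (by omega)
    · exact h i (by omega)
    · exact h i (by omega)
    · rfl

/-- One step of moving a tree: register `b + 2` counts the pending trees. -/
private def trBody (b : ℕ) : Bool → Prog Bool := fun _ =>
  Prog.pop b Prog.skip fun x => match x with
    | true => Prog.seq (Prog.push (b + 3) true)
      (Prog.seq (Prog.push (b + 2) true) (Prog.push (b + 2) true))
    | false => Prog.push (b + 3) false

/-- Moving the tree on top of `b` to `b + 3` (reversed). -/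
private def tr (b : ℕ) : Prog Bool :=
  Prog.seq (Prog.push (b + 2) true) (Prog.loop (b + 2) (trBody b))

private theorem runs_tr_aux (s s' : Store Bool) (b : ℕ) (N E : List Bool) :
    ∀ (v : V) (k : ℕ) (rest D : List Bool) (T : ℕ),
      Runs (Prog.loop (b + 2) (trBody b))
        (S5 s b rest N (un true k) (v.code.reverse ++ D) E) s' T →
      Runs (Prog.loop (b + 2) (trBody b))
        (S5 s b (v.code ++ rest) N (un true (k + 1)) D E) s' (T + 5 * v.size)
  | .nil, k, rest, D, T, h => by
    have g1 : Runs (trBody b true) (S5 s b (false :: rest) N (un true k) D E)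
        (S5 s b rest N (un true k) (false :: D) E) 2 := by
      have e := Runs.push (b + 3) false (update (S5 s b (false :: rest) N (un true k) D E) b rest)
      rw [up_0, up_3, S5_3] at e
      exact Runs.popCons (S5_0 _ _ _ _ _ _ _) (by rw [up_0]; exact e)
    have g2 := Runs.loopCons (p := trBody b) (r := b + 2) (a := true) (l := un true k)
      (s := S5 s b (false :: rest) N (un true (k + 1)) D E) (by rw [S5_2, un_succ])
      (by rw [up_2]; exact g1) h
    exact g2.mono (by simp only [V.size]; omega)
  | .node a m, k, rest, D, T, h => by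
    have g1 : Runs (trBody b true) (S5 s b (true :: (a.code ++ (m.code ++ rest))) N (un true k) D E)
        (S5 s b (a.code ++ (m.code ++ rest)) N (un true (k + 1 + 1)) (true :: D) E) 4 := by
      have e := (Runs.push (b + 3) true (S5 s b (a.code ++ (m.code ++ rest)) N
        (un true k) D E)).seq ((Runs.push (b + 2) true _).seq (Runs.push (b + 2) true _))
      simp only [up_3, S5_3, up_2, S5_2, ← un_succ] at e
      exact Runs.popCons (S5_0 _ _ _ _ _ _ _) (by rw [up_0]; exact e)
    have hc : (V.node a m).code.reverse ++ D = m.code.reverse ++ (a.code.reverse ++ true :: D) := by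
      simp [V.code]
    rw [hc] at h
    have g3 := runs_tr_aux s s' b N E m k rest (a.code.reverse ++ true :: D) T h
    have g2 := runs_tr_aux s s' b N E a (k + 1) (m.code ++ rest) (true :: D) _ g3
    have g4 := Runs.loopCons (p := trBody b) (r := b + 2) (a := true) (l := un true k)
      (s := S5 s b (true :: (a.code ++ (m.code ++ rest))) N (un true (k + 1)) D E)
      (by rw [S5_2, un_succ]) (by rw [up_2]; exact g1) g2
    have hc2 : (V.node a m).code ++ rest = true :: (a.code ++ (m.code ++ rest)) := by
      simp [V.code]
    rw [hc2]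
    exact g4.mono (by simp only [V.size]; omega)

private theorem runs_tr (s : Store Bool) (b : ℕ) (N E : List Bool) (v : V) (rest D : List Bool) :
    Runs (tr b) (S5 s b (v.code ++ rest) N [] D E)
      (S5 s b rest N [] (v.code.reverse ++ D) E) (5 * v.size + 2) := by
  have h0 : Runs (Prog.loop (b + 2) (trBody b))
      (S5 s b rest N (un true 0) (v.code.reverse ++ D) E)
      (S5 s b rest N [] (v.code.reverse ++ D) E) 1 := Runs.loopNil (S5_2 _ _ _ _ _ _ _)
  have h1 := runs_tr_aux s _ b N E v 0 rest D 1 h0
  have h2 := (Runs.push (b + 2) true (S5 s b (v.code ++ rest) N [] D E)).seq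
    (s'' := S5 s b rest N [] (v.code.reverse ++ D) E) (q := Prog.loop (b + 2) (trBody b))
    (by rw [up_2, S5_2]; exact h1)
  exact h2.mono (by omega)

/-- Removing the tree on top of `b`. -/
private def skipT (b : ℕ) : Prog Bool := Prog.seq (tr b) (clear (b + 3))

private theorem runs_skipT (s : Store Bool) (b : ℕ) (N E : List Bool) (v : V) (rest : List Bool) :
    Runs (skipT b) (S5 s b (v.code ++ rest) N [] [] E) (S5 s b rest N [] [] E)
      (7 * v.size + 3) := by
  have h1 := runs_tr s b N E v rest []
  have h2 := runs_clear (b + 3) (v.code.reverse ++ [])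
    (S5 s b rest N [] (v.code.reverse ++ []) E) (S5_3 _ _ _ _ _ _ _)
  rw [up_3] at h2
  refine (h1.seq h2).mono ?_
  simp only [List.append_nil, List.length_reverse, V.code_length]
  omega

/-- One step along the spine: register `b + 1` counts, register `b + 4` is the flag. -/
private def spBody (b : ℕ) : Bool → Prog Bool := fun _ =>
  Prog.pop b Prog.skip fun x => match x with
    | true => Prog.seq (Prog.push (b + 1) true) (Prog.seq (skipT b) (Prog.push (b + 4) true))
    | false => Prog.skip

private theorem runs_sp (s : Store Bool) (b : ℕ) : ∀ (v : V) (k : ℕ) (rest : List Bool),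
    Runs (Prog.loop (b + 4) (spBody b)) (S5 s b (v.code ++ rest) (un true k) [] [] [true])
      (S5 s b rest (un true (k + v.spine)) [] [] []) (7 * v.size)
  | .nil, k, rest => by
    have g1 : Runs (spBody b true) (S5 s b (false :: rest) (un true k) [] [] [])
        (S5 s b rest (un true k) [] [] []) 2 :=
      Runs.popCons (S5_0 _ _ _ _ _ _ _) (by rw [up_0]; exact Runs.skip _)
    have g2 := Runs.loopCons (p := spBody b) (r := b + 4) (a := true) (l := [])
      (s := S5 s b (false :: rest) (un true k) [] [] [true]) (S5_4 _ _ _ _ _ _ _)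
      (by rw [up_4]; exact g1) (Runs.loopNil (S5_4 _ _ _ _ _ _ _))
    exact g2.mono (by simp only [V.size]; omega)
  | .node a m, k, rest => by
    have g1 : Runs (spBody b true) (S5 s b (true :: (a.code ++ (m.code ++ rest))) (un true k) [] []
        []) (S5 s b (m.code ++ rest) (un true (k + 1)) [] [] [true]) (7 * a.size + 6) := by
      have e1 := Runs.push (b + 1) true (S5 s b (a.code ++ (m.code ++ rest)) (un true k) [] [] [])
      rw [up_1, S5_1, ← un_succ] at e1
      have e2 := runs_skipT s b (un true (k + 1)) [] a (m.code ++ rest)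
      have e3 := Runs.push (b + 4) true (S5 s b (m.code ++ rest) (un true (k + 1)) [] [] [])
      rw [up_4, S5_4] at e3
      have e := (Runs.popCons (p₀ := Prog.skip) (p₁ := fun x : Bool => match x with
        | true => Prog.seq (Prog.push (b + 1) true) (Prog.seq (skipT b) (Prog.push (b + 4) true))
        | false => Prog.skip) (S5_0 s b (true :: (a.code ++ (m.code ++ rest))) (un true k) [] [] [])
        (by rw [up_0]; exact e1.seq (e2.seq e3)))
      exact e.mono (by omega)
    have g3 := runs_sp s b m (k + 1) rest
    have g4 := Runs.loopCons (p := spBody b) (r := b + 4) (a := true) (l := [])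
      (s := S5 s b (true :: (a.code ++ (m.code ++ rest))) (un true k) [] [] [true])
      (S5_4 _ _ _ _ _ _ _) (by rw [up_4]; exact g1) g3
    have hc2 : (V.node a m).code ++ rest = true :: (a.code ++ (m.code ++ rest)) := by
      simp [V.code]
    have hk : k + (V.node a m).spine = k + 1 + m.spine := by
      simp only [V.spine]
      omega
    rw [hc2, hk]
    exact g4.mono (by simp only [V.size]; omega)

/-- The loop of the iteration. -/
private theorem runs_iter {F : V → V} {τ : V → ℕ} {p : ℕ → Prog Bool}
    (hp : ∀ (b : ℕ) (s : Store Bool) (v : V) (rest : List Bool),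
      s b = v.code ++ rest → (∀ i, b < i → s i = []) →
      Runs (p b) s (update s b ((F v).code ++ rest)) (τ v))
    (s : Store Bool) (b : ℕ) (hs : ∀ i, b < i → s i = []) (rest : List Bool) (T : ℕ) :
    ∀ (n : ℕ) (x : V), (∀ i < n, τ (F^[i] x) ≤ T) →
      Runs (Prog.loop (b + 1) fun _ => p (b + 2)) (S5 s b rest (un true n) x.code [] [])
        (S5 s b rest [] (F^[n] x).code [] []) (n * (T + 1) + 1)
  | 0, x, _ => (Runs.loopNil (S5_1 _ _ _ _ _ _ _)).mono (by omega)
  | n + 1, x, h => by
    have hz : ∀ i, b + 2 < i → S5 s b rest (un true n) x.code [] [] i = [] := by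
      intro i hi
      simp only [S5]
      rw [if_neg (by omega), if_neg (by omega), if_neg (by omega)]
      split_ifs
      · rfl
      · rfl
      · exact hs i (by omega)
    have h1 := hp (b + 2) (S5 s b rest (un true n) x.code [] []) x [] (by simp) hz
    rw [up_2, List.append_nil] at h1
    have h2 := runs_iter hp s b hs rest T n (F x) (fun i hi => by
      have := h (i + 1) (by omega)
      rwa [Function.iterate_succ_apply] at this)
    have h3 := Runs.loopCons (p := fun _ => p (b + 2)) (r := b + 1) (a := true) (l := un true n)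
      (s := S5 s b rest (un true (n + 1)) x.code [] []) (by rw [S5_1, un_succ])
      (by rw [up_1]; exact h1) h2
    rw [← Function.iterate_succ_apply] at h3
    refine h3.mono ?_
    have h4 := h 0 (by omega)
    simp only [Function.iterate_zero, id_eq] at h4
    have h5 : (n + 1) * (T + 1) = n * (T + 1) + (T + 1) := by ring
    omega

/-- The main part of the program, for the argument `node n x`. -/
private def itP (p : ℕ → Prog Bool) (b : ℕ) : Prog Bool :=
  Prog.seq (Prog.push (b + 4) true) (Prog.seq (Prog.loop (b + 4) (spBody b))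
    (Prog.seq (tr b) (Prog.seq (mv (b + 3) (b + 2)) (Prog.seq
      (Prog.loop (b + 1) fun _ => p (b + 2)) (Prog.seq (mv (b + 2) (b + 3)) (mv (b + 3) b))))))

private theorem runs_itP {F : V → V} {τ : V → ℕ} {p : ℕ → Prog Bool}
    (hp : ∀ (b : ℕ) (s : Store Bool) (v : V) (rest : List Bool),
      s b = v.code ++ rest → (∀ i, b < i → s i = []) →
      Runs (p b) s (update s b ((F v).code ++ rest)) (τ v))
    (s : Store Bool) (b : ℕ) (hs : ∀ i, b < i → s i = []) (rest : List Bool) (T : ℕ) (n x : V)
    (h : ∀ i < n.spine, τ (F^[i] x) ≤ T) :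
    Runs (itP p b) (S5 s b (n.code ++ (x.code ++ rest)) [] [] [] [])
      (S5 s b ((F^[n.spine] x).code ++ rest) [] [] [] [])
      (7 * n.size + 7 * x.size + n.spine * (T + 1) + 4 * (F^[n.spine] x).size + 7) := by
  have e1 := Runs.push (b + 4) true (S5 s b (n.code ++ (x.code ++ rest)) [] [] [] [])
  rw [up_4, S5_4] at e1
  have e2 := runs_sp s b n 0 (x.code ++ rest)
  rw [un_zero, zero_add] at e2
  have e3 := runs_tr s b (un true n.spine) [] x rest []
  rw [List.append_nil] at e3
  have e4 := runs_mv (b + 3) (b + 2) (by omega) x.code.reverse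
    (S5 s b rest (un true n.spine) [] x.code.reverse []) (S5_3 _ _ _ _ _ _ _)
  rw [up_3, up_2, S5_2, List.reverse_reverse, List.append_nil] at e4
  have e5 := runs_iter hp s b hs rest T n.spine x h
  have e6 := runs_mv (b + 2) (b + 3) (by omega) (F^[n.spine] x).code
    (S5 s b rest [] (F^[n.spine] x).code [] []) (S5_2 _ _ _ _ _ _ _)
  rw [up_2, up_3, S5_3, List.append_nil] at e6
  have e7 := runs_mv (b + 3) b (by omega) (F^[n.spine] x).code.reverse
    (S5 s b rest [] [] (F^[n.spine] x).code.reverse []) (S5_3 _ _ _ _ _ _ _)
  rw [up_3, up_0, S5_0, List.reverse_reverse] at e7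
  refine (e1.seq (e2.seq (e3.seq (e4.seq (e5.seq (e6.seq e7)))))).mono ?_
  simp only [List.length_reverse, V.code_length]
  omega

/-- **The general iteration.**  `v = node n s`; the number of steps is the spine of `n`.  If for
the argument `v` all the states have size at most `B v` and the step takes at most `T v` steps on
each of them then the iteration takes at most `C * (spine n + 1) * (T v + B v + size v + 1)`
steps. -/
theorem RunsBy.uiter {F : V → V} {τ : V → ℕ} (hF : RunsBy F τ) :
    ∃ C, ∀ T B : V → ℕ,
      (∀ v, ∀ i ≤ v.hd.spine, (F^[i] v.tl).size ≤ B v) →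
      (∀ v, ∀ i < v.hd.spine, τ (F^[i] v.tl) ≤ T v) →
      RunsBy (V.uiter F) fun v => C * (v.hd.spine + 1) * (T v + B v + v.size + 1) := by
  obtain ⟨p, hp⟩ := hF
  refine ⟨20, fun T B hB hT => ?_⟩
  refine ⟨fun b => Prog.pop b Prog.skip fun x => match x with
    | true => itP p b
    | false => Prog.push b false, fun b s v rest h1 h2 => ?_⟩
  have hs : s = S5 s b (v.code ++ rest) [] [] [] [] := by
    rw [← eq_S5 s b _ h2, ← h1, update_eq_self]
  rw [eq_S5 s b _ h2]
  cases v with
  | nil =>
    have e := Runs.push b false (S5 s b rest [] [] [] [])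
    rw [up_0, S5_0] at e
    have e2 := Runs.popCons (p₀ := Prog.skip) (p₁ := fun x : Bool => match x with
      | true => itP p b
      | false => Prog.push b false) (S5_0 s b (false :: rest) [] [] [] [])
      (by rw [up_0]; exact e)
    have hs' : S5 s b ((V.uiter F V.nil).code ++ rest) [] [] [] [] =
        S5 s b (false :: rest) [] [] [] [] := rfl
    have hs2 : S5 s b (false :: rest) [] [] [] [] = s := hs.symm
    rw [hs', hs2]
    rw [hs2] at e2
    refine e2.mono ?_
    simp only [V.hd_nil, V.spine]
    omega
  | node n x =>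
    have e := runs_itP hp s b h2 rest (T (.node n x)) n x (hT (.node n x))
    have e2 := Runs.popCons (p₀ := Prog.skip) (p₁ := fun x : Bool => match x with
      | true => itP p b
      | false => Prog.push b false)
      (S5_0 s b (true :: (n.code ++ (x.code ++ rest))) [] [] [] []) (by rw [up_0]; exact e)
    have hs' : S5 s b (true :: (n.code ++ (x.code ++ rest))) [] [] [] [] = s := by
      conv_rhs => rw [hs]
      simp [V.code]
    rw [hs'] at e2
    refine e2.mono ?_
    have hb := hB (.node n x) n.spine le_rfl
    simp only [V.hd_node, V.tl_node] at hb ⊢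
    have key : ∀ t m r k a c : ℕ, r ≤ m → 7 * a + 7 * c + k * (t + 1) + 4 * r + 7 + 1 ≤
        20 * (k + 1) * (t + m + (a + c + 1) + 1) := by
      intro t m r k a c h
      nlinarith [Nat.zero_le (k * m), Nat.zero_le (k * a), Nat.zero_le (k * c),
        Nat.zero_le (k * t), Nat.zero_le k]
    have h3 := key (T (.node n x)) (B (.node n x)) _ n.spine n.size x.size hb
    simp only [V.size]
    exact h3

end Pool.Agent.PF
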