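import Pool.Agent.PF.Mach1
import Pool.Agent.PF.Mach2

/-!
# Polynomial time functions on trees: iteration
-/

set_option autoImplicit false

namespace Pool.Agent.PF

open Function

/-- Polynomially bounded functions of a tree. -/
private def Pb (τ : V → ℕ) : Prop := ∃ c, ∀ v : V, τ v ≤ (v.size + 2) ^ c

private theorem Pb.mono {τ τ' : V → ℕ} (h : Pb τ') (h' : ∀ v, τ v ≤ τ' v) : Pb τ := by
  obtain ⟨c, hc⟩ := h
  exact ⟨c, fun v => (h' v).trans (hc v)⟩

private theorem Pb.size : Pb V.size := ⟨1, fun v => by rw [pow_one]; omega⟩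

private theorem Pb.const (k : ℕ) : Pb fun _ => k := by
  refine ⟨k, fun v => ?_⟩
  calc k ≤ 2 ^ k := Nat.lt_two_pow_self.le
    _ ≤ (v.size + 2) ^ k := Nat.pow_le_pow_left (by omega) k

private theorem Pb.mul {τ τ' : V → ℕ} (h : Pb τ) (h' : Pb τ') : Pb fun v => τ v * τ' v := by
  obtain ⟨c, hc⟩ := h
  obtain ⟨d, hd⟩ := h'
  refine ⟨c + d, fun v => ?_⟩
  rw [pow_add]
  exact Nat.mul_le_mul (hc v) (hd v)

private theorem Pb.add {τ τ' : V → ℕ} (h : Pb τ) (h' : Pb τ') : Pb fun v => τ v + τ' v := by
  obtain ⟨c, hc⟩ := h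
  obtain ⟨d, hd⟩ := h'
  refine ⟨c + d + 1, fun v => ?_⟩
  have h1 : 1 ≤ (v.size + 2) ^ c := Nat.one_le_pow _ _ (by omega)
  have h2 : 1 ≤ (v.size + 2) ^ d := Nat.one_le_pow _ _ (by omega)
  have h3 := hc v
  have h4 := hd v
  have h5 : (v.size + 2) ^ (c + d + 1) = (v.size + 2) ^ c * (v.size + 2) ^ d * (v.size + 2) := by
    rw [pow_succ, pow_add]
  have h6 : (v.size + 2) ^ c ≤ (v.size + 2) ^ c * (v.size + 2) ^ d := Nat.le_mul_of_pos_right _ h2
  have h7 : (v.size + 2) ^ d ≤ (v.size + 2) ^ c * (v.size + 2) ^ d := Nat.le_mul_of_pos_left _ h1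
  have h8 : (v.size + 2) ^ c * (v.size + 2) ^ d * 2 ≤
      (v.size + 2) ^ c * (v.size + 2) ^ d * (v.size + 2) := Nat.mul_le_mul_left _ (by omega)
  rw [h5]
  simp only
  omega

private theorem Pb.pow {τ : V → ℕ} (h : Pb τ) (c : ℕ) : Pb fun v => τ v ^ c := by
  obtain ⟨d, hd⟩ := h
  refine ⟨d * c, fun v => ?_⟩
  rw [pow_mul]
  exact Nat.pow_le_pow_left (hd v) c

private theorem PT.congr {F G : V → V} (h : PT F) (e : ∀ v, F v = G v) : PT G := by
  have : F = G := funext e
  rwa [← this]

/-- Iteration with states of polynomially bounded size. -/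
theorem PT.uiter {F : V → V} (hF : PT F)
    (hb : ∃ c, ∀ v : V, ∀ i ≤ v.hd.spine, (F^[i] v.tl).size ≤ (v.size + 2) ^ c) :
    PT (V.uiter F) := by
  obtain ⟨d, hd⟩ := hF
  obtain ⟨c, hc⟩ := hb
  obtain ⟨C, hC⟩ := hd.uiter
  have h := hC (fun v => ((v.size + 2) ^ c + 2) ^ d) (fun v => (v.size + 2) ^ c) hc (by
    intro v i hi
    exact Nat.pow_le_pow_left (Nat.add_le_add_right (hc v i hi.le) 2) d)
  have hp : Pb fun v => C * (v.hd.spine + 1) *
      (((v.size + 2) ^ c + 2) ^ d + (v.size + 2) ^ c + v.size + 1) := by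
    have hs : Pb fun v => v.hd.spine := by
      refine Pb.size.mono fun v => ?_
      exact v.hd.spine_le_size.trans v.size_hd_le
    have h1 : Pb fun v => (v.size + 2) ^ c := (Pb.size.add (Pb.const 2)).pow c
    exact ((Pb.const C).mul (hs.add (Pb.const 1))).mul
      (((((h1.add (Pb.const 2)).pow d).add h1).add Pb.size).add (Pb.const 1))
  obtain ⟨e, he⟩ := hp
  exact ⟨e, h.mono he⟩

private theorem PT.uiter' {F : V → V} (hF : PT F) {τ : V → ℕ} (hτ : Pb τ)
    (hb : ∀ v : V, ∀ i ≤ v.hd.spine, (F^[i] v.tl).size ≤ τ v) : PT (V.uiter F) := by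
  obtain ⟨c, hc⟩ := hτ
  exact PT.uiter hF ⟨c, fun v i hi => (hb v i hi).trans (hc v)⟩

private theorem hd_spine_le (v : V) : v.hd.spine ≤ v.size :=
  v.hd.spine_le_size.trans v.size_hd_le

private theorem tl_spine_le (v : V) : v.tl.spine ≤ v.size :=
  v.tl.spine_le_size.trans v.size_tl_le

/-- Adding one. -/
private def V.sc (v : V) : V := .node .nil v

private theorem PT.sc {F : V → V} (hF : PT F) : PT fun v => V.sc (F v) :=
  PT.node (PT.const .nil) hF

private theorem sc_iter_size (i : ℕ) (s : V) : (V.sc^[i] s).size = s.size + 2 * i := by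
  induction i with
  | zero => rfl
  | succ i ih =>
    rw [Function.iterate_succ_apply', V.sc, V.size, ih]
    simp only [V.size]
    ring

private theorem sc_iter_una (i n : ℕ) : V.sc^[i] (V.una n) = V.una (i + n) := by
  induction i with
  | zero => simp
  | succ i ih =>
    rw [Function.iterate_succ_apply', ih]
    have : i + 1 + n = (i + n) + 1 := by ring
    rw [this]
    rfl

private theorem PT.scIter : PT (V.uiter V.sc) := by
  refine PT.uiter' (PT.sc PT.id) (τ := fun v => v.size + 2 * v.size)
    (Pb.size.add ((Pb.const 2).mul Pb.size)) ?_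
  intro v i hi
  rw [sc_iter_size]
  have h1 := v.size_tl_le
  have h2 := hd_spine_le v
  omega

/-- Unary numerals: normalisation, addition, multiplication. -/
theorem PT.uspine : PT fun v => V.una v.spine := by
  refine (PT.comp PT.scIter (PT.node PT.id (PT.const .nil))).congr fun v => ?_
  rw [V.uiter, V.hd_node, V.tl_node]
  exact sc_iter_una v.spine 0

theorem PT.uadd : PT fun v => V.una (v.hd.spine + v.tl.spine) := by
  refine (PT.comp PT.scIter (PT.node PT.hd (PT.comp PT.uspine PT.tl))).congr fun v => ?_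
  rw [V.uiter, V.hd_node, V.tl_node]
  exact sc_iter_una _ _

/-- The step of the multiplication. -/
private def V.ms (s : V) : V := .node s.hd (V.una (s.hd.spine + s.tl.spine))

private theorem PT.ms : PT V.ms := PT.node PT.hd PT.uadd

private theorem ms_iter (i : ℕ) (s : V) :
    V.ms^[i + 1] s = .node s.hd (V.una ((i + 1) * s.hd.spine + s.tl.spine)) := by
  induction i with
  | zero => simp [V.ms]
  | succ i ih =>
    rw [Function.iterate_succ_apply', ih, V.ms]
    simp only [V.hd_node, V.tl_node, V.spine_una]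
    congr 2
    ring

private theorem PT.msIter : PT (V.uiter V.ms) := by
  refine PT.uiter' PT.ms (τ := fun v => v.size + 2 * (v.size * v.size + v.size) + 2)
    ((Pb.size.add ((Pb.const 2).mul ((Pb.size.mul Pb.size).add Pb.size))).add (Pb.const 2)) ?_
  intro v i hi
  have h1 := v.size_tl_le
  have h2 := hd_spine_le v
  cases i with
  | zero =>
    simp only [Function.iterate_zero, id_eq]
    omega
  | succ i =>
    rw [ms_iter, V.size, V.size_una]
    have h3 : v.tl.hd.size ≤ v.size := v.tl.size_hd_le.trans h1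
    have h4 : v.tl.hd.spine ≤ v.size := v.tl.hd.spine_le_size.trans h3
    have h5 : v.tl.tl.spine ≤ v.size := (tl_spine_le v.tl).trans h1
    have h6 : (i + 1) * v.tl.hd.spine ≤ v.size * v.size := Nat.mul_le_mul (hi.trans h2) h4
    omega

theorem PT.umul : PT fun v => V.una (v.hd.spine * v.tl.spine) := by
  refine (PT.comp PT.tl (PT.comp PT.msIter
    (PT.node PT.hd (PT.node PT.tl (PT.const .nil))))).congr fun v => ?_
  rw [V.uiter, V.hd_node, V.tl_node]
  rcases h : v.hd.spine with _ | i
  · simp [V.una]
  · rw [ms_iter]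
    simp [V.spine]

private theorem tl_iter_size (i : ℕ) (s : V) : (V.tl^[i] s).size ≤ s.size := by
  induction i with
  | zero => exact le_rfl
  | succ i ih =>
    rw [Function.iterate_succ_apply']
    exact (V.size_tl_le _).trans ih

private theorem tl_spine (s : V) : s.tl.spine = s.spine - 1 := by
  cases s with
  | nil => rfl
  | node a b => simp [V.spine]

private theorem tl_iter_spine (i : ℕ) (s : V) : (V.tl^[i] s).spine = s.spine - i := by
  induction i with
  | zero => rfl
  | succ i ih =>
    rw [Function.iterate_succ_apply', tl_spine, ih]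
    omega

/-- Comparison of unary numerals. -/
theorem PT.ule : PT fun v => V.bool (decide (v.hd.spine ≤ v.tl.spine)) := by
  have h1 : PT (V.uiter V.tl) := by
    refine PT.uiter' PT.tl Pb.size ?_
    intro v i _
    exact (tl_iter_size i _).trans v.size_tl_le
  refine (PT.ifnil (PT.comp h1 (PT.node PT.hd (PT.node (PT.const .nil) PT.tl)))
    (PT.const .nil) (PT.const (.node .nil .nil))).congr fun v => ?_
  have h2 := tl_iter_spine v.hd.spine (.node .nil v.tl)
  rw [V.uiter, V.hd_node, V.tl_node]
  simp only [V.spine] at h2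
  rcases h3 : V.tl^[v.hd.spine] (.node .nil v.tl) with _ | ⟨a, b⟩
  · rw [h3] at h2
    simp only [V.spine] at h2
    have h4 : ¬ v.hd.spine ≤ v.tl.spine := by omega
    simp [h4, V.bool]
  · rw [h3] at h2
    simp only [V.spine] at h2
    have h4 : v.hd.spine ≤ v.tl.spine := by omega
    simp [h4, V.bool]

/-- The step of the guarded iteration; the state is `node (node x B) s`. -/
private def V.gs (F : V → V) (s : V) : V :=
  .node s.hd (V.ifnil (V.bool (decide ((F (.node s.hd.hd s.tl)).size ≤ s.hd.tl.spine)))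
    s.tl (F (.node s.hd.hd s.tl)))

private theorem PT.gs {F : V → V} (hF : PT F) : PT (V.gs F) := by
  have h1 : PT fun s : V => F (.node s.hd.hd s.tl) :=
    PT.comp hF (PT.node (PT.comp PT.hd PT.hd) PT.tl)
  refine (PT.node PT.hd (PT.ifnil (PT.comp PT.ule (PT.node (PT.comp PT.usize h1)
    (PT.comp PT.tl PT.hd))) PT.tl h1)).congr fun v => ?_
  simp only [V.hd_node, V.tl_node, V.spine_una]
  rfl

private theorem gs_iter (F : V → V) (i : ℕ) (x B s : V) :
    (V.gs F)^[i] (.node (.node x B) s) = .node (.node x B)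
      ((fun s => let t := F (.node x s); if t.size ≤ B.spine then t else s)^[i] s) := by
  induction i with
  | zero => rfl
  | succ i ih =>
    rw [Function.iterate_succ_apply', ih, Function.iterate_succ_apply', V.gs]
    simp only [V.hd_node, V.tl_node]
    congr 1
    split_ifs with h
    · simp [h, V.bool]
    · simp [h, V.bool]

private theorem gs_iter_size (F : V → V) (i : ℕ) (s : V) :
    ((V.gs F)^[i] s).size ≤ s.size + (s.size + s.size) + 1 := by
  cases i with
  | zero =>
    simp only [Function.iterate_zero, id_eq]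
    omega
  | succ i =>
    have key : ∀ i, ((V.gs F)^[i + 1] s).hd = s.hd ∧
        ((V.gs F)^[i + 1] s).size ≤ s.size + (s.size + s.size) + 1 ∧
        ((V.gs F)^[i + 1] s).tl.size ≤ s.size + s.size := by
      intro i
      induction i with
      | zero =>
        have h1 := s.size_tl_le
        have h2 := s.size_hd_le
        have h3 := (tl_spine_le s.hd)
        have h4 : (V.gs F s).tl.size ≤ s.size + s.size := by
          rw [V.gs, V.tl_node]
          by_cases h : (F (.node s.hd.hd s.tl)).size ≤ s.hd.tl.spine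
          · simp only [h, decide_true, V.bool, V.ifnil_node]
            omega
          · simp only [h, decide_false, V.bool, V.ifnil_nil]
            omega
        refine ⟨rfl, ?_, h4⟩
        have h5 : (V.gs F)^[0 + 1] s = .node s.hd (V.gs F s).tl := rfl
        rw [h5, V.size]
        omega
      | succ i ih =>
        obtain ⟨ih1, _, ih3⟩ := ih
        rw [Function.iterate_succ_apply']
        set t := (V.gs F)^[i + 1] s with ht
        have h1 := s.size_tl_le
        have h2 := s.size_hd_le
        have h3 := (tl_spine_le s.hd)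
        have h4 : (V.gs F t).tl.size ≤ s.size + s.size := by
          rw [V.gs, V.tl_node, ih1]
          by_cases h : (F (.node s.hd.hd t.tl)).size ≤ s.hd.tl.spine
          · simp only [h, decide_true, V.bool, V.ifnil_node]
            omega
          · simp only [h, decide_false, V.bool, V.ifnil_nil]
            exact ih3
        refine ⟨ih1, ?_, h4⟩
        have h5 : V.gs F t = .node t.hd (V.gs F t).tl := rfl
        rw [h5, V.size, ih1]
        omega
    exact (key i).2.1

/-- Guarded iteration. -/
theorem PT.giter {F : V → V} (hF : PT F) : PT (V.giter F) := by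
  have h1 : PT (V.uiter (V.gs F)) := by
    refine PT.uiter' (PT.gs hF) (τ := fun v => v.size + (v.size + v.size) + 1)
      ((Pb.size.add (Pb.size.add Pb.size)).add (Pb.const 1)) ?_
    intro v i _
    have h2 := gs_iter_size F i v.tl
    have h3 := v.size_tl_le
    omega
  have h2 : PT fun v => V.tl (V.uiter (V.gs F) (.node v.tl.tl.hd
      (.node (.node v.hd v.tl.hd) v.tl.tl.tl))) :=
    PT.comp PT.tl (PT.comp h1 (PT.node (PT.comp PT.hd (PT.comp PT.tl PT.tl))
      (PT.node (PT.node PT.hd (PT.comp PT.hd PT.tl)) (PT.comp PT.tl (PT.comp PT.tl PT.tl)))))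
  refine h2.congr fun v => ?_
  rw [V.uiter, V.hd_node, V.tl_node, gs_iter, V.tl_node]
  rfl

/-- The polynomials of the size, in unary. -/
theorem PT.upow (c : ℕ) : PT fun v => V.una ((v.size + 2) ^ c) := by
  induction c with
  | zero => exact (PT.const (V.una 1)).congr fun v => by rw [pow_zero]
  | succ c ih =>
    refine (PT.comp PT.umul (PT.node ih (PT.sc (PT.sc PT.usize)))).congr fun v => ?_
    simp only [V.hd_node, V.tl_node, V.spine_una, V.sc, V.spine]
    rw [pow_succ]

end Pool.Agent.PF
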