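import Pool.Agent.PF.Enc
import Pool.Agent.PT.Out

/-!
# Functions on trees computed by structured stack programs: definitions
-/

set_option autoImplicit false

namespace Pool.Agent.PF

open Pool.Agent.PT Function

/-- `F` is computed by a family of structured stack programs: `p b` works with the registers from
`b` on, the argument and the value are on top of register `b`, and the registers after `b` are
empty before and after.  The number of steps for the argument `v` is at most `τ v`. -/
def RunsBy (F : V → V) (τ : V → ℕ) : Prop :=
  ∃ p : ℕ → Prog Bool, ∀ (b : ℕ) (s : Store Bool) (v : V) (rest : List Bool),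
    s b = v.code ++ rest → (∀ i, b < i → s i = []) →
    Runs (p b) s (update s b ((F v).code ++ rest)) (τ v)

/-- The number of steps is bounded by a monotone function of the size of the argument. -/
def RunsIn (F : V → V) (T : ℕ → ℕ) : Prop := Monotone T ∧ RunsBy F fun v => T v.size

/-- Polynomial time. -/
def PT (F : V → V) : Prop := ∃ c, RunsBy F fun v => (v.size + 2) ^ c

/-- Left part. -/
def V.hd : V → V
  | .nil => .nil
  | .node a _ => a

/-- Right part. -/
def V.tl : V → V
  | .nil => .nil
  | .node _ b => b

/-- Case distinction. -/
def V.ifnil (c a b : V) : V :=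
  match c with
  | .nil => a
  | .node _ _ => b

@[simp] theorem V.hd_nil : V.hd .nil = .nil := rfl
@[simp] theorem V.hd_node (a b : V) : V.hd (.node a b) = a := rfl
@[simp] theorem V.tl_nil : V.tl .nil = .nil := rfl
@[simp] theorem V.tl_node (a b : V) : V.tl (.node a b) = b := rfl
@[simp] theorem V.ifnil_nil (a b : V) : V.ifnil .nil a b = a := rfl
@[simp] theorem V.ifnil_node (c d a b : V) : V.ifnil (.node c d) a b = b := rfl

theorem V.size_hd_le (v : V) : v.hd.size ≤ v.size := by
  cases v with
  | nil => simp
  | node a b => simp only [V.hd_node, V.size]; omega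

theorem V.size_tl_le (v : V) : v.tl.size ≤ v.size := by
  cases v with
  | nil => simp
  | node a b => simp only [V.tl_node, V.size]; omega

theorem V.spine_le_size (v : V) : v.spine ≤ v.size := by
  induction v with
  | nil => simp [V.spine]
  | node a b _ ih => simp only [V.spine, V.size]; omega

/-- Iteration: `v = node n s` (the number of steps is the spine of `n`). -/
def V.uiter (F : V → V) (v : V) : V := F^[v.hd.spine] v.tl

/-- Guarded iteration: `v = node x (node B (node n s))`; the step gets `node x s`. -/
def V.giter (F : V → V) (v : V) : V :=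
  (fun s => let t := F (.node v.hd s); if t.size ≤ v.tl.hd.spine then t else s)^[v.tl.tl.hd.spine]
    v.tl.tl.tl

theorem RunsBy.mono {F : V → V} {τ τ' : V → ℕ} (h : RunsBy F τ) (hτ : ∀ v, τ v ≤ τ' v) :
    RunsBy F τ' := by
  obtain ⟨p, hp⟩ := h
  refine ⟨p, fun b s v rest h1 h2 => ?_⟩
  obtain ⟨t, ht, hex⟩ := hp b s v rest h1 h2
  exact ⟨t, ht.trans (hτ v), hex⟩

end Pool.Agent.PF
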