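import Pool.Agent.PF.Basic

/-!
# Polynomial time functions: natural numbers (coded in unary)
-/

set_option autoImplicit false

namespace Pool.Agent.PF

variable {α β γ : Type} [VEnc α] [VEnc β] [VEnc γ]

/-- A binary function on naturals, computed on pairs of numerals. -/
private theorem PF.ofBin {op : ℕ → ℕ → γ} {H : V → V} (hH : PT H)
    (h : ∀ a b : ℕ, H (.node (V.una a) (V.una b)) = enc (op a b)) {f g : α → ℕ} (hf : PF f)
    (hg : PF g) : PF (fun x => op (f x) (g x)) := by
  obtain ⟨F, hF, hF'⟩ := hf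
  obtain ⟨G, hG, hG'⟩ := hg
  refine ⟨fun v => H (.node (F v) (G v)), PT.comp hH (PT.node hF hG), fun x => ?_⟩
  have h1 : F (enc x) = V.una (f x) := hF' x
  have h2 : G (enc x) = V.una (g x) := hG' x
  show H (.node (F (enc x)) (G (enc x))) = _
  rw [h1, h2, h]

private theorem tl_iterate (a : ℕ) : ∀ b : ℕ, V.tl^[b] (V.una a) = V.una (a - b) := by
  intro b
  induction b with
  | zero => rfl
  | succ b ih =>
    rw [Function.iterate_succ_apply', ih]
    rcases Nat.eq_zero_or_pos (a - b) with h | h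
    · rw [h, show a - (b + 1) = 0 by omega]; rfl
    · obtain ⟨c, hc⟩ := Nat.exists_eq_succ_of_ne_zero h.ne'
      rw [hc, show a - (b + 1) = c by omega]; rfl

private theorem size_tl_iterate (v : V) : ∀ i : ℕ, (V.tl^[i] v).size ≤ v.size := by
  intro i
  induction i with
  | zero => exact le_rfl
  | succ i ih =>
    rw [Function.iterate_succ_apply']
    exact (V.size_tl_le _).trans ih

private theorem PT.iterTl : PT (V.uiter V.tl) := by
  refine PT.uiter PT.tl ⟨1, fun v i _ => ?_⟩
  have h1 := size_tl_iterate v.tl i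
  have h2 := V.size_tl_le v
  rw [pow_one]
  omega

@[fun_prop] theorem PF.succN {f : α → ℕ} (hf : PF f) : PF (fun x => (f x).succ) := by
  obtain ⟨F, hF, hF'⟩ := hf
  refine ⟨fun v => .node .nil (F v), PT.node (PT.const .nil) hF, fun x => ?_⟩
  show V.node .nil (F (enc x)) = _
  rw [hF' x]
  rfl

@[fun_prop] theorem PF.predN {f : α → ℕ} (hf : PF f) : PF (fun x => (f x).pred) := by
  obtain ⟨F, hF, hF'⟩ := hf
  refine ⟨fun v => V.tl (F v), PT.comp PT.tl hF, fun x => ?_⟩
  show V.tl (F (enc x)) = V.una (f x).pred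
  rw [hF' x]
  show V.tl (V.una (f x)) = V.una (f x).pred
  cases f x <;> rfl

@[fun_prop] theorem PF.addN {f g : α → ℕ} (hf : PF f) (hg : PF g) : PF (fun x => f x + g x) :=
  PF.ofBin (op := fun a b => a + b) PT.uadd (fun a b => by
    show V.una ((V.una a).spine + (V.una b).spine) = V.una (a + b)
    rw [V.spine_una, V.spine_una]) hf hg

@[fun_prop] theorem PF.subN {f g : α → ℕ} (hf : PF f) (hg : PF g) : PF (fun x => f x - g x) :=
  PF.ofBin (op := fun a b => b - a) PT.iterTl (fun a b => by
    show V.tl^[(V.una a).spine] (V.una b) = V.una (b - a)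
    rw [V.spine_una, tl_iterate]) hg hf

@[fun_prop] theorem PF.mulN {f g : α → ℕ} (hf : PF f) (hg : PF g) : PF (fun x => f x * g x) :=
  PF.ofBin (op := fun a b => a * b) PT.umul (fun a b => by
    show V.una ((V.una a).spine * (V.una b).spine) = V.una (a * b)
    rw [V.spine_una, V.spine_una]) hf hg

@[fun_prop] theorem PF.leN {f g : α → ℕ} (hf : PF f) (hg : PF g) :
    PF (fun x => decide (f x ≤ g x)) :=
  PF.ofBin (op := fun a b => decide (a ≤ b)) PT.ule (fun a b => by
    show V.bool (decide ((V.una a).spine ≤ (V.una b).spine)) = V.bool (decide (a ≤ b))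
    simp only [V.spine_una]) hf hg

@[fun_prop] theorem PF.ltN {f g : α → ℕ} (hf : PF f) (hg : PF g) :
    PF (fun x => decide (f x < g x)) := by
  have h := PF.leN (PF.succN hf) hg
  have e : (fun x => decide (f x < g x)) = fun x => decide ((f x).succ ≤ g x) := by
    funext x
    exact decide_eq_decide.2 Nat.succ_le_iff.symm
  rw [e]
  exact h

@[fun_prop] theorem PF.eqN {f g : α → ℕ} (hf : PF f) (hg : PF g) :
    PF (fun x => decide (f x = g x)) := by
  have h := PF.and (PF.leN hf hg) (PF.leN hg hf)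
  have e : (fun x => decide (f x = g x)) = fun x => decide (f x ≤ g x) && decide (g x ≤ f x) := by
    funext x
    rw [← Bool.decide_and, decide_eq_decide]
    exact le_antisymm_iff
  rw [e]
  exact h

@[fun_prop] theorem PF.neN {f g : α → ℕ} (hf : PF f) (hg : PF g) :
    PF (fun x => decide (f x ≠ g x)) := by
  have h := PF.not (PF.eqN hf hg)
  have e : (fun x => decide (f x ≠ g x)) = fun x => !(decide (f x = g x)) := by
    funext x
    rw [← decide_not]
  rw [e]
  exact h

@[fun_prop] theorem PF.minN {f g : α → ℕ} (hf : PF f) (hg : PF g) :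
    PF (fun x => min (f x) (g x)) := by
  have h := PF.ite (p := fun x => f x ≤ g x) (PF.leN hf hg) hf hg
  have e : (fun x => min (f x) (g x)) = fun x => if f x ≤ g x then f x else g x := by
    funext x
    rw [min_def]
  rw [e]
  exact h

@[fun_prop] theorem PF.maxN {f g : α → ℕ} (hf : PF f) (hg : PF g) :
    PF (fun x => max (f x) (g x)) := by
  have h := PF.ite (p := fun x => f x ≤ g x) (PF.leN hf hg) hg hf
  have e : (fun x => max (f x) (g x)) = fun x => if f x ≤ g x then g x else f x := by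
    funext x
    rw [max_def]
  rw [e]
  exact h

/-- One step of the division: `(quotient, remainder)`. -/
private def dstep (d : ℕ) (s : ℕ × ℕ) : ℕ × ℕ := if d ≤ s.2 then (s.1.succ, s.2 - d) else s

private theorem dstep_le (d n : ℕ) : ∀ i : ℕ,
    ((dstep d)^[i] (0, n)).1 ≤ i ∧ ((dstep d)^[i] (0, n)).2 ≤ n := by
  intro i
  induction i with
  | zero => exact ⟨le_rfl, le_rfl⟩
  | succ i ih =>
    rw [Function.iterate_succ_apply']
    generalize (dstep d)^[i] (0, n) = s at ih ⊢
    unfold dstep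
    split_ifs
    · exact ⟨Nat.succ_le_succ ih.1, (Nat.sub_le _ _).trans ih.2⟩
    · exact ⟨ih.1.trans (Nat.le_succ i), ih.2⟩

private theorem dstep_spec (d n : ℕ) : ∀ i : ℕ,
    ((dstep d)^[i] (0, n)).1 * d + ((dstep d)^[i] (0, n)).2 = n ∧
      (((dstep d)^[i] (0, n)).2 < d ∨ i ≤ ((dstep d)^[i] (0, n)).1) := by
  intro i
  induction i with
  | zero => exact ⟨by simp, Or.inr (Nat.zero_le _)⟩
  | succ i ih =>
    rw [Function.iterate_succ_apply']
    generalize (dstep d)^[i] (0, n) = s at ih ⊢
    obtain ⟨h1, h2⟩ := ih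
    unfold dstep
    split_ifs with h
    · refine ⟨?_, Or.inr ?_⟩
      · simp only [Nat.succ_eq_add_one, add_mul, one_mul]; omega
      · simp only [Nat.succ_eq_add_one]; omega
    · exact ⟨h1, Or.inl (not_le.1 h)⟩

private theorem dstep_div {d : ℕ} (hd : 0 < d) (n : ℕ) : ((dstep d)^[n] (0, n)).1 = n / d := by
  obtain ⟨h1, h2⟩ := dstep_spec d n n
  generalize (dstep d)^[n] (0, n) = s at h1 h2 ⊢
  have h3 : s.2 < d := by
    rcases h2 with h2 | h2
    · exact h2
    · have : n * 1 ≤ s.1 * d := Nat.mul_le_mul h2 hd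
      omega
  symm
  rw [← h1, mul_comm, Nat.mul_add_div hd, Nat.div_eq_of_lt h3, add_zero]

@[fun_prop] theorem PF.divN {f g : α → ℕ} (hf : PF f) (hg : PF g) : PF (fun x => f x / g x) := by
  have hstep : PF (fun p : α × (ℕ × ℕ) => dstep (g p.1) p.2) := by
    have h1 : PF (fun p : α × (ℕ × ℕ) => g p.1) := PF.comp' hg (PF.fst PF.id')
    have h2 : PF (fun p : α × (ℕ × ℕ) => p.2) := PF.snd PF.id'
    exact PF.ite (p := fun p : α × (ℕ × ℕ) => g p.1 ≤ p.2.2) (PF.leN h1 (PF.snd h2))
      (PF.prodMk (PF.succN (PF.fst h2)) (PF.subN (PF.snd h2) h1)) h2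
  have hB : PF (fun x => 4 * f x + 3) :=
    PF.addN (PF.mulN (PF.const' 4) hf) (PF.const' 3)
  have h := PF.fst (PF.bIter (f := fun x => dstep (g x)) hB hf hstep
    (PF.prodMk (PF.const' 0) hf))
  have h0 := PF.ite (p := fun x => g x = 0) (PF.eqN hg (PF.const' 0)) (PF.const' 0) h
  have e : (fun x => f x / g x) = fun x => if g x = 0 then 0 else
      (Pool.Agent.PF.bIter (4 * f x + 3) (f x) (dstep (g x)) (0, f x)).1 := by
    funext x
    split_ifs with hx
    · rw [hx, Nat.div_zero]
    · rw [bIter_eq, dstep_div (Nat.pos_of_ne_zero hx)]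
      intro i hi
      obtain ⟨h1, h2⟩ := dstep_le (g x) (f x) (i + 1)
      generalize (dstep (g x))^[i + 1] (0, f x) = s at h1 h2 ⊢
      show Pool.Agent.PF.sz (s.1, s.2) ≤ _
      rw [sz_prod, sz_nat, sz_nat]
      omega
  rw [e]
  exact h0

@[fun_prop] theorem PF.modN {f g : α → ℕ} (hf : PF f) (hg : PF g) : PF (fun x => f x % g x) := by
  have h := PF.subN hf (PF.mulN hg (PF.divN hf hg))
  have e : (fun x => f x % g x) = fun x => f x - g x * (f x / g x) := by
    funext x
    exact Nat.mod_eq_sub _ _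
  rw [e]
  exact h

end Pool.Agent.PF
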